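import Mathlib

/-! Disjoint powers of a rooted graph. -/

namespace Pool.Agent.Lib.MP_befe0b_co.RX

/-- The union of `q` copies of `F` that share the roots `ϱ` and are disjoint otherwise. -/
def rpw {ι ϱ : Type} (F : SimpleGraph (ι ⊕ ϱ)) (q : ℕ) : SimpleGraph ((Fin q × ι) ⊕ ϱ) :=
  SimpleGraph.fromRel fun x y => ∃ t w w', F.Adj w w' ∧
    x = Sum.map (Prod.mk t) id w ∧ y = Sum.map (Prod.mk t) id w'

end Pool.Agent.Lib.MP_befe0b_co.RX
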