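import Pool.Agent.Lib.MP_befe0b_co.RX.Defs

/-! The new rooted graph is balanced. -/

open Finset SimpleGraph
open scoped Classical

noncomputable section

namespace Pool.Agent.Lib.MP_befe0b_co.RX

open Pool.Agent.Lib.MP_befe0b_co.BC

variable {W : Type} [Fintype W] {F : SimpleGraph W} {col : W → Bool}

theorem Bal_inj {ι : Type} (hp : Prp F col) (S : Finset W) (A : Finset ι) (g : ι → W × W)
    (hadj : ∀ i ∈ A, F.Adj (g i).1 (g i).2) (hm : ∀ i ∈ A, (g i).1 ∈ S ∨ (g i).2 ∈ S)
    (hi : ∀ i ∈ A, ∀ j ∈ A, g i = g j ∨ g i = (g j).swap → i = j) :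
    A.card ≤ (Ed F col S).card := by
  refine card_le_card_of_injOn (fun i => if col (g i).1 = false then g i else (g i).swap)
    (fun i hiA => ?_) (fun i hiA j hjA hij => ?_)
  · have hiA : i ∈ A := hiA
    rw [mem_coe, Ed, mem_filter]
    refine ⟨mem_univ _, ?_⟩
    by_cases hc : col (g i).1 = false
    · simp only [if_pos hc]
      exact ⟨hadj i hiA, hc, hm i hiA⟩
    · simp only [if_neg hc, Prod.fst_swap, Prod.snd_swap]
      refine ⟨(hadj i hiA).symm, ?_, (hm i hiA).symm⟩
      have := hp _ _ (hadj i hiA)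
      revert this hc
      cases col (g i).1 <;> cases col (g i).2 <;> simp
  · refine hi i hiA j hjA ?_
    simp only at hij
    by_cases h1 : col (g i).1 = false <;> by_cases h2 : col (g j).1 = false
    · rw [if_pos h1, if_pos h2] at hij; exact Or.inl hij
    · rw [if_pos h1, if_neg h2] at hij; exact Or.inr hij
    · rw [if_neg h1, if_pos h2] at hij
      exact Or.inr (by rw [← hij, Prod.swap_swap])
    · rw [if_neg h1, if_neg h2] at hij; exact Or.inl (Prod.swap_injective hij)

theorem Bal_le {col' : W → Bool} (hp : Prp F col) (hp' : Prp F col') (S : Finset W) :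
    (Ed F col S).card ≤ (Ed F col' S).card := by
  refine Bal_inj hp' S _ id (fun e he => (mem_filter.1 he).2.1)
    (fun e he => (mem_filter.1 he).2.2.2) fun e he e' he' h => ?_
  rcases h with h | h
  · exact h
  · exfalso
    have h1 := (mem_filter.1 he).2.2.1
    have h2 := (mem_filter.1 he').2
    have h3 : e.1 = e'.2 := congrArg Prod.fst h
    exact hp _ _ h2.1 (by rw [h2.2.1, ← h3, h1])

theorem ed_indep {col' : W → Bool} (hp : Prp F col) (hp' : Prp F col') (S : Finset W) :
    (Ed F col S).card = (Ed F col' S).card :=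
  le_antisymm (Bal_le hp hp' S) (Bal_le hp' hp S)

theorem Bal_sub (k : ℕ) (P : ℕ → Prop) :
    (univ.filter fun i : Fin k => P (i + 1)).image (fun i : Fin k => i.val + 1) ⊆
      (range (k + 1)).filter fun i => P i ∨ P (i + 1) := by
  intro j hj
  obtain ⟨i, hi, rfl⟩ := mem_image.1 hj
  exact mem_filter.2 ⟨mem_range.2 (by have := i.2; omega), Or.inl (mem_filter.1 hi).2⟩

theorem Bal_img (k : ℕ) (P : ℕ → Prop) :
    ((univ.filter fun i : Fin k => P (i + 1)).image (fun i : Fin k => i.val + 1)).card =
      (univ.filter fun i : Fin k => P (i + 1)).card :=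
  card_image_of_injective _ fun i j h => Fin.ext (by simpa using h)

theorem Bal_path (k : ℕ) (P : ℕ → Prop) (h : ∃ i, i ≤ k + 1 ∧ P i) :
    (univ.filter fun i : Fin k => P (i + 1)).card + 1 ≤
      ((range (k + 1)).filter fun i => P i ∨ P (i + 1)).card := by
  have hm := Nat.find_spec h
  have hmin := fun j => Nat.find_min h (m := j)
  set m := Nat.find h
  have hn : m - 1 ∉ (univ.filter fun i : Fin k => P (i + 1)).image
      (fun i : Fin k => i.val + 1) := by
    intro hj
    obtain ⟨i, hi, he⟩ := mem_image.1 hj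
    have hi2 := i.2
    exact hmin (i.val + 1) (by omega) ⟨by omega, (mem_filter.1 hi).2⟩
  rw [← Bal_img, ← card_insert_of_notMem hn]
  refine card_le_card (insert_subset (mem_filter.2 ⟨mem_range.2 (by omega), ?_⟩) (Bal_sub k P))
  rcases Nat.eq_zero_or_pos m with h0 | h0
  · left
    have : m - 1 = m := by omega
    rw [this]; exact hm.2
  · right
    have : m - 1 + 1 = m := by omega
    rw [this]; exact hm.2

/-- The position of a vertex on its path. -/
def Bal_idx (F : SimpleGraph W) (col : W → Bool) (k : ℕ) : Pv F col k → ℕ :=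
  Sum.elim (fun w => if col w = false then 0 else k + 1) (Sum.elim (fun y => y.2.val + 1) fun _ => 0)

omit [Fintype W] in
theorem Bal_idx_pos (hp : Prp F col) (k : ℕ) (e : Eo F col) (i : ℕ) (hi : i ≤ k + 1) :
    Bal_idx F col k (pos k e i) = i := by
  rcases Nat.eq_zero_or_pos i with h0 | h0
  · subst h0
    rw [pos_zero]
    simp [Bal_idx, e.2.2]
  · by_cases h1 : i = k + 1
    · subst h1
      rw [pos_last]
      have h2 : ¬ col e.1.2 = false := fun h => hp _ _ e.2.1 (by rw [e.2.2, h])
      simp only [Bal_idx, Sum.elim_inl, if_neg h2]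
    · have h2 := pos_mid k e ⟨i - 1, by omega⟩
      have h3 : i - 1 + 1 = i := by omega
      simp only [h3] at h2
      rw [h2]
      simp only [Bal_idx, Sum.elim_inr, Sum.elim_inl, h3]

omit [Fintype W] in
theorem Bal_apex (k : ℕ) (e : Eo F col) (i : ℕ) (c : Bool) :
    pos k e i ≠ (.inr (.inr c) : Pv F col k) := by
  unfold pos
  split_ifs <;> simp

omit [Fintype W] in
theorem Bal_edge (k : ℕ) (e e' : Eo F col) (i : ℕ) (hi : i ≤ k)
    (h1 : pos k e i = pos k e' i) (h2 : pos k e (i + 1) = pos k e' (i + 1)) : e = e' := by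
  by_cases hk : i < k
  · rw [pos_mid k e ⟨i, hk⟩, pos_mid k e' ⟨i, hk⟩] at h2
    simpa using h2
  · have hik : i = k := by omega
    subst hik
    rcases Nat.eq_zero_or_pos i with h0 | h0
    · subst h0
      rw [pos_zero, pos_zero] at h1
      rw [pos_last, pos_last] at h2
      exact Subtype.ext (Prod.ext (Sum.inl_injective h1) (Sum.inl_injective h2))
    · have h3 := pos_mid i e ⟨i - 1, by omega⟩
      have h4 := pos_mid i e' ⟨i - 1, by omega⟩
      have h5 : i - 1 + 1 = i := by omega
      simp only [h5] at h3 h4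
      rw [h3, h4] at h1
      simpa using h1

theorem Bal_low (hp : Prp F col) (k : ℕ) (hq : Prp (plus F col k) (colp F col k))
    (S : Finset (Pv F col k)) :
    (univ.filter fun w : W => (Sum.inl w : Pv F col k) ∈ S).card +
      ∑ e : Eo F col, ((range (k + 1)).filter fun i => pos k e i ∈ S ∨ pos k e (i + 1) ∈ S).card ≤
      (Ed (plus F col k) (colp F col k) S).card := by
  rw [← card_sigma, ← card_disjSum]
  refine Bal_inj hq S _ (Sum.elim (fun w => (Sum.inl w, Sum.inr (Sum.inr (col w))))
    fun y => (pos k y.1 y.2, pos k y.1 (y.2 + 1))) ?_ ?_ ?_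
  · rintro (w | ⟨e, i⟩) h
    · exact (fromRel_adj _ _ _).2 ⟨by simp, Or.inl (Or.inr ⟨w, rfl, rfl⟩)⟩
    · have hi : i < k + 1 := mem_range.1 (mem_filter.1 (mem_sigma.1 (inr_mem_disjSum.1 h)).2).1
      refine (fromRel_adj _ _ _).2 ⟨fun h0 => ?_, Or.inl (Or.inl ⟨e, i, by omega, rfl, rfl⟩)⟩
      have h1 : pos k e i = pos k e (i + 1) := h0
      have h2 := congrArg (Bal_idx F col k) h1
      rw [Bal_idx_pos hp k e i (by omega), Bal_idx_pos hp k e (i + 1) (by omega)] at h2
      omega
  · rintro (w | ⟨e, i⟩) h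
    · exact Or.inl (mem_filter.1 (inl_mem_disjSum.1 h)).2
    · exact (mem_filter.1 (mem_sigma.1 (inr_mem_disjSum.1 h)).2).2
  · rintro (w | ⟨e, i⟩) h (w' | ⟨e', i'⟩) h' (hg | hg)
    · exact congrArg _ (Sum.inl_injective (congrArg Prod.fst hg))
    · exact absurd (congrArg Prod.fst hg) (by simp)
    · exact absurd (congrArg Prod.snd hg).symm (Bal_apex k e' _ _)
    · exact absurd (congrArg Prod.snd hg).symm (Bal_apex k e' _ _)
    · exact absurd (congrArg Prod.snd hg) (Bal_apex k e _ _)
    · exact absurd (congrArg Prod.fst hg) (Bal_apex k e _ _)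
    · have hi : i < k + 1 := mem_range.1 (mem_filter.1 (mem_sigma.1 (inr_mem_disjSum.1 h)).2).1
      have hi' : i' < k + 1 := mem_range.1 (mem_filter.1 (mem_sigma.1 (inr_mem_disjSum.1 h')).2).1
      have h1 : pos k e i = pos k e' i' := congrArg Prod.fst hg
      have h2 : pos k e (i + 1) = pos k e' (i' + 1) := congrArg Prod.snd hg
      have h3 := congrArg (Bal_idx F col k) h1
      rw [Bal_idx_pos hp k e i (by omega), Bal_idx_pos hp k e' i' (by omega)] at h3
      subst h3
      rw [Bal_edge k e e' i (by omega) h1 h2]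
    · have hi : i < k + 1 := mem_range.1 (mem_filter.1 (mem_sigma.1 (inr_mem_disjSum.1 h)).2).1
      have hi' : i' < k + 1 := mem_range.1 (mem_filter.1 (mem_sigma.1 (inr_mem_disjSum.1 h')).2).1
      have h1 : pos k e i = pos k e' (i' + 1) := congrArg Prod.fst hg
      have h2 : pos k e (i + 1) = pos k e' i' := congrArg Prod.snd hg
      have h3 := congrArg (Bal_idx F col k) h1
      have h4 := congrArg (Bal_idx F col k) h2
      rw [Bal_idx_pos hp k e i (by omega), Bal_idx_pos hp k e' (i' + 1) (by omega)] at h3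
      rw [Bal_idx_pos hp k e (i + 1) (by omega), Bal_idx_pos hp k e' i' (by omega)] at h4
      omega

theorem Bal_card (k : ℕ) (S : Finset (Pv F col k))
    (hS : ∀ c : Bool, (Sum.inr (Sum.inr c) : Pv F col k) ∉ S) :
    S.card = (univ.filter fun w : W => (Sum.inl w : Pv F col k) ∈ S).card +
      ∑ e : Eo F col, (univ.filter fun i : Fin k => pos k e (i + 1) ∈ S).card := by
  have h : S.card = ∑ x : Pv F col k, if x ∈ S then 1 else 0 := by
    simp
  rw [h, Fintype.sum_sum_type, Fintype.sum_sum_type, Fintype.sum_prod_type]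
  simp only [card_filter, pos_mid, if_neg (hS _), sum_const_zero, add_zero]
  refine congrArg₂ (· + ·) (sum_congr rfl fun _ _ => ?_)
    (sum_congr rfl fun _ _ => sum_congr rfl fun _ _ => ?_) <;> split_ifs <;> rfl

theorem bal_plus (hp : Prp F col) (R : W → Prop) (a b k : ℕ)
    (h : ∀ S : Finset W, (∀ w ∈ S, ¬ R w) → b * S.card ≤ a * (Ed F col S).card)
    (hq : Prp (plus F col k) (colp F col k)) (S : Finset (Pv F col k))
    (hS : ∀ w ∈ S, ¬ rtp F col k R w) :
    ((k + 1) * b + a) * S.card ≤ (k * b + a) * (Ed (plus F col k) (colp F col k) S).card := by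
  have h1 := Bal_low hp k hq S
  have h2 := Bal_card k S fun c hc => hS _ hc trivial
  have h3 := h (univ.filter fun w : W => (Sum.inl w : Pv F col k) ∈ S)
    fun w hw => hS _ (mem_filter.1 hw).2
  set S0 := univ.filter fun w : W => (Sum.inl w : Pv F col k) ∈ S with hS0
  let A : Finset (Eo F col) := univ.filter fun e => ∃ i, i ≤ k + 1 ∧ pos k e i ∈ S
  have h4 : (Ed F col S0).card ≤ A.card := by
    refine le_trans (card_le_card fun e he => ?_) (card_image_le (f := Subtype.val))
    obtain ⟨ha, hc, hm⟩ := (mem_filter.1 he).2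
    refine mem_image.2 ⟨⟨e, ha, hc⟩, mem_filter.2 ⟨mem_univ _, ?_⟩, rfl⟩
    rcases hm with hm | hm
    · exact ⟨0, by omega, by rw [pos_zero]; exact (mem_filter.1 hm).2⟩
    · exact ⟨k + 1, le_rfl, by rw [pos_last]; exact (mem_filter.1 hm).2⟩
  have hA : A.card = ∑ e : Eo F col, if ∃ i, i ≤ k + 1 ∧ pos k e i ∈ S then 1 else 0 :=
    card_filter _ _
  have h5 : ∑ e : Eo F col, (univ.filter fun i : Fin k => pos k e (i + 1) ∈ S).card + A.card ≤
      ∑ e : Eo F col,
        ((range (k + 1)).filter fun i => pos k e i ∈ S ∨ pos k e (i + 1) ∈ S).card := by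
    rw [hA, ← sum_add_distrib]
    refine sum_le_sum fun e _ => ?_
    by_cases he : ∃ i, i ≤ k + 1 ∧ pos k e i ∈ S
    · rw [if_pos he]
      have := Bal_path k (fun i => pos k e i ∈ S) he
      refine le_trans (le_of_eq ?_) (this.trans (le_of_eq ?_))
      · exact congrArg (· + 1) (congrArg card (by ext i; simp))
      · exact congrArg card (by ext i; simp)
    · rw [if_neg he, add_zero, card_eq_zero.2]
      · exact Nat.zero_le _
      · refine filter_eq_empty_iff.2 fun i _ hi => he ⟨i + 1, ?_, hi⟩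
        have := i.2
        omega
  have h6 : ∑ e : Eo F col, (univ.filter fun i : Fin k => pos k e (i + 1) ∈ S).card ≤
      k * A.card := by
    rw [hA, mul_sum]
    refine sum_le_sum fun e _ => ?_
    by_cases he : ∃ i, i ≤ k + 1 ∧ pos k e i ∈ S
    · rw [if_pos he, mul_one]
      exact (card_filter_le _ _).trans (by simp)
    · rw [card_eq_zero.2]
      · exact Nat.zero_le _
      · refine filter_eq_empty_iff.2 fun i _ hi => he ⟨i + 1, ?_, hi⟩
        have := i.2
        omega
  rw [h2]
  generalize ∑ e : Eo F col, (univ.filter fun i : Fin k => pos k e (i + 1) ∈ S).card = τ at *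
  have h7 : S0.card + τ + A.card ≤ (Ed (plus F col k) (colp F col k) S).card := by omega
  have h8 := Nat.mul_le_mul_left (k * b + a) h7
  have h9 := Nat.mul_le_mul_left a h4
  have h10 := Nat.mul_le_mul_left b h6
  refine le_trans ?_ h8
  nlinarith

end Pool.Agent.Lib.MP_befe0b_co.RX
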