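import Pool.Agent.Lib.MP_befe0b_co.RX.Walk

/-! Counting walks in a nearly regular graph. -/

open Finset SimpleGraph
open scoped Classical

noncomputable section

namespace Pool.Agent.Lib.MP_befe0b_co.RX

open Pool.Agent.Lib.MP_befe0b_co.BC

variable {V : Type} [Fintype V] {G : SimpleGraph V}

theorem cnt_nonneg {d D : ℝ} (hG : Host G d D) : 0 ≤ D := by
  obtain ⟨v⟩ := hG.ne
  exact (Nat.cast_nonneg _).trans (hG.hi v)

theorem cnt_mem_nb {u v : V} : v ∈ nb G u ↔ G.Adj u v := by
  simp [nb]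

theorem wk_lower {d D : ℝ} (hG : Host G d D) (hd : 0 ≤ d) (N : ℕ) :
    Fintype.card V * d ^ N ≤ (Wk G N).card := by
  induction N with
  | zero =>
    rw [pow_zero, mul_one]
    have h : (univ : Finset V).card ≤ (Wk G 0).card :=
      card_le_card_of_injOn (fun v _ => v)
        (fun v _ => mem_coe.2 (mem_Wk.2 ⟨fun _ => rfl, fun t ht => absurd ht (Nat.not_lt_zero t)⟩))
        (fun u _ v _ e => congrFun e 0)
    rw [card_univ] at h
    exact_mod_cast h
  | succ N ih =>
    let ex : (ℕ → V) → V → ℕ → V := fun x v t => if t ≤ N then x t else v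
    have h1 := card_biUnion_ge (Wk G N) (fun x => (nb G (x N)).image (ex x)) (tr N) (a := d)
      (fun x hx y hy => by
        obtain ⟨v, -, rfl⟩ := mem_image.1 hy
        funext t
        simp only [tr, ex, min_le_right, if_true]
        exact ((mem_Wk.1 hx).1 t).symm)
      (fun x _ => by
        rw [card_image_of_injective _ fun u v e => by
          have := congrFun e (N + 1)
          simpa [ex] using this]
        exact hG.lo _)
    have h2 : ((Wk G N).biUnion fun x => (nb G (x N)).image (ex x)) ⊆ Wk G (N + 1) := by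
      intro y hy
      obtain ⟨x, hx, hy⟩ := mem_biUnion.1 hy
      obtain ⟨v, hv, rfl⟩ := mem_image.1 hy
      refine mem_Wk.2 ⟨fun t => ?_, fun t ht => ?_⟩
      · by_cases h : t ≤ N
        · rw [min_eq_left (by omega)]
        · rw [min_eq_right (by omega)]
          simp only [ex, h, if_false, show ¬ (N + 1 ≤ N) by omega]
      · by_cases h : t + 1 ≤ N
        · simp only [ex, h, if_true, show t ≤ N by omega]
          exact (mem_Wk.1 hx).2 t (by omega)
        · obtain rfl : t = N := by omega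
          simp only [ex, h, if_false, le_refl, if_true]
          exact cnt_mem_nb.1 hv
    have h3 := card_le_card h2
    calc (Fintype.card V : ℝ) * d ^ (N + 1) = d * (Fintype.card V * d ^ N) := by ring
      _ ≤ d * (Wk G N).card := mul_le_mul_of_nonneg_left ih hd
      _ ≤ _ := h1.trans (by convert (Nat.cast_le (α := ℝ)).2 h3)

theorem cnt_fibre {d D : ℝ} (hG : Host G d D) {N i j : ℕ} (h : i + j ≤ N) (F : Finset (ℕ → V))
    (hF : ∀ x ∈ F, x ∈ Wk G N)
    (he : ∀ x ∈ F, ∀ y ∈ F, ∀ t, i ≤ t → t ≤ i + j → x t = y t) :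
    (F.card : ℝ) ≤ D ^ (N - j) := by
  have hm : ∀ t, t ∈ range i ∪ Ioc (i + j) N ↔ t < i ∨ (i + j < t ∧ t ≤ N) := fun t => by
    rw [mem_union, mem_range, mem_Ioc]
  have h1 := ext_image (range i ∪ Ioc (i + j) N) (fun t => if t < i then t + 1 else t - 1)
    (fun t => if t < i then i - t else t)
    (fun y hy hp => by
      rw [hm] at hy hp
      split_ifs at hp ⊢ <;> omega)
    (fun _ v => nb G v) (fun _ => D) (fun _ _ => cnt_nonneg hG) (fun _ _ v => hG.hi v) F
    (fun φ hφ y hy => by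
      rw [hm] at hy
      refine cnt_mem_nb.2 ?_
      by_cases c : y < i
      · simp only [c, if_true]
        exact ((mem_Wk.1 (hF φ hφ)).2 y (by omega)).symm
      · simp only [c, if_false]
        have := (mem_Wk.1 (hF φ hφ)).2 (y - 1) (by omega)
        rwa [show y - 1 + 1 = y by omega] at this)
    (fun y hy hp φ hφ ψ hψ => by
      rw [hm] at hy hp
      rw [he φ hφ ψ hψ _ (by split_ifs at hp ⊢ <;> omega) (by split_ifs at hp ⊢ <;> omega)])
    id
    (fun φ hφ ψ hψ e => Wk_ext (hF φ hφ) (hF ψ hψ) fun t ht => by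
      by_cases c : t < i ∨ (i + j < t ∧ t ≤ N)
      · exact e t ((hm t).2 c)
      · exact he φ hφ ψ hψ t (by omega) (by omega))
  rw [image_id, prod_const, card_union_of_disjoint (disjoint_left.2 fun t h1 h2 => by
    rw [mem_range] at h1
    rw [mem_Ioc] at h2
    omega), card_range, Nat.card_Ioc, show i + (N - (i + j)) = N - j by omega] at h1
  exact h1

theorem wk_ext {d D : ℝ} (hG : Host G d D) {N i j : ℕ} (h : i + j ≤ N) (S : Finset (ℕ → V)) :
    ((((Wk G N).filter fun x => tr j (sh x i) ∈ S).card : ℕ) : ℝ) ≤ S.card * D ^ (N - j) := by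
  have h1 := card_le_mul_image ((Wk G N).filter fun x => tr j (sh x i) ∈ S)
    (fun x => tr j (sh x i)) (b := D ^ (N - j)) fun x _ =>
      cnt_fibre hG h _ (fun y hy => (mem_filter.1 (mem_filter.1 hy).1).1)
        fun y hy z hz t h1 h2 => by
          have e := congrFun ((mem_filter.1 hy).2.trans (mem_filter.1 hz).2.symm) (t - i)
          simp only [tr, sh] at e
          rwa [min_eq_left (by omega), show i + (t - i) = t by omega] at e
  refine h1.trans ?_
  rw [mul_comm]
  refine mul_le_mul_of_nonneg_right (Nat.cast_le.2 (card_le_card fun c hc => ?_))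
    (pow_nonneg (cnt_nonneg hG) _)
  obtain ⟨x, hx, rfl⟩ := mem_image.1 hc
  exact (mem_filter.1 hx).2

theorem cnt_upper {d D : ℝ} (hG : Host G d D) (N : ℕ) :
    ((Wk G N).card : ℝ) ≤ Fintype.card V * D ^ N := by
  have h1 := wk_ext hG (N := N) (i := 0) (j := 0) (by omega)
    (univ.image fun (v : V) (_ : ℕ) => v)
  rw [filter_true_of_mem fun x _ => mem_image.2 ⟨x 0, mem_univ _, funext fun t => by
    simp [tr, sh]⟩, Nat.sub_zero] at h1
  refine h1.trans (mul_le_mul_of_nonneg_right (Nat.cast_le.2 ?_) (pow_nonneg (cnt_nonneg hG) _))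
  exact card_image_le.trans card_univ.le

theorem wk_closed {d D : ℝ} (hG : Host G d D) (j : ℕ) :
    ((((Wk G (j + 1)).filter fun x => x 0 = x (j + 1)).card : ℕ) : ℝ) ≤
      Fintype.card V * D ^ j := by
  refine le_trans (Nat.cast_le.2 ?_) (cnt_upper hG j)
  refine card_le_card_of_injOn (fun x => tr j (sh x 0))
    (fun x hx => mem_coe.2 (win_mem (mem_filter.1 (mem_coe.1 hx)).1 (by omega)))
    fun x hx y hy e => ?_
  obtain ⟨hx1, hx2⟩ := mem_filter.1 (mem_coe.1 hx)
  obtain ⟨hy1, hy2⟩ := mem_filter.1 (mem_coe.1 hy)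
  have e' : ∀ t ≤ j, x t = y t := fun t ht => by
    have := congrFun e t
    simpa only [tr, sh, min_eq_left ht, zero_add] using this
  refine Wk_ext hx1 hy1 fun t ht => ?_
  by_cases c : t ≤ j
  · exact e' t c
  · obtain rfl : t = j + 1 := by omega
    rw [← hx2, ← hy2]
    exact e' 0 (Nat.zero_le _)

theorem st_card {d D : ℝ} (hG : Host G d D) (j : ℕ) (z : V) : ((St G j z).card : ℝ) ≤ D ^ j := by
  have h1 := cnt_fibre hG (N := j) (i := j) (j := 0) (by omega)
    ((Wk G j).filter fun x => x j = z) (fun x hx => (mem_filter.1 hx).1)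
    fun x hx y hy t h1 h2 => by
      obtain rfl : t = j := by omega
      rw [(mem_filter.1 hx).2, (mem_filter.1 hy).2]
  rw [Nat.sub_zero] at h1
  exact le_trans (Nat.cast_le.2 card_image_le) h1

theorem cnt_full {M : ℕ → ℕ} (hM : ∀ l, 1 ≤ M l) {k : ℕ} {x : ℕ → V} (hx : x ∈ Wk G (k + 3))
    (h1 : ∀ i l, i + (l + 1) ≤ k + 3 → x i ≠ x (i + (l + 1)))
    (h2 : ∀ i l, i + (l + 1) ≤ k + 3 → 1 ≤ l → l ≤ k → tr (l + 1) (sh x i) ∉ Hw G M l) :
    Full G M k x := by
  have key : ∀ l, l ≤ k + 1 → ∀ i, i + l ≤ k + 3 → Gd G M l (sh x i) := by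
    intro l
    induction l with
    | zero => intro _ _ _; trivial
    | succ l ih =>
      intro hl i hi
      have hA : Ad G M l (sh x i) := by
        refine ⟨ih (by omega) i (by omega), ?_, h1 i l hi⟩
        refine (ih (by omega) (i + 1) (by omega)).congr fun t _ => ?_
        simp only [sh, add_assoc]
      refine gd_succ.2 ⟨hA, ?_⟩
      rcases Nat.eq_zero_or_pos l with rfl | hp
      · refine le_trans (card_le_one.2 fun y hy z hz => ?_) (hM _)
        obtain ⟨a1, -, a2, a3⟩ := mem_Pa.1 hy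
        obtain ⟨b1, -, b2, b3⟩ := mem_Pa.1 hz
        refine Wk_ext a1 b1 fun t ht => ?_
        obtain rfl | rfl : t = 0 ∨ t = 0 + 1 := by omega
        · rw [a2, b2]
        · rw [a3, b3]
      · by_contra hc
        have e : ∀ t ≤ l + 1, sh x i t = tr (l + 1) (sh x i) t := fun t ht => by
          simp only [tr, min_eq_left ht]
        refine h2 i l hi hp (by omega) (mem_Hw.2 ⟨win_mem hx hi, hA.congr e, ?_⟩)
        rw [← e 0 (by omega), ← e (l + 1) le_rfl]
        exact not_le.1 hc
  refine ⟨fun i hi => key _ le_rfl i (by omega), fun s hs t ht e => ?_⟩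
  rw [Set.mem_Iic] at hs ht
  by_contra hne
  rcases lt_or_gt_of_ne hne with c | c
  · refine h1 s (t - s - 1) (by omega) ?_
    rwa [show s + (t - s - 1 + 1) = t by omega]
  · refine h1 t (s - t - 1) (by omega) ?_
    rw [show t + (s - t - 1 + 1) = s by omega]
    exact e.symm

/-- If heavy walks are rare, half of the walks are full. -/
theorem many_full (k : ℕ) {K : ℝ} (hK : 1 ≤ K) : ∃ ε d₀ : ℝ, 0 < ε ∧ ∀ M : ℕ → ℕ,
    (∀ l, 1 ≤ M l) → ∀ (V : Type) [Fintype V] (G : SimpleGraph V) (d : ℝ), Host G d (K * d) →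
      d₀ ≤ d → (∀ j, 1 ≤ j → j ≤ k →
        ((Hw G M j).card : ℝ) ≤ ε * Fintype.card V * d ^ (j + 1)) →
      Fintype.card V * d ^ (k + 3) / 2 ≤ ((Wk G (k + 3)).filter (Full G M k)).card := by
  obtain ⟨c, hc⟩ : ∃ c : ℝ, c = (((k + 4) * (k + 4) : ℕ) : ℝ) := ⟨_, rfl⟩
  have hc0 : 0 < c := by rw [hc]; positivity
  have hK0 : 0 < K := by linarith
  refine ⟨1 / (4 * c * K ^ (k + 3)), 4 * c * K ^ (k + 2), by positivity, ?_⟩
  intro M hM V _ G d hG hd hH
  have hd0 : 0 < d := lt_of_lt_of_le (by positivity) hd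
  have hn : (0 : ℝ) ≤ Fintype.card V := Nat.cast_nonneg _
  let P : Finset (ℕ × ℕ) :=
    (range (k + 4) ×ˢ range (k + 4)).filter fun p => p.1 + (p.2 + 1) ≤ k + 3
  let C : ℕ → Finset (ℕ → V) := fun l => (Wk G (l + 1)).filter fun x => x 0 = x (l + 1)
  let H : ℕ → Finset (ℕ → V) := fun l => if 1 ≤ l ∧ l ≤ k then Hw G M l else ∅
  let B : ℕ × ℕ → Finset (ℕ → V) := fun p =>
    ((Wk G (k + 3)).filter fun x => tr (p.2 + 1) (sh x p.1) ∈ C p.2) ∪
      (Wk G (k + 3)).filter fun x => tr (p.2 + 1) (sh x p.1) ∈ H p.2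
  have hsub : Wk G (k + 3) ⊆ (Wk G (k + 3)).filter (Full G M k) ∪ P.biUnion B := by
    intro x hx
    by_contra hno
    rw [mem_union, not_or] at hno
    have hP : ∀ i l, i + (l + 1) ≤ k + 3 → x ∉ B (i, l) := fun i l h hb =>
      hno.2 (mem_biUnion.2 ⟨(i, l), mem_filter.2 ⟨mem_product.2
        ⟨mem_range.2 (by simp only; omega), mem_range.2 (by simp only; omega)⟩, h⟩, hb⟩)
    refine hno.1 (mem_filter.2 ⟨hx, cnt_full hM hx (fun i l h e => ?_) fun i l h a b e => ?_⟩)
    · refine hP i l h (mem_union_left _ (mem_filter.2 ⟨hx, mem_filter.2 ⟨win_mem hx h, ?_⟩⟩))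
      simpa only [tr, sh, Nat.zero_min, min_self, add_zero] using e
    · refine hP i l h (mem_union_right _ (mem_filter.2 ⟨hx, ?_⟩))
      simpa only [H, a, b, and_self, if_true] using e
  have hB : ∀ p ∈ P, ((B p).card : ℝ) ≤ Fintype.card V * d ^ (k + 3) / (2 * c) := by
    intro p hp
    have hp' := (mem_filter.1 hp).2
    obtain ⟨r, hr⟩ : ∃ r, k + 2 = p.2 + r := ⟨k + 2 - p.2, by omega⟩
    have e1 : k + 3 - (p.2 + 1) = r := by omega
    have a1 := wk_ext hG hp' (C p.2)
    have a2 := wk_ext hG hp' (H p.2)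
    rw [e1] at a1 a2
    have hD : 0 ≤ (K * d) ^ r := by positivity
    have b1 : ((C p.2).card : ℝ) * (K * d) ^ r ≤ Fintype.card V * d ^ (k + 3) / (4 * c) := by
      refine (mul_le_mul_of_nonneg_right (wk_closed hG p.2) hD).trans ?_
      rw [mul_assoc, ← pow_add, ← hr, le_div_iff₀ (by positivity), mul_pow]
      calc (Fintype.card V : ℝ) * (K ^ (k + 2) * d ^ (k + 2)) * (4 * c)
          = Fintype.card V * d ^ (k + 2) * (4 * c * K ^ (k + 2)) := by ring
        _ ≤ Fintype.card V * d ^ (k + 2) * d := mul_le_mul_of_nonneg_left hd (by positivity)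
        _ = _ := by ring
    have b2 : ((H p.2).card : ℝ) * (K * d) ^ r ≤ Fintype.card V * d ^ (k + 3) / (4 * c) := by
      by_cases q : 1 ≤ p.2 ∧ p.2 ≤ k
      · simp only [H, q, and_self, if_true]
        refine (mul_le_mul_of_nonneg_right (hH _ q.1 q.2) hD).trans ?_
        have hk : K ^ r ≤ K ^ (k + 3) := pow_le_pow_right₀ hK (by omega)
        have e2 : d ^ (k + 3) = d ^ (p.2 + 1) * d ^ r := by
          rw [← pow_add]; congr 1; omega
        calc 1 / (4 * c * K ^ (k + 3)) * Fintype.card V * d ^ (p.2 + 1) * (K * d) ^ r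
            = Fintype.card V * d ^ (k + 3) / (4 * c) * (K ^ r / K ^ (k + 3)) := by
              rw [e2, mul_pow]; field_simp
          _ ≤ Fintype.card V * d ^ (k + 3) / (4 * c) * 1 :=
              mul_le_mul_of_nonneg_left ((div_le_one (by positivity)).2 hk) (by positivity)
          _ = _ := mul_one _
      · simp only [H, q, if_false, card_empty, Nat.cast_zero, zero_mul]
        positivity
    have c1 : ((B p).card : ℝ) ≤ _ := Nat.cast_le.2 (card_union_le _ _)
    rw [Nat.cast_add] at c1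
    calc ((B p).card : ℝ) ≤ _ := c1
      _ ≤ Fintype.card V * d ^ (k + 3) / (4 * c) + Fintype.card V * d ^ (k + 3) / (4 * c) :=
          add_le_add (a1.trans b1) (a2.trans b2)
      _ = _ := by field_simp; ring
  have hPc : (P.card : ℝ) ≤ c := by
    rw [hc]
    exact Nat.cast_le.2 ((card_filter_le _ _).trans (by simp))
  have h1 : ((P.biUnion B).card : ℝ) ≤ Fintype.card V * d ^ (k + 3) / 2 := by
    calc ((P.biUnion B).card : ℝ) ≤ ∑ p ∈ P, ((B p).card : ℝ) := by
          exact_mod_cast card_biUnion_le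
      _ ≤ ∑ _p ∈ P, Fintype.card V * d ^ (k + 3) / (2 * c) := sum_le_sum hB
      _ = P.card * (Fintype.card V * d ^ (k + 3) / (2 * c)) := by rw [sum_const, nsmul_eq_mul]
      _ ≤ c * (Fintype.card V * d ^ (k + 3) / (2 * c)) :=
          mul_le_mul_of_nonneg_right hPc (by positivity)
      _ = _ := by field_simp
  have h2 : ((Wk G (k + 3)).card : ℝ) ≤
      ((Wk G (k + 3)).filter (Full G M k)).card + (P.biUnion B).card := by
    exact_mod_cast (card_le_card hsub).trans (card_union_le _ _)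
  have h3 := wk_lower hG hd0.le (k + 3)
  linarith

end Pool.Agent.Lib.MP_befe0b_co.RX
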