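import Pool.Agent.Lib.MP_befe0b_co.BC.Count
import Pool.Agent.Lib.MP_befe0b_co.BC.LbDefs

/-! Subdivision with two apexes, and good walks. -/

open Finset
open scoped Classical

noncomputable section

namespace Pool.Agent.Lib.MP_befe0b_co.RX

open Pool.Agent.Lib.MP_befe0b_co.BC

section plus

variable {W : Type}

/-- The colouring is proper. -/
def Prp (H : SimpleGraph W) (col : W → Bool) : Prop := ∀ u v, H.Adj u v → col u ≠ col v

/-- The edges, oriented from colour `false` to colour `true`. -/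
abbrev Eo (H : SimpleGraph W) (col : W → Bool) : Type :=
  {e : W × W // H.Adj e.1 e.2 ∧ col e.1 = false}

/-- Old vertices, `k` new vertices on each edge, two apexes. -/
abbrev Pv (H : SimpleGraph W) (col : W → Bool) (k : ℕ) : Type := W ⊕ (Eo H col × Fin k) ⊕ Bool

/-- The vertex number `i` on the path that replaces `e`. -/
def pos {H : SimpleGraph W} {col : W → Bool} (k : ℕ) (e : Eo H col) (i : ℕ) : Pv H col k :=
  if h : 1 ≤ i ∧ i ≤ k then .inr (.inl (e, ⟨i - 1, by omega⟩))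
  else if i = 0 then .inl e.1.1 else .inl e.1.2

/-- Every edge becomes a path with `k + 1` edges; apex `b` is joined to the colour class `b`. -/
def plus (H : SimpleGraph W) (col : W → Bool) (k : ℕ) : SimpleGraph (Pv H col k) :=
  SimpleGraph.fromRel fun x y => (∃ e i, i ≤ k ∧ x = pos k e i ∧ y = pos k e (i + 1)) ∨
    ∃ w, x = .inl w ∧ y = .inr (.inr (col w))

/-- The colouring of the new graph. -/
def colp (H : SimpleGraph W) (col : W → Bool) (k : ℕ) : Pv H col k → Bool :=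
  Sum.elim (fun w => col w && (k + 1).bodd)
    (Sum.elim (fun y => (y.2.val + 1).bodd) fun b => !(b && (k + 1).bodd))

/-- The roots of the new graph. -/
def rtp (H : SimpleGraph W) (col : W → Bool) (k : ℕ) (R : W → Prop) : Pv H col k → Prop :=
  Sum.elim R (Sum.elim (fun y => R y.1.1.1 ∧ R y.1.1.2) fun _ => True)

theorem pos_zero {H : SimpleGraph W} {col : W → Bool} (k : ℕ) (e : Eo H col) :
    pos k e 0 = .inl e.1.1 := by simp [pos]

theorem pos_last {H : SimpleGraph W} {col : W → Bool} (k : ℕ) (e : Eo H col) :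
    pos k e (k + 1) = .inl e.1.2 := by simp [pos]

theorem pos_mid {H : SimpleGraph W} {col : W → Bool} (k : ℕ) (e : Eo H col) (i : Fin k) :
    pos k e (i + 1) = .inr (.inl (e, i)) := by
  have : 1 ≤ i.val + 1 ∧ i.val + 1 ≤ k := ⟨by omega, i.2⟩
  simp [pos, this]

/-- `H` is the union of the `p` distinct copies `φ` of `F`, which agree on the roots. -/
structure Pow {U : Type} (F : SimpleGraph W) (R : W → Prop) (H : SimpleGraph U) {p : ℕ}
    (φ : Fin p → F.Copy H) : Prop where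
  inj : Function.Injective φ
  root : ∀ i j w, R w → φ i w = φ j w
  vtx : ∀ u, ∃ i w, φ i w = u
  edge : ∀ u v, H.Adj u v → ∃ i w w', F.Adj w w' ∧ φ i w = u ∧ φ i w' = v

/-- The invariant of the induction: a balanced rooted graph whose powers have exponent
`2 - a / b`. -/
structure Inv [Fintype W] (a b : ℕ) (F : SimpleGraph W) (R : W → Prop) (col : W → Bool) :
    Prop where
  ne : Nonempty W
  prp : Prp F col
  iso : ∀ w, ∃ w', F.Adj w w'
  bal : ∀ S : Finset W, (∀ w ∈ S, ¬ R w) → b * S.card ≤ a * (Ed F col S).card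
  pw : ∀ p, 1 ≤ p → ∃ (U : Type) (_ : Fintype U) (H : SimpleGraph U) (cH : U → Bool)
    (φ : Fin p → F.Copy H), Pow F R H φ ∧ Prp H cH ∧ (∀ i w, cH (φ i w) = col w) ∧
      H.Connected ∧ ∃ C : ℝ, ∀ n : ℕ,
        (SimpleGraph.extremalNumber n H : ℝ) ≤ C * (n : ℝ) ^ (2 - (a : ℝ) / b)

end plus

variable {V : Type} [Fintype V] (G : SimpleGraph V)

/-- The sequence from index `i` on. -/
def sh (x : ℕ → V) (i : ℕ) : ℕ → V := fun t => x (i + t)

/-- The sequence frozen at index `j`. -/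
def tr (j : ℕ) (x : ℕ → V) : ℕ → V := fun t => x (min t j)

/-- Walks with `j` edges, as sequences that are constant from index `j` on. -/
def Wk (j : ℕ) : Finset (ℕ → V) :=
  (univ.image fun (v : Fin (j + 1) → V) (t : ℕ) => v ⟨min t j, by omega⟩).filter
    fun x => ∀ t < j, G.Adj (x t) (x (t + 1))

/-- Good sequences of length `j`. -/
def Gd (M : ℕ → ℕ) : ℕ → (ℕ → V) → Prop
  | 0, _ => True
  | j + 1, x => (Gd M j x ∧ Gd M j (sh x 1) ∧ x 0 ≠ x (j + 1)) ∧
      ((Wk G (j + 1)).filter fun y => (Gd M j y ∧ Gd M j (sh y 1) ∧ y 0 ≠ y (j + 1)) ∧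
        y 0 = x 0 ∧ y (j + 1) = x (j + 1)).card ≤ M (j + 1)

/-- Admissible sequences of length `j + 1`. -/
def Ad (M : ℕ → ℕ) (j : ℕ) (x : ℕ → V) : Prop :=
  Gd G M j x ∧ Gd G M j (sh x 1) ∧ x 0 ≠ x (j + 1)

/-- The admissible walks of length `j + 1` from `u` to `v`. -/
def Pa (M : ℕ → ℕ) (j : ℕ) (u v : V) : Finset (ℕ → V) :=
  (Wk G (j + 1)).filter fun y => Ad G M j y ∧ y 0 = u ∧ y (j + 1) = v

/-- The admissible walks of length `j + 1` whose ends are a heavy pair. -/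
def Hw (M : ℕ → ℕ) (j : ℕ) : Finset (ℕ → V) :=
  (Wk G (j + 1)).filter fun x => Ad G M j x ∧ M (j + 1) < (Pa G M j (x 0) (x (j + 1))).card

/-- The first vertices of the walks of length `j` that end at `z`. -/
def St (j : ℕ) (z : V) : Finset V := ((Wk G j).filter fun x => x j = z).image fun x => x 0

/-- A path of length `k + 3` whose three windows of length `k + 1` are good. -/
structure Full (M : ℕ → ℕ) (k : ℕ) (x : ℕ → V) : Prop where
  gd : ∀ i ≤ 2, Gd G M (k + 1) (sh x i)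
  inj : Set.InjOn x (Set.Iic (k + 3))

/-- `u` and `v` are joined by paths of length `l` that avoid any `q` given vertices. -/
def Lk (l q : ℕ) (u v : V) : Prop :=
  ∀ Q : Finset V, Q.card ≤ q → ∃ y : ℕ → V, y 0 = u ∧ y l = v ∧
    (∀ t < l, G.Adj (y t) (y (t + 1))) ∧ Set.InjOn y (Set.Iic l) ∧ ∀ t, 1 ≤ t → t < l → y t ∉ Q

variable {G}

theorem gd_succ {M : ℕ → ℕ} {j : ℕ} {x : ℕ → V} :
    Gd G M (j + 1) x ↔ Ad G M j x ∧ (Pa G M j (x 0) (x (j + 1))).card ≤ M (j + 1) := by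
  rw [Gd]
  have h : ∀ a b : ℕ, a = b → (a ≤ M (j + 1) ↔ b ≤ M (j + 1)) := fun a b h => h ▸ Iff.rfl
  refine and_congr Iff.rfl (h _ _ ?_)
  refine congrArg Finset.card (Finset.ext fun y => ?_)
  rw [Pa, mem_filter, mem_filter]
  exact Iff.rfl

theorem mem_Wk {j : ℕ} {x : ℕ → V} :
    x ∈ Wk G j ↔ (∀ t, x t = x (min t j)) ∧ ∀ t < j, G.Adj (x t) (x (t + 1)) := by
  rw [Wk, mem_filter]
  refine and_congr_left fun _ => ⟨fun h t => ?_, fun h => ?_⟩
  · obtain ⟨v, -, rfl⟩ := mem_image.1 h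
    simp only [min_assoc, min_self]
  · exact mem_image.2 ⟨fun i => x i, mem_univ _, funext fun t => (h t).symm⟩

theorem mem_Pa {M : ℕ → ℕ} {j : ℕ} {u v : V} {y : ℕ → V} :
    y ∈ Pa G M j u v ↔ y ∈ Wk G (j + 1) ∧ Ad G M j y ∧ y 0 = u ∧ y (j + 1) = v := mem_filter

theorem mem_Hw {M : ℕ → ℕ} {j : ℕ} {x : ℕ → V} :
    x ∈ Hw G M j ↔ x ∈ Wk G (j + 1) ∧ Ad G M j x ∧
      M (j + 1) < (Pa G M j (x 0) (x (j + 1))).card := mem_filter

theorem Wk_ext {j : ℕ} {x y : ℕ → V} (hx : x ∈ Wk G j) (hy : y ∈ Wk G j)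
    (h : ∀ t ≤ j, x t = y t) : x = y := funext fun t => by
  rw [(mem_Wk.1 hx).1 t, (mem_Wk.1 hy).1 t, h _ (min_le_right _ _)]

theorem win_mem {N i j : ℕ} {x : ℕ → V} (hx : x ∈ Wk G N) (h : i + j ≤ N) :
    tr j (sh x i) ∈ Wk G j := by
  refine mem_Wk.2 ⟨fun t => by simp only [tr, min_assoc, min_self], fun t ht => ?_⟩
  simp only [tr, sh, min_eq_left ht.le, min_eq_left (Nat.succ_le_of_lt ht)]
  exact (mem_Wk.1 hx).2 (i + t) (by omega)

end Pool.Agent.Lib.MP_befe0b_co.RX
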