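import Pool.Agent.Lib.MP_befe0b_co.RX.Ind
import Pool.Agent.Lib.MP_befe0b_co.RX.Stat
import Pool.Agent.Lib.MP_befe0b_co.BC.Lower

/-! Both bounds for every rational exponent, and the exponents of the families. -/

open Finset Filter Topology
open scoped Classical

noncomputable section

namespace Pool.Agent.Lib.MP_befe0b_co.RX

open Pool.Agent.Lib.MP_befe0b_co.BC

theorem fin_ge {a : ℕ → ℝ} {α r c c' : ℝ} (h : Tendsto (fun n : ℕ => a n / (n : ℝ) ^ α) atTop (𝓝 c))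
    (hc : 0 < c') (h1 : ∀ᶠ n : ℕ in atTop, c' * (n : ℝ) ^ r ≤ a n) : r ≤ α := by
  by_contra hr
  have h2 : Tendsto (fun n : ℕ => c' * (n : ℝ) ^ (r - α)) atTop atTop :=
    ((tendsto_rpow_atTop (by linarith)).comp tendsto_natCast_atTop_atTop).const_mul_atTop hc
  refine not_tendsto_atTop_of_tendsto_nhds h (tendsto_atTop_mono' _ ?_ h2)
  filter_upwards [h1, eventually_gt_atTop 0] with n h3 h4
  have h5 : (0 : ℝ) < n := by exact_mod_cast h4
  rw [Real.rpow_sub h5, ← mul_div_assoc]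
  exact div_le_div_of_nonneg_right h3 (Real.rpow_nonneg h5.le _)

theorem fin_le {a : ℕ → ℝ} {α r c C : ℝ} (h : Tendsto (fun n : ℕ => a n / (n : ℝ) ^ α) atTop (𝓝 c))
    (hc : 0 < c) (h1 : ∀ n : ℕ, a n ≤ C * (n : ℝ) ^ r) : α ≤ r := by
  by_contra hr
  have h2 : Tendsto (fun n : ℕ => C * (n : ℝ) ^ (-(α - r))) atTop (𝓝 (C * 0)) :=
    ((tendsto_rpow_neg_atTop (by linarith)).comp tendsto_natCast_atTop_atTop).const_mul C
  have h3 : c ≤ C * 0 := by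
    refine le_of_tendsto_of_tendsto h h2 ?_
    filter_upwards [eventually_gt_atTop 0] with n h4
    have h5 : (0 : ℝ) < n := by exact_mod_cast h4
    rw [neg_sub, Real.rpow_sub h5, ← mul_div_assoc]
    exact div_le_div_of_nonneg_right (h1 n) (Real.rpow_nonneg h5.le _)
  linarith

theorem fin_ex {W : Type} {H : SimpleGraph W} {n : ℕ} {G : SimpleGraph (Fin n)} (h : H.Free G) :
    G.edgeSet.ncard ≤ SimpleGraph.extremalNumber n H := by
  have h1 := SimpleGraph.card_edgeFinset_le_extremalNumber h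
  rwa [Fintype.card_fin, SimpleGraph.edgeFinset, ← Set.ncard_eq_toFinset_card'] at h1

theorem fin_free {W W' V : Type} {T : SimpleGraph W} {H : SimpleGraph W'} {G : SimpleGraph V}
    {p : ℕ} {ϱ : Type} (rt : ϱ → W)
    (hG : ∀ φ : Fin p → T.Copy G, (∀ i j r, φ i (rt r) = φ j (rt r)) → ¬ Function.Injective φ)
    (hH : ∃ φ : Fin p → T.Copy H, (∀ i j r, φ i (rt r) = φ j (rt r)) ∧ Function.Injective φ) :
    H.Free G := by
  rintro ⟨ψ⟩
  obtain ⟨φ, h1, h2⟩ := hH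
  refine hG (fun i => ψ.comp (φ i)) (fun i j r => congrArg ψ (h1 i j r)) fun i j e => h2 ?_
  ext w
  exact ψ.injective (congrArg (fun χ : T.Copy G => χ w) e)

theorem fin_ed {W : Type} [Fintype W] {F : SimpleGraph W} {col : W → Bool} (hp : Prp F col)
    (S : Finset W) : (Ed F col S).card = {e ∈ F.edgeSet | ∃ s ∈ S, s ∈ e}.ncard := by
  rw [← Set.ncard_coe_finset]
  refine Set.ncard_congr (fun e _ => s(e.1, e.2)) (fun e he => ?_) (fun e e' he he' h => ?_)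
    fun e he => ?_
  · obtain ⟨h1, -, h2⟩ := ind_mem.1 (mem_coe.1 he)
    exact ⟨h1, h2.elim (fun h => ⟨_, h, Sym2.mem_mk_left _ _⟩) fun h => ⟨_, h, Sym2.mem_mk_right _ _⟩⟩
  · obtain ⟨h1, h2, -⟩ := ind_mem.1 (mem_coe.1 he)
    obtain ⟨-, h3, -⟩ := ind_mem.1 (mem_coe.1 he')
    rcases Sym2.eq_iff.1 h with h4 | h4
    · exact Prod.ext h4.1 h4.2
    · exact absurd (h2.trans (h4.2 ▸ h3).symm) (hp _ _ h1)
  · obtain ⟨h1, s, h2, h3⟩ := he
    induction e using Sym2.ind with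
    | _ x y =>
      have h4 : x ∈ S ∨ y ∈ S :=
        (Sym2.mem_iff.1 h3).imp (fun h : s = x => h ▸ h2) fun h : s = y => h ▸ h2
      have h5 := hp x y h1
      cases hx : col x
      · exact ⟨(x, y), mem_coe.2 (ind_mem.2 ⟨h1, hx, h4⟩), rfl⟩
      · refine ⟨(y, x), mem_coe.2 (ind_mem.2 ⟨SimpleGraph.Adj.symm h1, ?_, h4.symm⟩), Sym2.eq_swap⟩
        rw [hx] at h5
        simpa using h5

theorem Inw.comap {W W' : Type} [Fintype W] [Fintype W'] {a b : ℕ} {F : SimpleGraph W}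
    {R : W → Prop} {col : W → Bool} (h : Inw a b F R col) (e : W' ≃ W) :
    Inw a b (F.comap e) (fun x => R (e x)) fun x => col (e x) := by
  have h1 : ∀ S : Finset W', (Ed (F.comap e) (fun x => col (e x)) S).card =
      (Ed F col (S.map e.toEmbedding)).card := fun S =>
    card_equiv (e.prodCongr e) fun x => by simp [ind_mem]
  obtain ⟨w₀, h0⟩ := h.ne
  refine ⟨⟨e.symm w₀, by simpa using h0⟩, fun u v huv => h.prp _ _ huv, fun w => ?_, fun S hS => ?_,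
    fun S hS => ?_, fun p => ?_⟩
  · obtain ⟨w', hw⟩ := h.iso (e w)
    exact ⟨e.symm w', by simpa using hw⟩
  · rw [h1, ← card_map e.toEmbedding]
    refine h.bal _ fun w hw => ?_
    obtain ⟨x, hx, rfl⟩ := mem_map.1 hw
    exact hS x hx
  · rw [h1, ← card_map e.toEmbedding (s := S)]
    refine h.top _ fun w => ?_
    rw [mem_map_equiv, hS, e.apply_symm_apply]
  · obtain ⟨U, _, H, cH, φ, f1, f2, f3, f4, f5⟩ := h.pw p
    exact ⟨U, inferInstance, H, cH, fun i => ⟨⟨fun x => φ i (e x), fun hx => (φ i).toHom.map_rel hx⟩,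
      (φ i).injective.comp e.injective⟩, fun i j w => f1 i j _, fun i j w w' => f2 i j _ _, f3,
      fun i w => f4 i _, f5⟩

variable {ι ϱ : Type} {F : SimpleGraph (ι ⊕ ϱ)}

theorem fin_self (s₀ : ι) (p : ℕ) : ∃ φ : Fin p → F.Copy (rpw F p),
    (∀ i j r, φ i (.inr r) = φ j (.inr r)) ∧ Function.Injective φ := by
  have h0 : ∀ t : Fin p, Function.Injective (Sum.map (Prod.mk t) id : ι ⊕ ϱ → (Fin p × ι) ⊕ ϱ) :=
    fun t => Sum.map_injective.2 ⟨Prod.mk_right_injective t, Function.injective_id⟩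
  refine ⟨fun t => ⟨⟨Sum.map (Prod.mk t) id, fun {x y} h => (SimpleGraph.fromRel_adj _ _ _).2
    ⟨fun e => h.ne (h0 t e), Or.inl ⟨t, x, y, h, rfl, rfl⟩⟩⟩, h0 t⟩, fun _ _ _ => rfl, fun i j e => ?_⟩
  have := congrArg (fun χ : F.Copy (rpw F p) => χ (.inl s₀)) e
  exact (Prod.mk.inj (Sum.inl.inj this)).1

theorem fin_col {col : ι ⊕ ϱ → Bool} (hp : Prp F col) (q : ℕ) : (rpw F q).Colorable 2 := by
  have h : ∀ (t : Fin q) (w : ι ⊕ ϱ), Sum.map Prod.snd id (Sum.map (Prod.mk t) id w) = w := by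
    rintro t (w | w) <;> rfl
  have C : (rpw F q).Coloring Bool := SimpleGraph.Coloring.mk (fun x => col (Sum.map Prod.snd id x))
    fun {x y} hxy => by
      rcases ((SimpleGraph.fromRel_adj _ _ _).1 hxy).2 with
        ⟨t, w, w', a, rfl, rfl⟩ | ⟨t, w, w', a, rfl, rfl⟩
      · rw [h, h]; exact hp _ _ a
      · rw [h, h]; exact (hp _ _ a).symm
  simpa using C.colorable

theorem fin_sub {U : Type} {H : SimpleGraph U} {q : ℕ} (φ : Fin (q + 1) → F.Copy H)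
    (h1 : ∀ i j r, φ i (.inr r) = φ j (.inr r)) (h2 : ∀ i j s w, φ i (.inl s) = φ j w → i = j) :
    (rpw F q).IsContained H := by
  let ψ : (Fin q × ι) ⊕ ϱ → U := Sum.elim (fun x => φ x.1.succ (.inl x.2)) fun r => φ 0 (.inr r)
  have h : ∀ (t : Fin q) (w : ι ⊕ ϱ), ψ (Sum.map (Prod.mk t) id w) = φ t.succ w := by
    rintro t (w | w)
    · rfl
    · exact h1 _ _ w
  refine ⟨⟨⟨ψ, fun {x y} hxy => ?_⟩, ?_⟩⟩
  · rcases ((SimpleGraph.fromRel_adj _ _ _).1 hxy).2 with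
      ⟨t, w, w', a, rfl, rfl⟩ | ⟨t, w, w', a, rfl, rfl⟩
    · rw [h, h]; exact (φ _).toHom.map_rel a
    · rw [h, h]; exact (φ _).toHom.map_rel a.symm
  · rintro (⟨t, s⟩ | r) (⟨t', s'⟩ | r') e
    · obtain rfl : t = t' := Fin.succ_injective _ (h2 _ _ _ _ e)
      obtain rfl : s = s' := Sum.inl.inj ((φ _).injective e)
      rfl
    · exact absurd (h2 _ _ _ _ e) (Fin.succ_ne_zero _)
    · exact absurd (h2 _ _ _ _ e.symm) (Fin.succ_ne_zero _)
    · rw [Sum.inr.inj ((φ _).injective e)]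

theorem fin_family {r : ℝ} {p : ℕ} {c : ℝ} (hc : 0 < c)
    (hu : ∀ q, ∃ C : ℝ, ∀ n : ℕ, (SimpleGraph.extremalNumber n (rpw F q) : ℝ) ≤ C * (n : ℝ) ^ r)
    (hl : ∀ᶠ n : ℕ in atTop, ∃ G : SimpleGraph (Fin n),
      c * (n : ℝ) ^ r ≤ G.edgeSet.ncard ∧ ∀ φ : Fin p → F.Copy G,
        (∀ i j r, φ i (.inr r) = φ j (.inr r)) → ¬ Function.Injective φ)
    (m : ℕ) (w : Fin m → ℕ) (H : ∀ i, SimpleGraph (Fin (w i))) (a b : Fin m → ℝ) (α β : ℝ)
    (h1 : ∀ i, ∃ φ : Fin p → F.Copy (H i),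
      (∀ s t r, φ s (.inr r) = φ t (.inr r)) ∧ Function.Injective φ)
    (h2 : ∃ i q, (H i).IsContained (rpw F q))
    (h3 : ∀ i, 0 < b i ∧ Tendsto (fun n : ℕ =>
      (SimpleGraph.extremalNumber n (H i) : ℝ) / (n : ℝ) ^ a i) atTop (𝓝 (b i)))
    (h4 : 0 < β) (h5 : Tendsto (fun n : ℕ => ((sSup {e : ℕ | ∃ G : SimpleGraph (Fin n),
      (∀ i, (H i).Free G) ∧ G.edgeSet.ncard = e} : ℕ) : ℝ) / (n : ℝ) ^ α) atTop (𝓝 β)) :
    IsLeast (Set.range a) α ∧ α = r := by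
  obtain ⟨i₀, q, hq⟩ := h2
  obtain ⟨C, hC⟩ := hu q
  have up : ∀ n : ℕ, (SimpleGraph.extremalNumber n (H i₀) : ℝ) ≤ C * (n : ℝ) ^ r :=
    fun n => (Nat.cast_le.2 hq.extremalNumber_le).trans (hC n)
  have bd : ∀ (n : ℕ) (i : Fin m), ∀ e ∈ {e : ℕ | ∃ G : SimpleGraph (Fin n),
      (∀ i, (H i).Free G) ∧ G.edgeSet.ncard = e}, e ≤ SimpleGraph.extremalNumber n (H i) := by
    rintro n i e ⟨G, g1, rfl⟩
    exact fin_ex (g1 i)
  have lo : ∀ᶠ n : ℕ in atTop, c * (n : ℝ) ^ r ≤ ((sSup {e : ℕ |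
      ∃ G : SimpleGraph (Fin n), (∀ i, (H i).Free G) ∧ G.edgeSet.ncard = e} : ℕ) : ℝ) :=
    hl.mono fun n ⟨G, g1, g2⟩ => g1.trans (Nat.cast_le.2 (le_csSup ⟨_, bd n i₀⟩
      ⟨G, fun i => fin_free Sum.inr g2 (h1 i), rfl⟩))
  have e1 : α = r := le_antisymm
    (fin_le h5 h4 fun n => (Nat.cast_le.2 (csSup_le' (bd n i₀))).trans (up n)) (fin_ge h5 hc lo)
  have e2 : ∀ i, r ≤ a i := fun i => fin_ge (h3 i).2 hc
    (lo.mono fun n g => g.trans (Nat.cast_le.2 (csSup_le' (bd n i))))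
  refine ⟨⟨⟨i₀, le_antisymm (e1 ▸ fin_le (h3 i₀).2 (h3 i₀).1 up) (e1 ▸ e2 i₀)⟩, ?_⟩, e1⟩
  rintro _ ⟨i, rfl⟩
  exact e1 ▸ e2 i

theorem all_rat (r : ℚ) (h1 : 1 ≤ r) (h2 : r < 2) :
    ∃ (ι ϱ : Type) (_ : Fintype ι) (_ : Fintype ϱ) (F : SimpleGraph (ι ⊕ ϱ)) (p : ℕ) (c : ℝ),
      Nonempty ι ∧ 0 < c ∧
      (∀ S : Finset ι,
        (S.card : ℝ) ≤ (2 - r) * {e ∈ F.edgeSet | ∃ s ∈ S, Sum.inl s ∈ e}.ncard) ∧
      (Fintype.card ι : ℝ) = (2 - r) * {e ∈ F.edgeSet | ∃ s, Sum.inl s ∈ e}.ncard ∧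
      (∀ q : ℕ, (rpw F q).Colorable 2 ∧ ∃ C : ℝ, ∀ n : ℕ,
        (SimpleGraph.extremalNumber n (rpw F q) : ℝ) ≤ C * (n : ℝ) ^ (r : ℝ)) ∧
      ∀ᶠ n : ℕ in atTop, ∃ G : SimpleGraph (Fin n),
        c * (n : ℝ) ^ (r : ℝ) ≤ G.edgeSet.ncard ∧ ∀ φ : Fin p → F.Copy G,
          (∀ s t x, φ s (.inr x) = φ t (.inr x)) → ¬ Function.Injective φ := by
  obtain ⟨a, b, ha, hab, hr⟩ : ∃ a b : ℕ, 0 < a ∧ a ≤ b ∧ (a : ℝ) / b = 2 - r := by
    have h3 : 0 < (2 - r).num := Rat.num_pos.2 (by linarith)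
    have h4 : (((2 - r).num.toNat : ℕ) : ℚ) / (2 - r).den = 2 - r := by
      rw [← Int.cast_natCast, Int.toNat_of_nonneg h3.le, Rat.num_div_den]
    refine ⟨(2 - r).num.toNat, (2 - r).den, by omega, ?_, by simpa using congrArg (Rat.cast : ℚ → ℝ) h4⟩
    have h5 : (((2 - r).num.toNat : ℕ) : ℚ) / (2 - r).den ≤ 1 := by linarith
    rw [div_le_one (by exact_mod_cast (2 - r).den_pos)] at h5
    exact_mod_cast h5
  have hb : (0 : ℝ) < b := by exact_mod_cast ha.trans_le hab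
  have hr' : 2 - (a : ℝ) / b = r := by linarith
  obtain ⟨W, _, F₀, R, col, h₀⟩ := inw_all b a ha hab
  let e : {w // ¬ R w} ⊕ {w // ¬ ¬ R w} ≃ W := Equiv.sumCompl fun w => ¬ R w
  have h := h₀.comap e
  have l1 : ∀ s, ¬ R (e (.inl s)) := fun s => s.2
  have l2 : ∀ s, R (e (.inr s)) := fun s => not_not.1 s.2
  generalize F₀.comap e = F at h
  have l3 : ∀ S : Finset {w // ¬ R w}, {e ∈ F.edgeSet | ∃ s ∈ S, Sum.inl s ∈ e}.ncard =
      (Ed F (fun x => col (e x)) (S.map Function.Embedding.inl)).card := fun S => by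
    rw [fin_ed h.prp]
    refine congrArg Set.ncard (Set.ext fun z => and_congr_right fun _ =>
      ⟨fun ⟨s, a, b⟩ => ⟨_, mem_map_of_mem _ a, b⟩, fun ⟨s, a, b⟩ => ?_⟩)
    obtain ⟨s', a', rfl⟩ := mem_map.1 a
    exact ⟨s', a', b⟩
  have l4 : ∀ S : Finset {w // ¬ R w},
      (S.card : ℝ) ≤ (2 - r) * {e ∈ F.edgeSet | ∃ s ∈ S, Sum.inl s ∈ e}.ncard := fun S => by
    have h3 := h.bal (S.map Function.Embedding.inl) fun w hw => by
      obtain ⟨s, -, rfl⟩ := mem_map.1 hw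
      exact l1 s
    rw [card_map, ← l3] at h3
    rw [← hr, div_mul_eq_mul_div, le_div_iff₀' hb]
    exact_mod_cast h3
  obtain ⟨w₀, hw₀⟩ := h₀.ne
  obtain ⟨p, c, hc, hl⟩ := lower F (fun x => R (e x)) a b ha (ha.trans_le hab) (by omega)
    ⟨.inl ⟨w₀, hw₀⟩⟩ h.iso fun col' hp S hS => by
      rw [ed_indep hp h.prp]
      exact h.bal S hS
  refine ⟨_, _, inferInstance, inferInstance, F, p, c, ⟨⟨w₀, hw₀⟩⟩, hc, l4, ?_,
    fun q => ⟨fin_col h.prp q, ?_⟩, hl.mono fun n ⟨G, g1, g2⟩ => ⟨G, hr' ▸ g1, fun φ hφ =>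
      g2 φ ?_⟩⟩
  · refine le_antisymm (by simpa using l4 univ) ?_
    have h3 := h.top (univ.map Function.Embedding.inl) (by
      rintro (s | s)
      · simp [l1]
      · simp [l2])
    rw [card_map, ← l3, card_univ] at h3
    rw [← hr, div_mul_eq_mul_div, div_le_iff₀' hb]
    simp only [mem_univ, true_and] at h3
    exact_mod_cast h3
  · obtain ⟨U, _, H, cH, φ, f1, f2, -, -, -, -, C, f7⟩ := h.pw q
    have h3 := fin_sub φ (fun i j x => f1 i j _ (l2 x)) fun i j s w => f2 i j _ w (l1 s)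
    exact ⟨C, fun n => hr' ▸ (Nat.cast_le.2 h3.extremalNumber_le).trans (f7 n)⟩
  · rintro i j (s | s) hs
    · exact absurd hs (l1 s)
    · exact hφ i j s

end Pool.Agent.Lib.MP_befe0b_co.RX
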