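import Pool.Agent.Lib.MP_befe0b_co.RX.Defs

/-! The operation respects colourings, connectedness and powers; the base case. -/

open Finset SimpleGraph
open scoped Classical

noncomputable section

namespace Pool.Agent.Lib.MP_befe0b_co.RX

open Pool.Agent.Lib.MP_befe0b_co.BC

variable {W : Type} {F : SimpleGraph W} {col : W → Bool}

theorem Fun_col_snd (hp : Prp F col) (e : Eo F col) : col e.1.2 = true := by
  have h := hp _ _ e.2.1
  rw [e.2.2] at h
  cases hc : col e.1.2
  · exact absurd hc.symm h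
  · rfl

theorem Fun_colp_pos (hp : Prp F col) (k : ℕ) (e : Eo F col) (i : ℕ) (hi : i ≤ k + 1) :
    colp F col k (pos k e i) = i.bodd := by
  rcases Nat.eq_zero_or_pos i with rfl | h0
  · rw [pos_zero]
    simp [colp, e.2.2]
  · rcases eq_or_lt_of_le hi with rfl | h1
    · rw [pos_last]
      simp only [colp, Sum.elim_inl, Fun_col_snd hp e, Bool.true_and]
    · obtain ⟨j, rfl⟩ : ∃ j, i = j + 1 := ⟨i - 1, by omega⟩
      have := pos_mid k e ⟨j, by omega⟩
      simp only at this
      rw [this]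
      simp only [colp, Sum.elim_inr, Sum.elim_inl]

theorem Fun_colp_ne (hp : Prp F col) (k : ℕ) (e : Eo F col) (i : ℕ) (hi : i ≤ k) :
    colp F col k (pos k e i) ≠ colp F col k (pos k e (i + 1)) := by
  rw [Fun_colp_pos hp k e i (by omega), Fun_colp_pos hp k e (i + 1) (by omega), Nat.bodd_succ]
  cases i.bodd <;> simp

theorem Fun_colp_apex (k : ℕ) (w : W) :
    colp F col k (.inl w) ≠ colp F col k (.inr (.inr (col w))) := by
  simp only [colp, Sum.elim_inl, Sum.elim_inr]
  cases (col w && (k + 1).bodd) <;> simp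

theorem Fun_adj_pos (hp : Prp F col) (k : ℕ) (e : Eo F col) (i : ℕ) (hi : i ≤ k) :
    (plus F col k).Adj (pos k e i) (pos k e (i + 1)) :=
  (fromRel_adj _ _ _).2 ⟨fun h => Fun_colp_ne hp k e i hi (congrArg _ h),
    .inl (.inl ⟨e, i, hi, rfl, rfl⟩)⟩

theorem Fun_adj_apex (k : ℕ) (w : W) :
    (plus F col k).Adj (.inl w) (.inr (.inr (col w))) :=
  (fromRel_adj _ _ _).2 ⟨Sum.inl_ne_inr, .inl (.inr ⟨w, rfl, rfl⟩)⟩

/-- Case analysis on an edge of the new graph. -/
theorem Fun_cases {k : ℕ} {P : Pv F col k → Pv F col k → Prop} (hs : ∀ x y, P x y → P y x)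
    (h1 : ∀ e i, i ≤ k → P (pos k e i) (pos k e (i + 1)))
    (h2 : ∀ w, P (.inl w) (.inr (.inr (col w)))) (x y : Pv F col k)
    (h : (plus F col k).Adj x y) : P x y := by
  obtain ⟨-, h | h⟩ := (fromRel_adj _ _ _).1 h
  · rcases h with ⟨e, i, hi, rfl, rfl⟩ | ⟨w, rfl, rfl⟩
    · exact h1 e i hi
    · exact h2 w
  · rcases h with ⟨e, i, hi, rfl, rfl⟩ | ⟨w, rfl, rfl⟩
    · exact hs _ _ (h1 e i hi)
    · exact hs _ _ (h2 w)

theorem prp_plus (hp : Prp F col) (k : ℕ) : Prp (plus F col k) (colp F col k) :=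
  Fun_cases (P := fun x y => colp F col k x ≠ colp F col k y) (fun _ _ h => h.symm)
    (Fun_colp_ne hp k) (Fun_colp_apex k)

theorem Fun_exists_col (hp : Prp F col) (hne : Nonempty W) (hiso : ∀ w, ∃ w', F.Adj w w')
    (b : Bool) : ∃ w, col w = b := by
  obtain ⟨w⟩ := hne
  obtain ⟨w', h⟩ := hiso w
  have := hp _ _ h
  by_cases hb : col w = b
  · exact ⟨w, hb⟩
  · refine ⟨w', ?_⟩
    revert this hb
    cases col w <;> cases col w' <;> cases b <;> simp

theorem iso_plus (hp : Prp F col) (hne : Nonempty W) (hiso : ∀ w, ∃ w', F.Adj w w') (k : ℕ)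
    (x : Pv F col k) : ∃ y, (plus F col k).Adj x y := by
  rcases x with w | ⟨e, i⟩ | b
  · exact ⟨_, Fun_adj_apex k w⟩
  · rw [← pos_mid]
    exact ⟨_, Fun_adj_pos hp k e (i + 1) i.2⟩
  · obtain ⟨w, rfl⟩ := Fun_exists_col hp hne hiso b
    exact ⟨_, (Fun_adj_apex k w).symm⟩

theorem Fun_reach_pos (hp : Prp F col) (k : ℕ) (e : Eo F col) (i : ℕ) (hi : i ≤ k + 1) :
    (plus F col k).Reachable (.inr (.inr false)) (pos k e i) := by
  induction i with
  | zero =>
    rw [pos_zero]
    have := (Fun_adj_apex (F := F) (col := col) k e.1.1).symm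
    rw [e.2.2] at this
    exact this.reachable
  | succ i ih => exact (ih (by omega)).trans (Fun_adj_pos hp k e i (by omega)).reachable

theorem Fun_reach_inl (hp : Prp F col) (hiso : ∀ w, ∃ w', F.Adj w w') (k : ℕ) (w : W) :
    (plus F col k).Reachable (.inr (.inr false)) (.inl w) := by
  obtain ⟨w', h⟩ := hiso w
  cases hc : col w
  · have := Fun_reach_pos hp k ⟨(w, w'), h, hc⟩ 0 (by omega)
    rwa [pos_zero] at this
  · have h2 : col w' = false := by
      have := hp _ _ h
      rw [hc] at this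
      cases hc' : col w'
      · rfl
      · exact absurd hc'.symm this
    have := Fun_reach_pos hp k ⟨(w', w), h.symm, h2⟩ (k + 1) le_rfl
    rwa [pos_last] at this

theorem conn_plus (hp : Prp F col) (hne : Nonempty W) (hiso : ∀ w, ∃ w', F.Adj w w') (k : ℕ) :
    (plus F col k).Connected := by
  refine (connected_iff_exists_forall_reachable _).2 ⟨.inr (.inr false), fun x => ?_⟩
  rcases x with w | ⟨e, i⟩ | b
  · exact Fun_reach_inl hp hiso k w
  · rw [← pos_mid]
    exact Fun_reach_pos hp k e _ (by have := i.2; omega)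
  · obtain ⟨w, hw⟩ := Fun_exists_col hp hne hiso b
    have := Fun_adj_apex (F := F) (col := col) k w
    rw [hw] at this
    exact (Fun_reach_inl hp hiso k w).trans this.reachable

section map

variable {U : Type} {H : SimpleGraph U} {cH : U → Bool}

/-- The action of a copy on oriented edges. -/
def Fun_em (f : F.Copy H) (hc : ∀ w, cH (f w) = col w) (e : Eo F col) : Eo H cH :=
  ⟨(f e.1.1, f e.1.2), f.toHom.map_adj e.2.1, (hc _).trans e.2.2⟩

theorem Fun_em_inj (f : F.Copy H) (hc : ∀ w, cH (f w) = col w) :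
    Function.Injective (Fun_em f hc) := fun _ _ h =>
  Subtype.ext (Prod.ext (f.injective (congrArg (fun e => e.1.1) h))
    (f.injective (congrArg (fun e => e.1.2) h)))

/-- The action of a copy on the vertices of the new graph. -/
def Fun_vm (f : F.Copy H) (hc : ∀ w, cH (f w) = col w) (k : ℕ) : Pv F col k → Pv H cH k :=
  Sum.map f (Sum.map (Prod.map (Fun_em f hc) id) id)

theorem Fun_vm_pos (f : F.Copy H) (hc : ∀ w, cH (f w) = col w) (k : ℕ) (e : Eo F col) (i : ℕ) :
    Fun_vm f hc k (pos k e i) = pos k (Fun_em f hc e) i := by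
  unfold pos
  split_ifs <;> rfl

theorem Fun_vm_inj (f : F.Copy H) (hc : ∀ w, cH (f w) = col w) (k : ℕ) :
    Function.Injective (Fun_vm f hc k) :=
  Sum.map_injective.2 ⟨f.injective, Sum.map_injective.2
    ⟨(Fun_em_inj f hc).prodMap Function.injective_id, Function.injective_id⟩⟩

/-- The copy of the new graph. -/
def Fun_cp (f : F.Copy H) (hc : ∀ w, cH (f w) = col w) (hp : Prp H cH) (k : ℕ) :
    (plus F col k).Copy (plus H cH k) :=
  ⟨⟨Fun_vm f hc k, fun {x y} h =>
    Fun_cases (P := fun x y => (plus H cH k).Adj (Fun_vm f hc k x) (Fun_vm f hc k y))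
      (fun _ _ h => h.symm)
      (fun e i hi => by
        rw [Fun_vm_pos, Fun_vm_pos]
        exact Fun_adj_pos hp k _ i hi)
      (fun w => by
        have := Fun_adj_apex (F := H) (col := cH) k (f w)
        rw [hc] at this
        exact this) x y h⟩, Fun_vm_inj f hc k⟩

theorem Fun_cp_apply (f : F.Copy H) (hc : ∀ w, cH (f w) = col w) (hp : Prp H cH) (k : ℕ)
    (x : Pv F col k) : Fun_cp f hc hp k x = Fun_vm f hc k x := rfl

end map

theorem pow_plus {U : Type} {H : SimpleGraph U} {cH : U → Bool} {R : W → Prop} {p : ℕ}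
    (hp1 : 1 ≤ p) {φ : Fin p → F.Copy H} (h : Pow F R H φ) (hp : Prp H cH)
    (hc : ∀ i w, cH (φ i w) = col w) (k : ℕ) :
    ∃ ψ : Fin p → (plus F col k).Copy (plus H cH k),
      Pow (plus F col k) (rtp F col k R) (plus H cH k) ψ ∧
        ∀ i x, colp H cH k (ψ i x) = colp F col k x := by
  have hF : Prp F col := fun u v huv => by
    rw [← hc ⟨0, hp1⟩ u, ← hc ⟨0, hp1⟩ v]
    exact hp _ _ ((φ ⟨0, hp1⟩).toHom.map_adj huv)
  have he : ∀ e' : Eo H cH, ∃ i e, Fun_em (φ i) (hc i) e = e' := fun e' => by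
    obtain ⟨i, w, w', h1, h2, h3⟩ := h.edge _ _ e'.2.1
    exact ⟨i, ⟨(w, w'), h1, by rw [← hc i w, h2]; exact e'.2.2⟩, Subtype.ext (Prod.ext h2 h3)⟩
  refine ⟨fun i => Fun_cp (φ i) (hc i) hp k, ⟨fun i j hij => h.inj (Copy.ext fun w => ?_),
    fun i j x hx => ?_, fun u => ?_, ?_⟩, fun i x => ?_⟩
  · exact Sum.inl_injective (congrArg (fun g : (plus F col k).Copy (plus H cH k) => g (.inl w)) hij)
  · rcases x with w | ⟨e, t⟩ | b
    · exact congrArg Sum.inl (h.root i j w hx)
    · have : Fun_em (φ i) (hc i) e = Fun_em (φ j) (hc j) e :=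
        Subtype.ext (Prod.ext (h.root i j _ hx.1) (h.root i j _ hx.2))
      exact congrArg (fun e' => (Sum.inr (Sum.inl (e', t)) : Pv H cH k)) this
    · rfl
  · rcases u with u | ⟨e', t⟩ | b
    · obtain ⟨i, w, rfl⟩ := h.vtx u
      exact ⟨i, .inl w, rfl⟩
    · obtain ⟨i, e, rfl⟩ := he e'
      exact ⟨i, .inr (.inl (e, t)), rfl⟩
    · exact ⟨⟨0, hp1⟩, .inr (.inr b), rfl⟩
  · refine Fun_cases (P := fun u v => ∃ i w w', (plus F col k).Adj w w' ∧
      Fun_cp (φ i) (hc i) hp k w = u ∧ Fun_cp (φ i) (hc i) hp k w' = v) ?_ ?_ ?_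
    · rintro x y ⟨i, w, w', h1, h2, h3⟩
      exact ⟨i, w', w, h1.symm, h3, h2⟩
    · intro e' t ht
      obtain ⟨i, e, rfl⟩ := he e'
      exact ⟨i, _, _, Fun_adj_pos hF k e t ht, Fun_vm_pos _ _ _ _ _, Fun_vm_pos _ _ _ _ _⟩
    · intro u
      obtain ⟨i, w, rfl⟩ := h.vtx u
      exact ⟨i, _, _, Fun_adj_apex k w, rfl, by rw [hc]; rfl⟩
  · rcases x with w | ⟨e, t⟩ | b
    · exact congrArg (fun c => c && (k + 1).bodd) (hc i w)
    · rfl
    · rfl

/-- The star with `p` leaves. -/
def Fun_star (p : ℕ) : SimpleGraph (Option (Fin p)) where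
  Adj u v := u.isSome ≠ v.isSome
  symm := ⟨fun _ _ h => h.symm⟩
  loopless := ⟨fun _ h => h rfl⟩

/-- One edge of the star. -/
def Fun_leaf {p : ℕ} (i : Fin p) : (⊤ : SimpleGraph Bool).Copy (Fun_star p) :=
  ⟨⟨fun b => bif b then some i else none, fun {a b} h => by
    cases a <;> cases b <;> simp_all [Fun_star]⟩, fun a b h => by
    cases a <;> cases b <;> simp_all⟩

theorem Fun_star_ex (p n : ℕ) : extremalNumber n (Fun_star p) ≤ p * n := by
  conv_lhs => rw [← Fintype.card_fin n]
  refine (extremalNumber_le_iff _ _).2 fun G _ hG => ?_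
  have hd : ∀ v, G.degree v ≤ p := fun v => by
    by_contra hv
    have h1 : Fintype.card (Fin p) ≤ (G.neighborFinset v).card := by
      rw [Fintype.card_fin, card_neighborFinset_eq_degree]; omega
    obtain ⟨f, hf⟩ := Function.Embedding.exists_of_card_le_finset h1
    have h2 : ∀ i, G.Adj v (f i) := fun i =>
      (mem_neighborFinset _ _ _).1 (hf ⟨i, rfl⟩)
    refine hG ⟨⟨⟨fun u => u.elim v f, fun {a b} h => ?_⟩, fun a b h => ?_⟩⟩
    · cases a <;> cases b
      · exact absurd rfl h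
      · exact h2 _
      · exact (h2 _).symm
      · exact absurd rfl h
    · cases a <;> cases b
      · rfl
      · exact absurd h (h2 _).ne
      · exact absurd h (h2 _).ne'
      · exact congrArg some (f.injective h)
  have h3 := G.sum_degrees_eq_twice_card_edges
  have h4 : ∑ v, G.degree v ≤ n * p := by
    simpa using Finset.sum_le_card_nsmul univ _ p fun v _ => hd v
  rw [mul_comm] at h4
  omega

theorem inv_base (a : ℕ) (ha : 0 < a) :
    Inv a a (⊤ : SimpleGraph Bool) (fun w => w = false) id := by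
  refine ⟨⟨true⟩, fun u v h => h.ne, fun w => ⟨!w, by cases w <;> simp⟩, fun S hS => ?_,
    fun p hp => ⟨Option (Fin p), inferInstance, Fun_star p, Option.isSome, Fun_leaf,
      ⟨fun i j h => ?_, fun i j w hw => ?_, fun u => ?_, fun u v h => ?_⟩, fun u v h => h,
      fun i w => ?_, ?_, p, fun n => ?_⟩⟩
  · refine Nat.mul_le_mul_left a ?_
    refine Finset.card_le_card_of_injOn (fun w => (false, w)) (fun w hw => ?_)
      fun _ _ _ _ h => (Prod.ext_iff.1 h).2
    have := hS w hw
    simp only [Ed, coe_filter, mem_univ, true_and, Set.mem_ofPred_eq, top_adj, id]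
    exact ⟨fun h => this h.symm, .inr hw⟩
  · exact Option.some_injective _
      (congrArg (fun g : (⊤ : SimpleGraph Bool).Copy (Fun_star p) => g true) h)
  · subst hw
    rfl
  · cases u with
    | none => exact ⟨⟨0, hp⟩, false, rfl⟩
    | some i => exact ⟨i, true, rfl⟩
  · cases u <;> cases v
    · exact absurd rfl h
    · exact ⟨_, false, true, by simp, rfl, rfl⟩
    · exact ⟨_, true, false, by simp, rfl, rfl⟩
    · exact absurd rfl h
  · cases w <;> rfl
  · refine (connected_iff_exists_forall_reachable _).2 ⟨none, fun u => ?_⟩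
    cases u with
    | none => rfl
    | some i => exact Adj.reachable (by simp [Fun_star])
  · have h1 : (2 : ℝ) - (a : ℝ) / a = 1 := by
      rw [div_self (by exact_mod_cast ha.ne')]
      norm_num
    rw [h1, Real.rpow_one]
    exact_mod_cast Fun_star_ex p n

end Pool.Agent.Lib.MP_befe0b_co.RX
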