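import Pool.Agent.Lib.MP_befe0b_co.RX.Defs

/-! Embedding the subdivision with two apexes. -/

open Finset SimpleGraph
open scoped Classical

noncomputable section

namespace Pool.Agent.Lib.MP_befe0b_co.RX

open Pool.Agent.Lib.MP_befe0b_co.BC

variable {V : Type} [Fintype V] {G : SimpleGraph V}

variable {W : Type} {H : SimpleGraph W} {col : W → Bool} {k : ℕ}

omit [Fintype V] in
/-- The map on the vertices of the new graph. -/
def Greedy_map (k : ℕ) (f : W → V) (r : Bool → V) (P : Eo H col → ℕ → V) : Pv H col k → V :=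
  Sum.elim f (Sum.elim (fun y => P y.1 (y.2.val + 1)) r)

omit [Fintype V] in
theorem plus_of_paths (f : W → V) (r : Bool → V) (P : Eo H col → ℕ → V)
    (hf : Function.Injective f) (hr : r false ≠ r true) (hfr : ∀ w, G.Adj (f w) (r (col w)))
    (hne : ∀ w b, f w ≠ r b) (h0 : ∀ e, P e 0 = f e.1.1) (h1 : ∀ e, P e (k + 1) = f e.1.2)
    (hP : ∀ e, ∀ t ≤ k, G.Adj (P e t) (P e (t + 1)))
    (hav : ∀ e t, 1 ≤ t → t ≤ k → (∀ w, P e t ≠ f w) ∧ ∀ b, P e t ≠ r b)
    (hdj : ∀ e e' t t', 1 ≤ t → t ≤ k → 1 ≤ t' → t' ≤ k → P e t = P e' t' → e = e' ∧ t = t') :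
    plus H col k ⊑ G := by
  have hpos : ∀ e i, i ≤ k + 1 → Greedy_map k f r P (pos k e i) = P e i := by
    intro e i hi
    rcases Nat.eq_zero_or_pos i with rfl | h
    · rw [pos_zero, h0]; rfl
    · rcases Nat.eq_or_lt_of_le hi with rfl | h'
      · rw [pos_last, h1]; rfl
      · obtain ⟨i, rfl⟩ : ∃ i', i = i' + 1 := ⟨i - 1, by omega⟩
        have := pos_mid k e ⟨i, by omega⟩
        rw [show pos k e (i + 1) = _ from this]
        rfl
  have hrel : ∀ x y : Pv H col k, ((∃ e i, i ≤ k ∧ x = pos k e i ∧ y = pos k e (i + 1)) ∨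
      ∃ w, x = .inl w ∧ y = .inr (.inr (col w))) →
      G.Adj (Greedy_map k f r P x) (Greedy_map k f r P y) := by
    rintro x y (⟨e, i, hi, rfl, rfl⟩ | ⟨w, rfl, rfl⟩)
    · rw [hpos e i (by omega), hpos e (i + 1) (by omega)]
      exact hP e i hi
    · exact hfr w
  refine ⟨⟨⟨Greedy_map k f r P, fun {x y} h => ?_⟩, ?_⟩⟩
  · rcases ((SimpleGraph.fromRel_adj _ _ _).1 h).2 with h | h
    · exact hrel x y h
    · exact (hrel y x h).symm
  · rintro (w | ⟨e, i⟩ | b) (w' | ⟨e', i'⟩ | b') h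
    · exact congrArg Sum.inl (hf h)
    · exact absurd (Eq.symm h) ((hav e' (i'.val + 1) (by omega) i'.2).1 w)
    · exact absurd h (hne w b')
    · exact absurd h ((hav e (i.val + 1) (by omega) i.2).1 w')
    · obtain ⟨rfl, h2⟩ := hdj e e' (i.val + 1) (i'.val + 1) (by omega) i.2 (by omega) i'.2 h
      obtain rfl : i = i' := Fin.ext (by omega)
      rfl
    · exact absurd h ((hav e (i.val + 1) (by omega) i.2).2 b')
    · exact absurd (Eq.symm h) (hne w' b)
    · exact absurd (Eq.symm h) ((hav e' (i'.val + 1) (by omega) i'.2).2 b)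
    · have h' : r b = r b' := h
      cases b <;> cases b'
      · rfl
      · exact absurd h' hr
      · exact absurd h'.symm hr
      · rfl

theorem plus_of_links [Fintype W] (f : W → V) (r : Bool → V)
    (hf : Function.Injective f) (hr : r false ≠ r true) (hfr : ∀ w, G.Adj (f w) (r (col w)))
    (hne : ∀ w b, f w ≠ r b) {q : ℕ} (hq : Fintype.card (Pv H col k) ≤ q)
    (hL : ∀ e : Eo H col, Lk G (k + 1) q (f e.1.1) (f e.1.2)) : plus H col k ⊑ G := by
  have key : ∀ s : Finset (Eo H col), ∃ P : Eo H col → ℕ → V,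
      (∀ e ∈ s, P e 0 = f e.1.1 ∧ P e (k + 1) = f e.1.2 ∧
        (∀ t ≤ k, G.Adj (P e t) (P e (t + 1))) ∧
        ∀ t, 1 ≤ t → t ≤ k → (∀ w, P e t ≠ f w) ∧ ∀ b, P e t ≠ r b) ∧
      ∀ e ∈ s, ∀ e' ∈ s, ∀ t t', 1 ≤ t → t ≤ k → 1 ≤ t' → t' ≤ k → P e t = P e' t' →
        e = e' ∧ t = t' := by
    intro s
    induction s using Finset.induction_on with
    | empty => exact ⟨fun _ _ => r true, by simp, by simp⟩
    | insert e0 s he0 ih =>
      obtain ⟨P, hA, hB⟩ := ih
      obtain ⟨y, y0, y1, yA, yI, yQ⟩ := hL e0 (univ.image (Greedy_map k f r P))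
        (card_image_le.trans (by rw [card_univ]; exact hq))
      have yN : ∀ t, 1 ≤ t → t ≤ k → ∀ x, y t ≠ Greedy_map k f r P x := fun t h1 h2 x h =>
        yQ t h1 (by omega) (mem_image.2 ⟨x, mem_univ _, h.symm⟩)
      have yP : ∀ t, 1 ≤ t → t ≤ k → ∀ e t', 1 ≤ t' → t' ≤ k → y t ≠ P e t' := by
        intro t h1 h2 e t' h3 h4
        obtain ⟨i, rfl⟩ : ∃ i, t' = i + 1 := ⟨t' - 1, by omega⟩
        exact yN t h1 h2 (.inr (.inl (e, ⟨i, by omega⟩)))
      have u0 : Function.update P e0 y e0 = y := Function.update_self ..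
      have u1 : ∀ e ∈ s, Function.update P e0 y e = P e := fun e he =>
        Function.update_of_ne (fun h : e = e0 => he0 (h ▸ he)) ..
      refine ⟨Function.update P e0 y, fun e he => ?_, fun e he e' he' t t' a1 a2 a3 a4 => ?_⟩
      · rcases mem_insert.1 he with rfl | he
        · rw [u0]
          exact ⟨y0, y1, fun t ht => yA t (by omega), fun t h1 h2 =>
            ⟨fun w => yN t h1 h2 (.inl w), fun b => yN t h1 h2 (.inr (.inr b))⟩⟩
        · rw [u1 e he]
          exact hA e he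
      · rcases mem_insert.1 he with c | c <;> rcases mem_insert.1 he' with c' | c'
        · rw [c, c', u0]
          exact fun h => ⟨rfl, yI (Set.mem_Iic.2 (by omega)) (Set.mem_Iic.2 (by omega)) h⟩
        · rw [c, u0, u1 e' c']
          exact fun h => absurd h (yP t a1 a2 e' t' a3 a4)
        · rw [c', u0, u1 e c]
          exact fun h => absurd h.symm (yP t' a3 a4 e t a1 a2)
        · rw [u1 e c, u1 e' c']
          exact hB e c e' c' t t' a1 a2 a3 a4
  obtain ⟨P, hA, hB⟩ := key univ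
  exact plus_of_paths f r P hf hr hfr hne (fun e => (hA e (mem_univ _)).1)
    (fun e => (hA e (mem_univ _)).2.1) (fun e => (hA e (mem_univ _)).2.2.1)
    (fun e => (hA e (mem_univ _)).2.2.2) (fun e e' => hB e (mem_univ _) e' (mem_univ _))

omit [Fintype V] in
theorem Greedy_step {l q : ℕ} {a b : V} (hab : a ≠ b) {S : Finset V} (hd : q + 2 ≤ dg G S a)
    (hS : ∀ x ∈ S, x ≠ b → Lk G l (q + 1) x b) : Lk G (l + 1) q a b := by
  intro Q hQ
  obtain ⟨x, hx, hxQ⟩ : ∃ x ∈ S.filter (G.Adj a), x ∉ insert b Q :=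
    exists_mem_notMem_of_card_lt_card
      (lt_of_le_of_lt (card_insert_le _ _) (by unfold dg at hd; omega))
  rw [mem_insert, not_or] at hxQ
  obtain ⟨hxS, hax⟩ := mem_filter.1 hx
  obtain ⟨y, y0, y1, yA, yI, yQ⟩ := hS x hxS hxQ.1 (insert a Q)
    ((card_insert_le _ _).trans (by omega))
  have hy : ∀ t ≤ l, a ≠ y t := by
    intro t ht h
    rcases Nat.eq_zero_or_pos t with rfl | h0
    · exact hax.ne (h.trans y0)
    · rcases Nat.eq_or_lt_of_le ht with rfl | h1
      · exact hab (h.trans y1)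
      · exact yQ t h0 h1 (h ▸ mem_insert_self _ _)
  refine ⟨fun t => Nat.casesOn t a y, rfl, y1, ?_, ?_, ?_⟩
  · rintro (_ | t) ht
    · show G.Adj a (y 0)
      rw [y0]
      exact hax
    · exact yA t (by omega)
  · rintro (_ | t) ht (_ | t') ht' h
    · rfl
    · exact absurd h (hy t' (by have := Set.mem_Iic.1 ht'; omega))
    · exact absurd h.symm (hy t (by have := Set.mem_Iic.1 ht; omega))
    · have a1 := Set.mem_Iic.1 ht
      have a2 := Set.mem_Iic.1 ht'
      exact congrArg (· + 1) (yI (Set.mem_Iic.2 (by omega)) (Set.mem_Iic.2 (by omega)) h)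
  · rintro (_ | t) h1 h2
    · omega
    · show y t ∉ Q
      rcases Nat.eq_zero_or_pos t with rfl | h0
      · rw [y0]
        exact hxQ.2
      · exact fun h => yQ t h0 (by omega) (mem_insert_of_mem h)

omit [Fintype V] in
theorem Greedy_chain {T l : ℕ} (hT : 1 ≤ T) {Bs X Y : Finset V} (hX : X.Nonempty)
    (hXY : ∀ x ∈ X, T ≤ dg G Y x) (hYX : ∀ y ∈ Y, T ≤ dg G X y)
    (hL : ∀ x ∈ X, ∀ b ∈ Bs, Lk G l T x b) (m : ℕ) :
    ∃ X' Y' : Finset V, X'.Nonempty ∧ (∀ x ∈ X', T ≤ dg G Y' x) ∧ (∀ y ∈ Y', T ≤ dg G X' y) ∧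
      ∀ q, q + m + 2 ≤ T → ∀ a ∈ X', ∀ b ∈ Bs, a ≠ b → Lk G (l + m) q a b := by
  induction m with
  | zero =>
    exact ⟨X, Y, hX, hXY, hYX, fun q hq a ha b hb _ Q hQ => hL a ha b hb Q (by omega)⟩
  | succ m ih =>
    obtain ⟨X', Y', ⟨x, hx⟩, h1, h2, h3⟩ := ih
    refine ⟨Y', X', card_pos.1 (lt_of_lt_of_le hT ((h1 x hx).trans (dg_le_card _ _))), h2, h1,
      fun q hq a ha b hb hab => ?_⟩
    exact Greedy_step hab (le_trans (by omega) (h2 a ha))
      fun x hx hxb => h3 (q + 1) (by omega) x hx b hb hxb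

/-- A core of large minimum degree, linked to many neighbours of one vertex. -/
theorem core_embed [Fintype W] (H : SimpleGraph W) (col : W → Bool) (hp : Prp H col) (k : ℕ) :
    ∃ T : ℕ, ∀ j ≤ k, ∀ (V : Type) [Fintype V] (G : SimpleGraph V) (z : V) (Bs X Y : Finset V),
      Bs ⊆ nb G z → T ≤ Bs.card → X.Nonempty → (∀ x ∈ X, T ≤ dg G Y x) →
      (∀ y ∈ Y, T ≤ dg G X y) → (∀ x ∈ X, ∀ b ∈ Bs, Lk G (j + 1) T x b) →
      plus H col k ⊑ G := by
  refine ⟨Fintype.card (Pv H col k) + 2 * Fintype.card W + k + 2, ?_⟩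
  intro j hj V _ G z Bs X Y hBz hB hX hXY hYX hL
  obtain ⟨X', Y', ⟨x, hx⟩, h1, h2, h3⟩ := Greedy_chain (by omega) hX hXY hYX hL (k - j)
  obtain ⟨fB, hfB⟩ := Function.Embedding.exists_of_card_le_finset (α := W) (s := Bs) (by omega)
  have hB' : ∀ w, fB w ∈ Bs := fun w => hfB ⟨w, rfl⟩
  have hZ : (insert z (univ.image fB)).card ≤ Fintype.card W + 1 :=
    (card_insert_le _ _).trans (Nat.succ_le_succ (card_image_le.trans (by rw [card_univ])))
  obtain ⟨r1, hr1, hr1Z⟩ : ∃ r1 ∈ Y', r1 ∉ insert z (univ.image fB) :=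
    exists_mem_notMem_of_card_lt_card
      (lt_of_lt_of_le (by omega) ((h1 x hx).trans (dg_le_card _ _)))
  obtain ⟨fA, hfA⟩ := Function.Embedding.exists_of_card_le_finset (α := W)
    (s := X'.filter (G.Adj r1) \ insert z (univ.image fB)) (by
      have a1 := h2 r1 hr1
      have a2 := le_card_sdiff (insert z (univ.image fB)) (X'.filter (G.Adj r1))
      unfold dg at a1
      omega)
  have hA' : ∀ w, (fA w ∈ X' ∧ G.Adj r1 (fA w)) ∧ fA w ∉ insert z (univ.image fB) := fun w => by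
    have := mem_sdiff.1 (mem_coe.1 (hfA ⟨w, rfl⟩))
    exact ⟨mem_filter.1 this.1, this.2⟩
  have hin : ∀ w, fB w ∈ insert z (univ.image fB) := fun w =>
    mem_insert_of_mem (mem_image_of_mem _ (mem_univ w))
  have hAB : ∀ w w', fA w ≠ fB w' := fun w w' h => (hA' w).2 (h ▸ hin w')
  have hzB : ∀ w, G.Adj z (fB w) := fun w => mem_nb.1 (hBz (hB' w))
  refine plus_of_links (fun w => cond (col w) (fB w) (fA w)) (fun b => cond b z r1) ?_ ?_ ?_ ?_
    le_rfl ?_
  · intro w w' h
    dsimp only at h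
    cases h1 : col w <;> cases h2 : col w' <;> rw [h1, h2] at h
    · exact fA.injective h
    · exact absurd h (hAB w w')
    · exact absurd h.symm (hAB w' w)
    · exact fB.injective h
  · exact fun h => hr1Z (by rw [show r1 = z from h]; exact mem_insert_self _ _)
  · intro w
    cases col w
    · exact (hA' w).1.2.symm
    · exact (hzB w).symm
  · intro w b
    cases col w <;> cases b
    · exact (hA' w).1.2.ne'
    · exact fun h => (hA' w).2 (by rw [show fA w = z from h]; exact mem_insert_self _ _)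
    · exact fun h => hr1Z (by rw [← show fB w = r1 from h]; exact hin w)
    · exact (hzB w).ne'
  · rintro ⟨⟨u, v⟩, huv, hu⟩
    have hu' : col u = false := hu
    have hv : col v = true := by
      have := hp u v huv
      rw [hu'] at this
      cases h : col v
      · exact absurd h.symm this
      · rfl
    dsimp only
    rw [hu', hv, show k + 1 = j + 1 + (k - j) by omega]
    exact h3 _ (by omega) _ (hA' u).1.1 _ (hB' v) (hAB u v)

end Pool.Agent.Lib.MP_befe0b_co.RX
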