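import Pool.Agent.Lib.MP_befe0b_co.RX.Cnt

/-! Many heavy walks give a core. -/

open Finset SimpleGraph
open scoped Classical

noncomputable section

namespace Pool.Agent.Lib.MP_befe0b_co.RX

open Pool.Agent.Lib.MP_befe0b_co.BC

variable {V : Type} [Fintype V] {G : SimpleGraph V}

omit [Fintype V] in
theorem rel_core (X Y : Finset V) (T : ℕ) (h : T * (X.card + Y.card) < ∑ x ∈ X, dg G Y x) :
    ∃ X' ⊆ X, ∃ Y' ⊆ Y, X'.Nonempty ∧ (∀ x ∈ X', T ≤ dg G Y' x) ∧ ∀ y ∈ Y', T ≤ dg G X' y := by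
  induction hn : X.card + Y.card using Nat.strong_induction_on generalizing X Y with
  | _ n ih =>
    subst hn
    by_cases hx : ∃ x ∈ X, dg G Y x < T
    · obtain ⟨x, hx, hlt⟩ := hx
      have h1 := card_erase_add_one hx
      have h2 := add_sum_erase X (dg G Y) hx
      have h3 : T * ((X.erase x).card + Y.card) < ∑ x ∈ X.erase x, dg G Y x := by
        have e : T * (X.card + Y.card) = T * ((X.erase x).card + Y.card) + T := by
          rw [← h1]; ring
        omega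
      obtain ⟨X', hX', Y', hY', h'⟩ := ih _ (by omega) (X.erase x) Y h3 rfl
      exact ⟨X', hX'.trans (erase_subset _ _), Y', hY', h'⟩
    by_cases hy : ∃ y ∈ Y, dg G X y < T
    · obtain ⟨y, hy, hlt⟩ := hy
      have h1 := card_erase_add_one hy
      have h2 := add_sum_erase Y (dg G X) hy
      have h3 : T * (X.card + (Y.erase y).card) < ∑ x ∈ X, dg G (Y.erase y) x := by
        have e : T * (X.card + Y.card) = T * (X.card + (Y.erase y).card) + T := by
          rw [← h1]; ring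
        rw [sum_dg_comm] at h ⊢
        omega
      obtain ⟨X', hX', Y', hY', h'⟩ := ih _ (by omega) X (Y.erase y) h3 rfl
      exact ⟨X', hX', Y', hY'.trans (erase_subset _ _), h'⟩
    refine ⟨X, Subset.rfl, Y, Subset.rfl, ?_, fun x h' => not_lt.1 fun h'' => hx ⟨x, h', h''⟩,
      fun y h' => not_lt.1 fun h'' => hy ⟨y, h', h''⟩⟩
    rcases X.eq_empty_or_nonempty with rfl | hne
    · simp at h
    · exact hne

theorem heavy_greedy {α : Type} (X N : Finset α) (h : α → α → Prop) {γ D : ℝ} {T : ℕ}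
    (hγ : 0 < γ) (hN : (N.card : ℝ) ≤ D) (hT : (T : ℝ) < γ * D) (hne : X.Nonempty)
    (hX : ∀ x ∈ X, 2 * (γ * D) ≤ (N.filter (h x)).card) (t : ℕ) (ht : t ≤ T) :
    ∃ Bs ⊆ N, Bs.card = t ∧ ∃ X' ⊆ X, γ ^ t * X.card ≤ X'.card ∧ ∀ x ∈ X', ∀ b ∈ Bs, h x b := by
  induction t with
  | zero => exact ⟨∅, empty_subset _, rfl, X, Subset.rfl, by simp, by simp⟩
  | succ t ih =>
    obtain ⟨Bs, hBs, hc, X', hX', hcard, hall⟩ := ih (by omega)
    have htT : (t : ℝ) ≤ T := by exact_mod_cast (by omega : t ≤ T)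
    have hdeg : ∀ x ∈ X, γ * D ≤ (((N \ Bs).filter (h x)).card : ℝ) := fun x hx => by
      have h1 : (N.filter (h x)).card ≤ ((N \ Bs).filter (h x)).card + Bs.card := by
        refine le_trans (card_le_card fun b hb => ?_) (card_union_le _ _)
        by_cases hb' : b ∈ Bs
        · exact mem_union_right _ hb'
        · exact mem_union_left _ (mem_filter.2
            ⟨mem_sdiff.2 ⟨(mem_filter.1 hb).1, hb'⟩, (mem_filter.1 hb).2⟩)
      have h2 : ((N.filter (h x)).card : ℝ) ≤ ((N \ Bs).filter (h x)).card + Bs.card := by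
        exact_mod_cast h1
      have h3 := hX x hx
      rw [hc] at h2
      linarith
    have hne' : (N \ Bs).Nonempty := by
      obtain ⟨x, hx⟩ := hne
      have h0 : (0 : ℝ) ≤ T := Nat.cast_nonneg _
      obtain ⟨b, hb⟩ := card_pos.1 (Nat.cast_pos.1 ((h0.trans_lt hT).trans_le (hdeg x hx)))
      exact ⟨b, (mem_filter.1 hb).1⟩
    have hsum : ∑ _b ∈ N \ Bs, γ * (X'.card : ℝ) ≤
        ∑ b ∈ N \ Bs, ((X'.filter fun x => h x b).card : ℝ) := by
      have e : ∑ b ∈ N \ Bs, (X'.filter fun x => h x b).card =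
          ∑ x ∈ X', ((N \ Bs).filter (h x)).card := by
        simp only [card_filter]
        exact sum_comm
      rw [← Nat.cast_sum, e, Nat.cast_sum, sum_const, nsmul_eq_mul]
      have h1 : (((N \ Bs).card : ℕ) : ℝ) ≤ D :=
        (Nat.cast_le.2 (card_le_card sdiff_subset)).trans hN
      calc (((N \ Bs).card : ℕ) : ℝ) * (γ * X'.card) ≤ D * (γ * X'.card) := by gcongr
        _ = ∑ _x ∈ X', γ * D := by rw [sum_const, nsmul_eq_mul]; ring
        _ ≤ _ := sum_le_sum fun x hx => hdeg x (hX' hx)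
    obtain ⟨b, hb, hle⟩ := exists_le_of_sum_le hne' hsum
    refine ⟨insert b Bs, insert_subset (mem_sdiff.1 hb).1 hBs,
      by rw [card_insert_of_notMem (mem_sdiff.1 hb).2, hc], X'.filter fun x => h x b,
      (filter_subset _ _).trans hX', ?_, fun x hx b' hb' => ?_⟩
    · refine le_trans ?_ hle
      rw [pow_succ', mul_assoc]
      gcongr
    · rcases mem_insert.1 hb' with rfl | hb'
      · exact (mem_filter.1 hx).2
      · exact hall x (mem_filter.1 hx).1 b' hb'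

theorem kst_avg (T : ℕ) {δ : ℝ} (hδ : 0 < δ) : ∃ c D₀ : ℝ, 0 < c ∧
    ∀ (α : Type) (X N : Finset α) (h : α → α → Prop) (a D : ℝ), D₀ ≤ D → 0 < a →
      (X.card : ℝ) ≤ a → (N.card : ℝ) ≤ D →
      δ * a * D ≤ ((X ×ˢ N).filter fun y => h y.1 y.2).card →
      ∃ Bs ⊆ N, Bs.card = T ∧ c * a ≤ (X.filter fun x => ∀ b ∈ Bs, h x b).card := by
  refine ⟨(δ / 4) ^ T * (δ / 2), 4 * (T + 1) / δ, by positivity,
    fun α X N h a D hD ha hX hN hp => ?_⟩
  have hT : (T : ℝ) + 1 ≤ δ / 4 * D := by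
    rw [div_le_iff₀ hδ] at hD
    linarith
  have hT0 : (0 : ℝ) ≤ T := Nat.cast_nonneg _
  have hD0 : 0 < D := by
    by_contra h0
    have : δ / 4 * D ≤ 0 := mul_nonpos_of_nonneg_of_nonpos (by positivity) (not_lt.1 h0)
    linarith
  let X1 := X.filter fun x => 2 * (δ / 4 * D) ≤ ((N.filter (h x)).card : ℝ)
  have e : ((X ×ˢ N).filter fun y => h y.1 y.2).card = ∑ x ∈ X, (N.filter (h x)).card := by
    simp only [card_filter]
    exact sum_product _ _ _
  have h1 : ∑ x ∈ X, ((N.filter (h x)).card : ℝ) ≤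
      ∑ x ∈ X, (δ / 2 * D + if 2 * (δ / 4 * D) ≤ ((N.filter (h x)).card : ℝ) then D else 0) := by
    refine sum_le_sum fun x _ => ?_
    have h2 : ((N.filter (h x)).card : ℝ) ≤ D :=
      (Nat.cast_le.2 (card_le_card (filter_subset _ _))).trans hN
    have h3 : 0 ≤ δ / 2 * D := by positivity
    split_ifs with hc
    · linarith
    · linarith
  rw [sum_add_distrib, ← sum_filter, sum_const, sum_const, nsmul_eq_mul, nsmul_eq_mul] at h1
  rw [e, Nat.cast_sum] at hp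
  have h4 : (X.card : ℝ) * (δ / 2 * D) ≤ a * (δ / 2 * D) := by gcongr
  have h5 : δ / 2 * a ≤ X1.card := by
    refine le_of_mul_le_mul_right ?_ hD0
    change _ ≤ _ + (X1.card : ℝ) * D at h1
    linarith
  have hne : X1.Nonempty := card_pos.1 (Nat.cast_pos.1 ((by positivity : 0 < δ / 2 * a).trans_le h5))
  obtain ⟨Bs, hBs, hc, X', hX', hcard, hall⟩ := heavy_greedy X1 N h (γ := δ / 4) (T := T)
    (by positivity) hN (by linarith) hne (fun x hx => (mem_filter.1 hx).2) T le_rfl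
  refine ⟨Bs, hBs, hc, le_trans ?_ (hcard.trans (Nat.cast_le.2 (card_le_card fun x hx =>
    mem_filter.2 ⟨(mem_filter.1 (hX' hx)).1, hall x hx⟩)))⟩
  rw [mul_assoc]
  gcongr

theorem heavy_tr {j : ℕ} {x : ℕ → V} (hx : x ∈ Wk G (j + 1)) : tr j x ∈ Wk G j := by
  have h := win_mem (i := 0) (j := j) hx (by omega)
  have e : sh x 0 = x := funext fun t => by simp only [sh, zero_add]
  rwa [e] at h

theorem heavy_fib {M : ℕ → ℕ} (h0 : 1 ≤ M 0) {j : ℕ} (u z v : V) (S : Finset (ℕ → V))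
    (hS : ∀ y ∈ S, y ∈ Hw G M j ∧ y j = z ∧ y 0 = u ∧ y (j + 1) = v) : S.card ≤ M j := by
  refine le_trans ?_ (gd_card (G := G) h0 j u z (S.image (tr j)) fun y hy => ?_)
  · refine (card_image_of_injOn fun y hy y' hy' e => ?_).ge
    have hy1 := hS y (mem_coe.1 hy)
    have hy2 := hS y' (mem_coe.1 hy')
    refine Wk_ext (mem_Hw.1 hy1.1).1 (mem_Hw.1 hy2.1).1 fun t ht => ?_
    rcases Nat.lt_or_ge j t with h | h
    · obtain rfl : t = j + 1 := by omega
      exact hy1.2.2.2.trans hy2.2.2.2.symm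
    · have := congrFun e t
      simpa only [tr, min_eq_left h] using this
  · obtain ⟨w, hw, rfl⟩ := mem_image.1 hy
    have hw1 := hS w hw
    have hw3 := mem_Hw.1 hw1.1
    refine ⟨heavy_tr hw3.1, hw3.2.1.1.congr fun t ht => by simp only [tr, min_eq_left ht], ?_, ?_⟩
    · simpa only [tr, Nat.zero_min] using hw1.2.2.1
    · simpa only [tr, min_self] using hw1.2.1

theorem heavy_pairs {M : ℕ → ℕ} (h0 : 1 ≤ M 0) {j B : ℕ} (hB : M j ≤ B) (z : V)
    (P : Finset (V × V))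
    (hP : ∀ u ∈ St G j z, ∀ v ∈ nb G z, M (j + 1) < (Pa G M j u v).card → (u, v) ∈ P) :
    ((((Hw G M j).filter fun x => x j = z).card : ℕ) : ℝ) ≤ (B + 1) * P.card := by
  refine (card_le_mul_image _ (fun x => (x 0, x (j + 1))) (b := B + 1) fun x _ => ?_).trans ?_
  · refine le_trans (Nat.cast_le.2 (?_ : _ ≤ B)) (by linarith)
    refine (heavy_fib (G := G) h0 (x 0) z (x (j + 1)) _ fun y hy => ?_).trans hB
    have h1 := (@mem_filter _ _ (_) _ _).1 hy
    have h2 := mem_filter.1 h1.1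
    exact ⟨h2.1, h2.2, congrArg Prod.fst h1.2, congrArg Prod.snd h1.2⟩
  · refine mul_le_mul_of_nonneg_left (Nat.cast_le.2 (card_le_card fun p hp => ?_)) (by positivity)
    obtain ⟨w, hw, rfl⟩ := (@mem_image _ _ (_) _ _ _).1 hp
    have hw2 := mem_filter.1 hw
    have hw3 := mem_Hw.1 hw2.1
    refine hP _ (mem_image.2 ⟨tr j w, mem_filter.2 ⟨heavy_tr hw3.1, ?_⟩, ?_⟩) _
      (mem_filter.2 ⟨mem_univ _, ?_⟩) hw3.2.2
    · simpa only [tr, min_self] using hw2.2
    · simp only [tr, Nat.zero_min]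
    · rw [← hw2.2]
      exact (mem_Wk.1 hw3.1).2 j (by omega)

theorem heavy_core (k B T : ℕ) {K ε : ℝ} (hK : 1 ≤ K) (hε : 0 < ε) : ∃ (B' : ℕ) (d₀ : ℝ),
    ∀ (M : ℕ → ℕ) (j : ℕ), 1 ≤ M 0 → 1 ≤ j → j ≤ k → (∀ l ≤ j, M l ≤ B) → B' ≤ M (j + 1) →
      ∀ (V : Type) [Fintype V] (G : SimpleGraph V) (d : ℝ), Host G d (K * d) → d₀ ≤ d →
        ε * Fintype.card V * d ^ (j + 1) ≤ (Hw G M j).card →
        ∃ (z : V) (Bs X Y : Finset V), Bs ⊆ nb G z ∧ T ≤ Bs.card ∧ X.Nonempty ∧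
          (∀ x ∈ X, T ≤ dg G Y x) ∧ (∀ y ∈ Y, T ≤ dg G X y) ∧
          ∀ x ∈ X, ∀ b ∈ Bs, M (j + 1) < (Pa G M j x b).card := by
  have hK0 : 0 < K := by linarith
  obtain ⟨c, D₀, hc, hk⟩ := kst_avg (T + 1) (δ := ε / ((B + 1) * K ^ (k + 1))) (by positivity)
  refine ⟨B * (T * (1 + ⌈1 / c⌉₊)), max D₀ 1, fun M j h0 _ hjk hB hB' V _ G d hG hd hH => ?_⟩
  have hd1 : 1 ≤ d := (le_max_right _ _).trans hd
  have hd0 : 0 < d := by linarith
  have := hG.ne
  have hsum : ∑ _z : V, ε * d ^ (j + 1) ≤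
      ∑ z : V, ((((Hw G M j).filter fun x => x j = z).card : ℕ) : ℝ) := by
    rw [← Nat.cast_sum, ← card_eq_sum_card_fiberwise (f := fun x : ℕ → V => x j)
      fun _ _ => mem_coe.2 (mem_univ _), sum_const, nsmul_eq_mul, card_univ]
    linarith
  obtain ⟨z, -, hz⟩ := exists_le_of_sum_le univ_nonempty hsum
  have hKd : d ≤ K * d := le_mul_of_one_le_left hd0.le hK
  obtain ⟨Bs, hBs, hcB, hX⟩ := hk V (St G j z) (nb G z)
    (fun u v => M (j + 1) < (Pa G M j u v).card) ((K * d) ^ j) (K * d)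
    (((le_max_left _ _).trans hd).trans hKd) (by positivity) (st_card hG j z) (hG.hi z) (by
      refine le_of_mul_le_mul_left (le_trans ?_ (hz.trans (heavy_pairs h0 (hB j le_rfl) z _
        fun u hu v hv h => (@mem_filter _ _ (_) _ _).2 ⟨mem_product.2 ⟨hu, hv⟩, h⟩)))
        (by positivity : (0 : ℝ) < B + 1)
      have h1 : K ^ (j + 1) ≤ K ^ (k + 1) := pow_le_pow_right₀ hK (by omega)
      have e : ((B : ℝ) + 1) * (ε / ((B + 1) * K ^ (k + 1)) * (K * d) ^ j * (K * d)) =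
          ε * d ^ (j + 1) * (K ^ (j + 1) / K ^ (k + 1)) := by
        field_simp
        ring
      rw [e]
      exact mul_le_of_le_one_right (by positivity) (div_le_one_of_le₀ h1 (by positivity)))
  obtain ⟨X0, hX0, hall⟩ : ∃ X0 : Finset V, c * (K * d) ^ j ≤ X0.card ∧
      ∀ x ∈ X0, ∀ b ∈ Bs, M (j + 1) < (Pa G M j x b).card :=
    ⟨_, hX, fun x hx => ((@mem_filter _ _ (_) _ _).1 hx).2⟩
  obtain ⟨b0, hb0⟩ : Bs.Nonempty := card_pos.1 (by omega)
  have hpos : 0 < X0.card := Nat.cast_pos.1 ((by positivity : 0 < c * (K * d) ^ j).trans_le hX0)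
  have hY : (St G j b0).card ≤ ⌈1 / c⌉₊ * X0.card := by
    have h1 : ((St G j b0).card : ℝ) ≤ (⌈1 / c⌉₊ : ℝ) * X0.card :=
      calc ((St G j b0).card : ℝ) ≤ (K * d) ^ j := st_card hG j b0
        _ = 1 / c * (c * (K * d) ^ j) := by field_simp
        _ ≤ _ := mul_le_mul (Nat.le_ceil _) hX0 (by positivity) (Nat.cast_nonneg _)
    exact_mod_cast h1
  have hdg : ∀ x ∈ X0, T * (1 + ⌈1 / c⌉₊) + 1 ≤ dg G (St G j b0) x := fun x hx =>
    Nat.lt_of_mul_lt_mul_left (a := B)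
      ((hB'.trans_lt (hall x hx b0 hb0)).trans_le (heavy_nb h0 (hB j le_rfl) x b0))
  obtain ⟨X', hX', Y', -, hne, h1, h2⟩ := rel_core (G := G) X0 (St G j b0) T (by
    have h3 : X0.card * (T * (1 + ⌈1 / c⌉₊) + 1) ≤ ∑ x ∈ X0, dg G (St G j b0) x :=
      card_nsmul_le_sum X0 _ _ hdg
    have h4 : T * (X0.card + (St G j b0).card) ≤ T * (X0.card + ⌈1 / c⌉₊ * X0.card) := by gcongr
    have h5 : X0.card * (T * (1 + ⌈1 / c⌉₊) + 1) =
        T * (X0.card + ⌈1 / c⌉₊ * X0.card) + X0.card := by ring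
    omega)
  exact ⟨z, Bs, X', Y', hBs, by omega, hne, h1, h2, fun x hx => hall x (hX' hx)⟩

end Pool.Agent.Lib.MP_befe0b_co.RX
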