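import Pool.Agent.Lib.MP_befe0b_co.RX.Step
import Pool.Agent.Lib.MP_befe0b_co.RX.Bal
import Pool.Agent.Lib.MP_befe0b_co.RX.Fun

/-! Every rational density is reached. -/

open Finset SimpleGraph
open scoped Classical

noncomputable section

namespace Pool.Agent.Lib.MP_befe0b_co.RX

open Pool.Agent.Lib.MP_befe0b_co.BC

/-- A balanced rooted graph of density `b / a` whose disjoint powers have exponent at most
`2 - a / b`. -/
structure Inw {W : Type} [Fintype W] (a b : ℕ) (F : SimpleGraph W) (R : W → Prop)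
    (col : W → Bool) : Prop where
  ne : ∃ w, ¬ R w
  prp : Prp F col
  iso : ∀ w, ∃ w', F.Adj w w'
  bal : ∀ S : Finset W, (∀ w ∈ S, ¬ R w) → b * S.card ≤ a * (Ed F col S).card
  top : ∀ S : Finset W, (∀ w, w ∈ S ↔ ¬ R w) → a * (Ed F col S).card ≤ b * S.card
  pw : ∀ p, ∃ (U : Type) (_ : Fintype U) (H : SimpleGraph U) (cH : U → Bool)
    (φ : Fin (p + 1) → F.Copy H), (∀ i j w, R w → φ i w = φ j w) ∧
      (∀ i j w w', ¬ R w → φ i w = φ j w' → i = j) ∧ Prp H cH ∧ (∀ i w, cH (φ i w) = col w) ∧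
      H.Connected ∧ (∀ u, ∃ u', H.Adj u u') ∧ ∃ C : ℝ, ∀ n : ℕ,
        (extremalNumber n H : ℝ) ≤ C * (n : ℝ) ^ (2 - (a : ℝ) / b)

section map

variable {W U : Type} {F : SimpleGraph W} {col : W → Bool} {H : SimpleGraph U} {cH : U → Bool}

/-- The image of an oriented edge. -/
def indE (φ : F.Copy H) (hc : ∀ w, cH (φ w) = col w) (e : Eo F col) : Eo H cH :=
  ⟨(φ e.1.1, φ e.1.2), φ.toHom.map_rel e.2.1, (hc _).trans e.2.2⟩

/-- The map on vertices. -/
def indV (φ : F.Copy H) (hc : ∀ w, cH (φ w) = col w) (k : ℕ) : Pv F col k → Pv H cH k :=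
  Sum.map φ (Sum.map (Prod.map (indE φ hc) id) id)

theorem indV_pos (φ : F.Copy H) (hc : ∀ w, cH (φ w) = col w) (k : ℕ) (e : Eo F col) (i : ℕ) :
    indV φ hc k (pos k e i) = pos k (indE φ hc e) i := by
  unfold pos
  split_ifs <;> rfl

theorem indV_inj (φ : F.Copy H) (hc : ∀ w, cH (φ w) = col w) (k : ℕ) :
    Function.Injective (indV φ hc k) := by
  refine Sum.map_injective.2 ⟨φ.injective, Sum.map_injective.2 ⟨Function.Injective.prodMap
    (fun e e' h => ?_) Function.injective_id, Function.injective_id⟩⟩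
  have h1 := Prod.mk.inj (congrArg Subtype.val h)
  exact Subtype.ext (Prod.ext (φ.injective h1.1) (φ.injective h1.2))

/-- The copy of the new graph. -/
def indC (φ : F.Copy H) (hc : ∀ w, cH (φ w) = col w) (k : ℕ) :
    (plus F col k).Copy (plus H cH k) :=
  ⟨⟨indV φ hc k, fun {x y} h => by
    obtain ⟨h1, h2⟩ := (fromRel_adj _ _ _).1 h
    refine (fromRel_adj _ _ _).2 ⟨fun e => h1 (indV_inj φ hc k e), ?_⟩
    rcases h2 with (⟨e, i, hi, rfl, rfl⟩ | ⟨w, rfl, rfl⟩) | ⟨e, i, hi, rfl, rfl⟩ | ⟨w, rfl, rfl⟩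
    · exact Or.inl (Or.inl ⟨_, i, hi, indV_pos φ hc k e i, indV_pos φ hc k e _⟩)
    · exact Or.inl (Or.inr ⟨φ w, rfl, by rw [hc]; rfl⟩)
    · exact Or.inr (Or.inl ⟨_, i, hi, indV_pos φ hc k e i, indV_pos φ hc k e _⟩)
    · exact Or.inr (Or.inr ⟨φ w, rfl, by rw [hc]; rfl⟩)⟩, indV_inj φ hc k⟩

theorem indC_apply (φ : F.Copy H) (hc : ∀ w, cH (φ w) = col w) (k : ℕ) (x : Pv F col k) :
    indC φ hc k x = indV φ hc k x := rfl

end map

variable {W : Type} [Fintype W] {F : SimpleGraph W} {R : W → Prop} {col : W → Bool}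

theorem ind_mem {S : Finset W} {e : W × W} :
    e ∈ Ed F col S ↔ F.Adj e.1 e.2 ∧ col e.1 = false ∧ (e.1 ∈ S ∨ e.2 ∈ S) := by
  simp [Ed]

theorem ind_top (hp : Prp F col) {a b : ℕ} (k : ℕ)
    (h : ∀ S : Finset W, (∀ w, w ∈ S ↔ ¬ R w) → a * (Ed F col S).card ≤ b * S.card)
    (S : Finset (Pv F col k)) (hS : ∀ w, w ∈ S ↔ ¬ rtp F col k R w) :
    (k * b + a) * (Ed (plus F col k) (colp F col k) S).card ≤ ((k + 1) * b + a) * S.card := by
  obtain ⟨S₀, h0⟩ : ∃ S₀ : Finset W, ∀ w, w ∈ S₀ ↔ ¬ R w := ⟨univ.filter fun w => ¬ R w, by simp⟩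
  obtain ⟨N, hN⟩ : ∃ N : Finset (Eo F col), ∀ e, e ∈ N ↔ ¬ (R e.1.1 ∧ R e.1.2) :=
    ⟨univ.filter fun e => ¬ (R e.1.1 ∧ R e.1.2), by simp⟩
  have h1 : N.card ≤ (Ed F col S₀).card := by
    refine card_le_card_of_injOn Subtype.val (fun e he => ?_) Subtype.val_injective.injOn
    have h2 := (hN e).1 (mem_coe.1 he)
    refine mem_coe.2 (ind_mem.2 ⟨e.2.1, e.2.2, ?_⟩)
    rw [h0, h0]
    exact not_and_or.1 h2
  have h2 : S₀.card + N.card * k ≤ S.card := by
    have h3 : S₀.disjSum ((N ×ˢ (univ : Finset (Fin k))).disjSum (∅ : Finset Bool)) ⊆ S := by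
      rintro (w | x | b) hx
      · exact (hS _).2 ((h0 w).1 (inl_mem_disjSum.1 hx))
      · exact (hS _).2 ((hN _).1 (mem_product.1 (inl_mem_disjSum.1 (inr_mem_disjSum.1 hx))).1)
      · simp at hx
    simpa using card_le_card h3
  let o : Pv F col k → Pv F col k → Pv F col k × Pv F col k := fun x y =>
    if colp F col k x = false then (x, y) else (y, x)
  have h3 : Ed (plus F col k) (colp F col k) S ⊆
      (S₀.image fun w => o (.inl w) (.inr (.inr (col w)))) ∪
        (N ×ˢ range (k + 1)).image fun z => o (pos k z.1 z.2) (pos k z.1 (z.2 + 1)) := by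
    rintro ⟨x, y⟩ hx
    obtain ⟨a1, a2, a3⟩ := ind_mem.1 hx
    have a4 : ¬ colp F col k y = false := fun e => prp_plus hp k _ _ a1 (a2.trans e.symm)
    have a5 : o x y = (x, y) := if_pos a2
    have a6 : o y x = (x, y) := if_neg a4
    have a7 : ∀ e : Eo F col, e ∉ N → ∀ i, pos k e i ∉ S := fun e he i hi => by
      have b1 := not_not.1 fun b => he ((hN e).2 b)
      refine (hS _).1 hi ?_
      unfold pos
      split_ifs
      exacts [b1, b1.1, b1.2]
    have a8 : ∀ b, Sum.inr (Sum.inr b) ∉ S := fun b hb => (hS _).1 hb trivial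
    rw [mem_union, mem_image, mem_image]
    rcases ((fromRel_adj _ _ _).1 a1).2 with
      (⟨e, i, hi, e1, e2⟩ | ⟨w, e1, e2⟩) | ⟨e, i, hi, e1, e2⟩ | ⟨w, e1, e2⟩
    all_goals
      dsimp only at e1 e2 a3
      subst e1 e2
    · exact Or.inr ⟨(e, i), mem_product.2 ⟨not_not.1 fun b => a3.elim (a7 e b _) (a7 e b _),
        mem_range.2 (Nat.lt_succ_of_le hi)⟩, a5⟩
    · exact Or.inl ⟨w, (h0 w).2 ((hS _).1 (a3.resolve_right (a8 _))), a5⟩
    · exact Or.inr ⟨(e, i), mem_product.2 ⟨not_not.1 fun b => a3.elim (a7 e b _) (a7 e b _),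
        mem_range.2 (Nat.lt_succ_of_le hi)⟩, a6⟩
    · exact Or.inl ⟨w, (h0 w).2 ((hS _).1 (a3.resolve_left (a8 _))), a6⟩
  have h4 : (Ed (plus F col k) (colp F col k) S).card ≤ S₀.card + N.card * (k + 1) := by
    refine (card_le_card h3).trans ((card_union_le _ _).trans (add_le_add card_image_le
      (card_image_le.trans ?_)))
    rw [card_product, card_range]
  have h5 := (Nat.mul_le_mul_left a h1).trans (h S₀ h0)
  refine (Nat.mul_le_mul_left _ h4).trans (le_trans ?_ (Nat.mul_le_mul_left _ h2))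
  nlinarith

theorem Inw.step {a b : ℕ} (ha : 0 < a) (hab : a ≤ b) (h : Inw a b F R col) (k : ℕ) :
    Inw (k * b + a) ((k + 1) * b + a) (plus F col k) (rtp F col k R) (colp F col k) := by
  obtain ⟨w₀, hw₀⟩ := h.ne
  refine ⟨⟨.inl w₀, hw₀⟩, prp_plus h.prp k, iso_plus h.prp ⟨w₀⟩ h.iso k,
    bal_plus h.prp R a b k h.bal (prp_plus h.prp k), ind_top h.prp k h.top, fun p => ?_⟩
  obtain ⟨U, _, H, cH, φ, f1, f2, f3, f4, f5, f6, C, f7⟩ := h.pw p
  have ha' : (0 : ℝ) < a := by exact_mod_cast ha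
  have hab' : (a : ℝ) ≤ b := by exact_mod_cast hab
  have hb' : (0 : ℝ) < b := by linarith
  obtain ⟨C', hC⟩ := RX.step H cH f3 f5 f6 k (α := 1 - (a : ℝ) / b) (C₀ := C)
    (sub_nonneg.2 ((div_le_one hb').2 hab')) (sub_lt_self _ (div_pos ha' hb')) fun m => by
      rw [show 1 + (1 - (a : ℝ) / b) = 2 - (a : ℝ) / b by ring]
      exact f7 m
  refine ⟨_, inferInstance, plus H cH k, colp H cH k, fun i => indC (φ i) (f4 i) k, ?_, ?_,
    prp_plus f3 k, ?_, conn_plus f3 f5.nonempty f6 k, iso_plus f3 f5.nonempty f6 k, C', fun n => ?_⟩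
  · rintro i j (w | ⟨e, l⟩ | c) hw
    · exact congrArg Sum.inl (f1 i j w hw)
    · have : indE (φ i) (f4 i) e = indE (φ j) (f4 j) e :=
        Subtype.ext (Prod.ext (f1 i j _ hw.1) (f1 i j _ hw.2))
      simp only [indC_apply, indV, Sum.map_inr, Sum.map_inl, Prod.map_apply, this]
    · rfl
  · rintro i j (w | ⟨e, l⟩ | c) x' hw he
    · rcases x' with w' | x' | c
      · exact f2 i j w w' hw (Sum.inl.inj he)
      · cases he
      · cases he
    · rcases x' with w' | ⟨e', l'⟩ | c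
      · cases he
      · have h1 := Prod.mk.inj (congrArg Subtype.val
          (Prod.mk.inj (Sum.inl.inj (Sum.inr.inj he))).1)
        exact (not_and_or.1 hw).elim (fun b => f2 i j _ _ b h1.1) fun b => f2 i j _ _ b h1.2
      · cases Sum.inr.inj he
    · exact absurd trivial hw
  · rintro i (w | ⟨e, l⟩ | c)
    · exact congrArg (· && (k + 1).bodd) (f4 i w)
    · rfl
    · rfl
  · have h1 : 2 - ((k * b + a : ℕ) : ℝ) / (((k + 1) * b + a : ℕ) : ℝ) =
        1 + 1 / (k + 2 - (1 - (a : ℝ) / b)) := by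
      have h2 : (0 : ℝ) ≤ k := Nat.cast_nonneg _
      have h3 : (k : ℝ) + 2 - (1 - (a : ℝ) / b) = ((k + 1) * b + a) / b := by
        field_simp
        ring
      rw [h3]
      push_cast
      field_simp
      ring
    rw [h1]
    exact hC n

theorem inw_base (a : ℕ) (ha : 0 < a) :
    Inw a a (⊤ : SimpleGraph Bool) (fun w => w = false) id := by
  have h := inv_base a ha
  refine ⟨⟨true, by simp⟩, h.prp, h.iso, h.bal, fun S hS => Nat.mul_le_mul_left _ ?_, fun p => ?_⟩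
  · have h1 : Ed (⊤ : SimpleGraph Bool) id S ⊆ {(false, true)} := by
      rintro ⟨x, y⟩ hx
      obtain ⟨a1, a2, -⟩ := ind_mem.1 hx
      cases x <;> cases y <;> simp_all
    exact (card_le_card h1).trans (card_pos.2 ⟨true, (hS _).2 (by simp)⟩)
  · obtain ⟨U, _, H, cH, φ, f1, f2, f3, f4, f5⟩ := h.pw (p + 1) (by omega)
    refine ⟨U, inferInstance, H, cH, φ, f1.root, fun i j w w' hw e => ?_, f2, f3, f4, fun u => ?_, f5⟩
    · have h1 : w = w' := (f3 i w).symm.trans ((congrArg cH e).trans (f3 j w'))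
      subst h1
      refine f1.inj (DFunLike.ext _ _ fun x => ?_)
      by_cases hx : x = false
      · exact f1.root i j x hx
      · rwa [show x = w by cases x <;> cases w <;> simp_all]
    · obtain ⟨i, w, rfl⟩ := f1.vtx u
      obtain ⟨w', hw⟩ := h.iso w
      exact ⟨_, (φ i).toHom.map_rel hw⟩

theorem inw_all (b : ℕ) : ∀ a, 0 < a → a ≤ b → ∃ (W : Type) (_ : Fintype W) (F : SimpleGraph W)
    (R : W → Prop) (col : W → Bool), Inw a b F R col := by
  induction b using Nat.strong_induction_on with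
  | _ b ih =>
    intro a ha hab
    rcases hab.eq_or_lt with rfl | hlt
    · exact ⟨_, _, _, _, _, inw_base a ha⟩
    · have h1 := Nat.mod_lt (a - 1) (show 0 < b - a by omega)
      have h2 := Nat.div_add_mod' (a - 1) (b - a)
      obtain ⟨W, _, F, R, col, h⟩ := ih (b - a) (by omega) ((a - 1) % (b - a) + 1) (by omega) h1
      have h3 := h.step (by omega) h1 ((a - 1) / (b - a))
      rw [show (a - 1) / (b - a) * (b - a) + ((a - 1) % (b - a) + 1) = a by omega,
        show ((a - 1) / (b - a) + 1) * (b - a) + ((a - 1) % (b - a) + 1) = b by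
          rw [Nat.add_mul]; omega] at h3
      exact ⟨_, _, _, _, _, h3⟩

end Pool.Agent.Lib.MP_befe0b_co.RX
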