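import Pool.Agent.Lib.MP_befe0b_co.RX.Thin
import Pool.Agent.Lib.MP_befe0b_co.RX.Greedy

/-! Many full paths with common ends give the graph. -/

open Finset SimpleGraph
open scoped Classical

noncomputable section

namespace Pool.Agent.Lib.MP_befe0b_co.RX

open Pool.Agent.Lib.MP_befe0b_co.BC

variable {V : Type} [Fintype V] {G : SimpleGraph V}

omit [Fintype V] in
theorem light_fin {W : Type} {H : SimpleGraph W} {col : W → Bool} (hp : Prp H col)
    (hne : Nonempty W) (hiso : ∀ w, ∃ w', H.Adj w w') {k : ℕ} (f : W → V)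
    (hf : Function.Injective f) (r : Bool → V) (Z : Finset V) (hfZ : ∀ w, f w ∈ Z)
    (y : Eo H col → ℕ → V) (h0 : ∀ e, y e 0 = r false) (h1 : ∀ e, y e 1 = f e.1.1)
    (h2 : ∀ e, y e (k + 2) = f e.1.2) (h3 : ∀ e, y e (k + 3) = r true)
    (hadj : ∀ e, ∀ t < k + 3, G.Adj (y e t) (y e (t + 1)))
    (hinj : ∀ e, Set.InjOn (y e) (Set.Iic (k + 3)))
    (hZ : ∀ e t, 2 ≤ t → t ≤ k + 1 → y e t ∉ Z)
    (hd : ∀ e e', e ≠ e' → ∀ t t', 2 ≤ t → t ≤ k + 1 → 2 ≤ t' → t' ≤ k + 1 → y e t ≠ y e' t') :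
    plus H col k ⊑ G := by
  have hI : ∀ e s t, s ≤ k + 3 → t ≤ k + 3 → y e s = y e t → s = t := fun e s t hs ht h =>
    hinj e (Set.mem_Iic.2 hs) (Set.mem_Iic.2 ht) h
  have hr : ∀ e b, ∃ s, (s = 0 ∨ s = k + 3) ∧ y e s = r b := fun e b => by
    cases b
    · exact ⟨0, Or.inl rfl, h0 e⟩
    · exact ⟨k + 3, Or.inr rfl, h3 e⟩
  have hw : ∀ w, ∃ e : Eo H col,
      (col w = false ∧ y e 1 = f w) ∨ (col w = true ∧ y e (k + 2) = f w) := fun w => by
    obtain ⟨w', h⟩ := hiso w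
    have h4 := hp w w' h
    cases hcw : col w
    · exact ⟨⟨(w, w'), h, hcw⟩, Or.inl ⟨rfl, h1 _⟩⟩
    · have h5 : col w' = false := by
        cases h6 : col w'
        · rfl
        · exact absurd (hcw.trans h6.symm) h4
      exact ⟨⟨(w', w), h.symm, h5⟩, Or.inr ⟨rfl, h2 _⟩⟩
  refine plus_of_paths f r (fun e t => y e (t + 1)) hf ?_ ?_ ?_ h1 h2 ?_ ?_ ?_
  · obtain ⟨w⟩ := hne
    obtain ⟨e, -⟩ := hw w
    intro h
    have := hI e 0 (k + 3) (by omega) le_rfl (by rw [h0, h3, h])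
    omega
  · intro w
    obtain ⟨e, ⟨h4, h5⟩ | ⟨h4, h5⟩⟩ := hw w
    · rw [h4, ← h5, ← h0 e]
      exact (hadj e 0 (by omega)).symm
    · rw [h4, ← h5, ← h3 e]
      exact hadj e (k + 2) (by omega)
  · intro w b h
    obtain ⟨e, h4⟩ := hw w
    obtain ⟨s, hs, h5⟩ := hr e b
    rcases h4 with ⟨-, h4⟩ | ⟨-, h4⟩
    · have := hI e 1 s (by omega) (by omega) (by rw [h4, h5, h])
      omega
    · have := hI e (k + 2) s (by omega) (by omega) (by rw [h4, h5, h])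
      omega
  · intro e t ht
    exact hadj e (t + 1) (by omega)
  · intro e t ht1 ht2
    refine ⟨fun w h => hZ e (t + 1) (by omega) (by omega) ?_, fun b h => ?_⟩
    · have h' : y e (t + 1) = f w := h
      rw [h']
      exact hfZ w
    · obtain ⟨s, hs, h5⟩ := hr e b
      have h' : y e (t + 1) = r b := h
      have := hI e (t + 1) s (by omega) (by omega) (by rw [h5, h'])
      omega
  · intro e e' t t' ht1 ht2 ht3 ht4 h
    have h' : y e (t + 1) = y e' (t' + 1) := h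
    by_cases he : e = e'
    · subst he
      have := hI e (t + 1) (t' + 1) (by omega) (by omega) h'
      exact ⟨rfl, by omega⟩
    · exact absurd h' (hd e e' he _ _ (by omega) (by omega) (by omega) (by omega))

theorem light_two {W : Type} {H : SimpleGraph W} {col χ : W → Bool} (hp : Prp H col)
    (hq : Prp H χ) (hc : H.Connected) : (∀ w, χ w = col w) ∨ ∀ w, χ w = !col w := by
  obtain ⟨o⟩ := hc.nonempty
  have h : ∀ u v (_ : H.Walk u v), (χ u = col u ↔ χ v = col v) := fun u v p => by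
    induction p with
    | nil => exact Iff.rfl
    | @cons a b c hab _ ih =>
      refine Iff.trans ?_ ih
      have h1 := hp a b hab
      have h2 := hq a b hab
      revert h1 h2
      cases χ a <;> cases χ b <;> cases col a <;> cases col b <;> simp
  by_cases ho : χ o = col o
  · exact Or.inl fun w => (hc o w).elim fun p => (h o w p).1 ho
  · refine Or.inr fun w => (hc o w).elim fun p => ?_
    have h1 : ¬ χ w = col w := fun h1 => ho ((h o w p).2 h1)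
    revert h1
    cases χ w <;> cases col w <;> simp

theorem light_emb {W : Type} {H : SimpleGraph W} {col : W → Bool} (hp : Prp H col)
    (hc : H.Connected) (hiso : ∀ w, ∃ w', H.Adj w w') {k : ℕ} (f : W → V)
    (hf : Function.Injective f) (r₁ r₂ : V) (Y Z : Finset V) (hfZ : ∀ w, f w ∈ Z)
    (F : Finset (ℕ → V))
    (hF : ∀ x ∈ F, x ∈ Wk G (k + 3) ∧ Set.InjOn x (Set.Iic (k + 3)) ∧ x 0 = r₁ ∧ x (k + 3) = r₂)
    (hY : ∀ x ∈ F, x 1 ∈ Y ∧ x (k + 2) ∉ Y ∧ ∀ t, 2 ≤ t → t ≤ k + 1 → x t ∉ Z)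
    (hd : ∀ x ∈ F, ∀ y ∈ F, x ≠ y →
      ∀ t t', 2 ≤ t → t ≤ k + 1 → 2 ≤ t' → t' ≤ k + 1 → x t ≠ y t')
    (hE : ∀ u v, H.Adj u v →
      ∃ x ∈ F, (x 1 = f u ∧ x (k + 2) = f v) ∨ (x 1 = f v ∧ x (k + 2) = f u)) :
    plus H col k ⊑ G := by
  have hq : Prp H fun w => decide (f w ∉ Y) := fun u v h => by
    obtain ⟨x, hx, ⟨h1, h2⟩ | ⟨h1, h2⟩⟩ := hE u v h
    · have h3 := (hY x hx).1
      have h4 := (hY x hx).2.1
      rw [h1] at h3
      rw [h2] at h4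
      simp [h3, h4]
    · have h3 := (hY x hx).1
      have h4 := (hY x hx).2.1
      rw [h1] at h3
      rw [h2] at h4
      simp [h3, h4]
  rcases light_two hp hq hc with h | h
  · have hx : ∀ e : Eo H col, ∃ x ∈ F, x 1 = f e.1.1 ∧ x (k + 2) = f e.1.2 := fun e => by
      obtain ⟨x, hx, h1 | ⟨-, h2⟩⟩ := hE _ _ e.2.1
      · exact ⟨x, hx, h1⟩
      · have h3 := h e.1.1
        have h4 := (hY x hx).2.1
        rw [h2] at h4
        simp [e.2.2, h4] at h3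
    choose x hx h1 h2 using hx
    refine light_fin hp hc.nonempty hiso f hf (fun b => if b then r₂ else r₁) Z hfZ x
      (fun e => (hF _ (hx e)).2.2.1) h1 h2 (fun e => (hF _ (hx e)).2.2.2)
      (fun e => (mem_Wk.1 (hF _ (hx e)).1).2) (fun e => (hF _ (hx e)).2.1)
      (fun e => (hY _ (hx e)).2.2) fun e e' he => hd _ (hx e) _ (hx e') fun h3 => he ?_
    refine Subtype.ext (Prod.ext (hf ?_) (hf ?_))
    · rw [← h1, ← h1, h3]
    · rw [← h2, ← h2, h3]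
  · have hx : ∀ e : Eo H col, ∃ x ∈ F, x 1 = f e.1.2 ∧ x (k + 2) = f e.1.1 := fun e => by
      obtain ⟨x, hx, ⟨h2, -⟩ | h1⟩ := hE _ _ e.2.1
      · have h3 := h e.1.1
        have h4 := (hY x hx).1
        rw [h2] at h4
        simp [e.2.2, h4] at h3
      · exact ⟨x, hx, h1⟩
    choose x hx h1 h2 using hx
    refine light_fin hp hc.nonempty hiso f hf (fun b => if b then r₁ else r₂) Z hfZ
      (fun e t => x e (k + 3 - t)) (fun e => (hF _ (hx e)).2.2.2) (fun e => h2 e) (fun e => ?_)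
      (fun e => ?_) (fun e t ht => ?_) (fun e s hs t ht h3 => ?_) (fun e t ht1 ht2 => ?_)
      fun e e' he t t' ht1 ht2 ht3 ht4 => ?_
    · have h3 : k + 3 - (k + 2) = 1 := by omega
      simp only [h3]
      exact h1 e
    · simp only [Nat.sub_self]
      exact (hF _ (hx e)).2.2.1
    · have h3 := (mem_Wk.1 (hF _ (hx e)).1).2 (k + 3 - (t + 1)) (by omega)
      have h4 : k + 3 - (t + 1) + 1 = k + 3 - t := by omega
      rw [h4] at h3
      exact h3.symm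
    · have h4 := (hF _ (hx e)).2.1 (Set.mem_Iic.2 (Nat.sub_le _ _))
        (Set.mem_Iic.2 (Nat.sub_le _ _)) h3
      have h5 := Set.mem_Iic.1 hs
      have h6 := Set.mem_Iic.1 ht
      omega
    · exact (hY _ (hx e)).2.2 _ (by omega) (by omega)
    · refine hd _ (hx e) _ (hx e') (fun h3 => he ?_) _ _ (by omega) (by omega) (by omega)
        (by omega)
      refine Subtype.ext (Prod.ext (hf ?_) (hf ?_))
      · rw [← h2, ← h2, h3]
      · rw [← h1, ← h1, h3]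

omit [Fintype V] in
theorem light_aux {W : Type} (H : SimpleGraph W) (Y Z : Finset V) (F : Finset (ℕ → V)) (i j : ℕ)
    (hY : ∀ x ∈ F, x i ∈ Y ∧ x j ∉ Y) (hZ : ∀ x ∈ F, x i ∈ Z ∧ x j ∈ Z)
    (hd : ∀ x ∈ F, ∀ y ∈ F, x ≠ y → ¬ (x i = y i ∧ x j = y j))
    (h : extremalNumber Z.card H < F.card) :
    ∃ f : W → V, Function.Injective f ∧ (∀ w, f w ∈ Z) ∧ ∀ u v, H.Adj u v →
      ∃ x ∈ F, (x i = f u ∧ x j = f v) ∨ (x i = f v ∧ x j = f u) := by
  let Γ : SimpleGraph {v // v ∈ Z} :=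
    SimpleGraph.fromRel fun u v => ∃ x ∈ F, x i = u.1 ∧ x j = v.1
  have h1 : F.card ≤ (Γ.edgeFinset.image (Sym2.map Subtype.val)).card := by
    refine card_le_card_of_injOn (fun x => s(x i, x j)) (fun x hx => ?_) fun x hx y hy hxy => ?_
    · have hx' : x ∈ F := hx
      refine mem_coe.2 (mem_image.2 ⟨s(⟨x i, (hZ x hx').1⟩, ⟨x j, (hZ x hx').2⟩), ?_, rfl⟩)
      rw [mem_edgeFinset, mem_edgeSet]
      refine (fromRel_adj _ _ _).2 ⟨fun h2 => (hY x hx').2 ?_, Or.inl ⟨x, hx', rfl, rfl⟩⟩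
      have h3 : x i = x j := congrArg Subtype.val h2
      rw [← h3]
      exact (hY x hx').1
    · by_contra hne
      rcases Sym2.eq_iff.1 hxy with h2 | h2
      · exact hd x hx y hy hne h2
      · exact (hY y hy).2 (h2.1 ▸ (hY x hx).1)
  have h2 : extremalNumber (Fintype.card {v // v ∈ Z}) H < Γ.edgeFinset.card := by
    rw [Fintype.card_coe]
    exact h.trans_le (h1.trans card_image_le)
  obtain ⟨φ⟩ := IsContained.of_extremalNumber_lt_card_edgeFinset h2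
  refine ⟨fun w => (φ w).1, fun u v huv => φ.injective (Subtype.ext huv), fun w => (φ w).2,
    fun u v huv => ?_⟩
  have h3 : Γ.Adj (φ u) (φ v) := φ.toHom.map_rel huv
  obtain ⟨-, ⟨x, hx, h4⟩ | ⟨x, hx, h4⟩⟩ := (fromRel_adj _ _ _).1 h3
  · exact ⟨x, hx, Or.inl h4⟩
  · exact ⟨x, hx, Or.inr h4⟩

theorem light_num {α C₀ K d A E z a b e : ℝ} (hα : 0 ≤ α) (hK : 1 ≤ K) (hd : 1 ≤ d)
    (hA : 0 < A) (hE : 0 ≤ E) (hz0 : 0 ≤ z) (hz : z ≤ 2 * (K * d)) (he : e ≤ C₀ * z ^ (1 + α))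
    (hab : a ≤ A * b + z * E)
    (ha : (A * (max C₀ 0 * (2 * K) ^ (1 + α) + 1) + 2 * K * E) * d ^ (1 + α) ≤ a) : e < b := by
  have h1 : d ≤ d ^ (1 + α) := by
    have := Real.rpow_le_rpow_of_exponent_le hd (show (1 : ℝ) ≤ 1 + α by linarith)
    rwa [Real.rpow_one] at this
  have h2 : z ^ (1 + α) ≤ (2 * K) ^ (1 + α) * d ^ (1 + α) := by
    rw [← Real.mul_rpow (by linarith) (by linarith)]
    exact Real.rpow_le_rpow hz0 (by linarith) (by linarith)
  have h3 : 0 ≤ z ^ (1 + α) := Real.rpow_nonneg hz0 _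
  have h4 : e ≤ max C₀ 0 * ((2 * K) ^ (1 + α) * d ^ (1 + α)) :=
    he.trans ((mul_le_mul_of_nonneg_right (le_max_left _ _) h3).trans
      (mul_le_mul_of_nonneg_left h2 (le_max_right _ _)))
  have h5 : z * E ≤ 2 * K * E * d ^ (1 + α) := by
    have h6 : z ≤ 2 * K * d ^ (1 + α) := by nlinarith
    nlinarith
  generalize d ^ (1 + α) = t at h1 h4 h5 ha
  generalize max C₀ 0 = c at h4 ha
  generalize (2 * K) ^ (1 + α) = u at h4 ha
  have h6 : A * (c * (u * t) + t) ≤ A * b := by nlinarith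
  have h7 := le_of_mul_le_mul_left h6 hA
  linarith

theorem light {W : Type} [Fintype W] (H : SimpleGraph W) (col : W → Bool) (hp : Prp H col)
    (hc : H.Connected) (hiso : ∀ w, ∃ w', H.Adj w w') (k B : ℕ) {α C₀ K : ℝ} (hα : 0 ≤ α)
    (hK : 1 ≤ K) (hex : ∀ m : ℕ, (extremalNumber m H : ℝ) ≤ C₀ * (m : ℝ) ^ (1 + α)) :
    ∃ C₁ : ℝ, ∀ M : ℕ → ℕ, 1 ≤ M 0 → (∀ l ≤ k + 1, M l ≤ B) →
      ∀ (V : Type) [Fintype V] (G : SimpleGraph V) (d : ℝ), Host G d (K * d) → 1 ≤ d →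
        ∀ (r₁ r₂ : V) (F : Finset (ℕ → V)),
          (∀ x ∈ F, x ∈ Wk G (k + 3) ∧ Full G M k x ∧ x 0 = r₁ ∧ x (k + 3) = r₂) →
          C₁ * d ^ (1 + α) ≤ F.card → plus H col k ⊑ G := by
  refine ⟨((4 * (k * k * (B * B) + B + 1) : ℕ) : ℝ) * (max C₀ 0 * (2 * K) ^ (1 + α) + 1) +
    2 * K * ((k * (B * B) : ℕ) : ℝ), fun M h0 hB V _ G d hG hd r₁ r₂ F hF hC => ?_⟩
  obtain ⟨F', hs, Y, h1, h2, h3⟩ := thin h0 hB r₁ r₂ (nb G r₁ ∪ nb G r₂) F hF
  have hz : ((nb G r₁ ∪ nb G r₂).card : ℝ) ≤ 2 * (K * d) := by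
    have h4 : ((nb G r₁ ∪ nb G r₂).card : ℝ) ≤ (nb G r₁).card + (nb G r₂).card := by
      exact_mod_cast card_union_le _ _
    have h5 := hG.hi r₁
    have h6 := hG.hi r₂
    linarith
  have h4 : (extremalNumber (nb G r₁ ∪ nb G r₂).card H : ℝ) < F'.card :=
    light_num hα hK hd (Nat.cast_pos.2 (by omega)) (Nat.cast_nonneg _) (Nat.cast_nonneg _) hz
      (hex _) (by exact_mod_cast h1) hC
  obtain ⟨f, hf, hfZ, hE⟩ := light_aux H Y (nb G r₁ ∪ nb G r₂) F' 1 (k + 2)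
    (fun x hx => ⟨(h2 x hx).1, (h2 x hx).2.1⟩) (fun x hx => by
      obtain ⟨h5, -, h6, h7⟩ := hF x (hs hx)
      have h8 := (mem_Wk.1 h5).2 0 (by omega)
      have h9 := (mem_Wk.1 h5).2 (k + 2) (by omega)
      rw [h6] at h8
      have h10 : x (k + 2 + 1) = r₂ := h7
      rw [h10] at h9
      exact ⟨mem_union_left _ (mem_filter.2 ⟨mem_univ _, h8⟩),
        mem_union_right _ (mem_filter.2 ⟨mem_univ _, h9.symm⟩)⟩)
    (fun x hx y hy hxy => (h3 x hx y hy hxy).1) (by exact_mod_cast h4)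
  exact light_emb hp hc hiso f hf r₁ r₂ Y _ hfZ F'
    (fun x hx => ⟨(hF x (hs hx)).1, (hF x (hs hx)).2.1.inj, (hF x (hs hx)).2.2⟩) h2
    (fun x hx y hy hxy => (h3 x hx y hy hxy).2) hE

end Pool.Agent.Lib.MP_befe0b_co.RX
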