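import Pool.Agent.Lib.MP_befe0b_co.BC.RegA

/-! Regularisation for every positive exponent. -/

open Finset
open scoped Classical

noncomputable section

namespace Pool.Agent.Lib.MP_befe0b_co.BC

variable {V : Type} [Fintype V]

theorem regAll_aux [Nonempty V] (G : SimpleGraph V) {α D₀ : ℝ} {l : ℕ} (hα : 0 < α) (hl0 : 0 < l)
    (hl : 12 ≤ (l : ℝ) ^ α) (hD₀ : 3 * (l : ℝ) ≤ D₀)
    (hG : D₀ * (Fintype.card V : ℝ) ^ (1 + α) ≤ sg G univ) :
    ∃ (T : Finset V) (d : ℝ),
      Host (G.comap (Function.Embedding.subtype (· ∈ T))) d (24 * l * d) ∧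
      D₀ / 8 * (T.card : ℝ) ^ α ≤ d := by
  have hl1 : (1 : ℝ) ≤ l := by exact_mod_cast hl0
  let g : Finset V → ℝ := fun S => (sg G S : ℝ) / (S.card : ℝ) ^ (1 + α)
  obtain ⟨S0, hS0, hmax⟩ := Finset.exists_max_image
    (univ.filter fun S : Finset V => S.Nonempty) g ⟨univ, by simp⟩
  have hS0ne : S0.Nonempty := (Finset.mem_filter.1 hS0).2
  obtain ⟨m, hm⟩ : ∃ m : ℝ, m = (S0.card : ℝ) := ⟨_, rfl⟩
  have hm1 : 1 ≤ m := by rw [hm]; exact_mod_cast hS0ne.card_pos
  have hm0 : 0 < m := by linarith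
  obtain ⟨γ, hγ⟩ : ∃ γ : ℝ, γ = g S0 := ⟨_, rfl⟩
  obtain ⟨D, hD⟩ : ∃ D : ℝ, D = γ * m ^ α := ⟨_, rfl⟩
  have hma : 1 ≤ m ^ α := Real.one_le_rpow hm1 (by linarith)
  have hm1a : m ^ (1 + α) = m ^ α * m := by rw [Real.rpow_add hm0, Real.rpow_one, mul_comm]
  have hσ : (sg G S0 : ℝ) = D * m := by
    rw [hD, hγ]
    simp only [g]
    rw [← hm, hm1a]
    field_simp
  have hγ0 : D₀ ≤ γ := by
    rw [hγ]
    refine le_trans ?_ (hmax univ (by simp))
    simp only [g]
    have : (0 : ℝ) < Fintype.card V := by exact_mod_cast Fintype.card_pos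
    rw [le_div_iff₀ (by rw [Finset.card_univ]; positivity), Finset.card_univ]
    exact hG
  have hγp : 0 < γ := by linarith
  have hdens : ∀ S : Finset V, (sg G S : ℝ) ≤ γ * (S.card : ℝ) ^ (1 + α) := by
    intro S
    rcases S.eq_empty_or_nonempty with rfl | hS
    · simp only [sg, Finset.sum_empty, Nat.cast_zero]
      exact mul_nonneg hγp.le (Real.rpow_nonneg (Nat.cast_nonneg _) _)
    · have h1 := hmax S (by simpa using hS)
      have h2 : (0 : ℝ) < S.card := by exact_mod_cast hS.card_pos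
      rw [← hγ, div_le_iff₀ (Real.rpow_pos_of_pos h2 _)] at h1
      exact h1
  have hDD0 : D₀ ≤ D := by
    rw [hD]
    exact hγ0.trans (le_mul_of_one_le_right hγp.le hma)
  have hDp : 0 < D := by linarith
  have hDn : 0 ≤ D := hDp.le
  have hDm : D ≤ m := by
    refine le_of_mul_le_mul_right ?_ hm0
    rw [← hσ, hm]
    exact_mod_cast sg_le_sq S0
  have hLm : 3 * l ≤ S0.card := by
    have : ((3 * l : ℕ) : ℝ) ≤ m := by push_cast; linarith
    rw [hm] at this
    exact_mod_cast this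
  set X := S0.filter fun x => 3 * l * D < dg G S0 x with hX
  have hXS : X ⊆ S0 := Finset.filter_subset _ _
  have hXc : (3 * l : ℝ) * X.card ≤ m := by
    have h1 : X.card * (3 * l * D) ≤ (sg G S0 : ℝ) := by
      rw [← nsmul_eq_mul, ← Finset.sum_const, sg]
      push_cast
      exact (Finset.sum_le_sum fun x hx => (Finset.mem_filter.1 hx).2.le).trans
        (Finset.sum_le_sum_of_subset_of_nonneg hXS fun _ _ _ => Nat.cast_nonneg _)
    rw [hσ] at h1
    refine le_of_mul_le_mul_left ?_ hDp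
    linarith
  obtain ⟨Y, -, hYc, hYs⟩ := rega_subset_sum (dg G X) (S0.card / (3 * l) + 1) (3 * l) S0
    (Nat.lt_mul_div_succ _ (by omega)).le
  have hYc' : (3 * l : ℝ) * Y.card ≤ 2 * m := by
    have h1 : 3 * l * Y.card ≤ 2 * S0.card := by
      have h2 := Nat.mul_le_mul_left (3 * l) hYc
      have h3 := Nat.mul_div_le S0.card (3 * l)
      rw [Nat.mul_add, Nat.mul_one] at h2
      omega
    rw [hm]
    exact_mod_cast h1
  have hU : ((Y ∪ X).card : ℝ) ≤ m / l := by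
    have h1 : ((Y ∪ X).card : ℝ) ≤ Y.card + X.card := by exact_mod_cast Finset.card_union_le _ _
    rw [le_div_iff₀ (by linarith)]
    nlinarith
  set E := ∑ x ∈ S0, dg G X x with hE
  have hE1 : (E : ℝ) ≤ 3 * l * sg G (Y ∪ X) := by
    exact_mod_cast hYs.trans (Nat.mul_le_mul_left (3 * l) (sum_dg_le_sg_union Y X))
  have h144 : 12 * (l : ℝ) ≤ (l : ℝ) ^ (1 + α) := by
    rw [Real.rpow_add (by linarith), Real.rpow_one]
    nlinarith
  have hE2 : 4 * (E : ℝ) ≤ D * m := by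
    have h1 : ((Y ∪ X).card : ℝ) ^ (1 + α) ≤ (m / l) ^ (1 + α) :=
      Real.rpow_le_rpow (Nat.cast_nonneg _) hU (by linarith)
    have h2 : (m / l) ^ (1 + α) ≤ m ^ α * m / (12 * l) := by
      rw [Real.div_rpow hm0.le (by linarith), hm1a]
      exact div_le_div_of_nonneg_left (by positivity) (by linarith) h144
    have h3 := (hdens (Y ∪ X)).trans (mul_le_mul_of_nonneg_left (h1.trans h2) hγp.le)
    have h4 := hE1.trans (mul_le_mul_of_nonneg_left h3 (by linarith))
    have h5 : 3 * (l : ℝ) * (γ * (m ^ α * m / (12 * l))) = γ * m ^ α * m / 4 := by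
      field_simp
      ring
    rw [hD]
    linarith
  have hS1 : D * m / 2 ≤ sg G (S0 \ X) := by
    have h1 : (sg G S0 : ℝ) ≤ sg G (S0 \ X) + 2 * E := by exact_mod_cast sg_sdiff_le hXS
    linarith
  let f : Finset V → ℝ := fun S => sg G S - 2 * (D / 8) * S.card
  obtain ⟨T, hT, hTmax⟩ := Finset.exists_max_image (S0 \ X).powerset f ⟨S0 \ X, by simp⟩
  have hTs : T ⊆ S0 \ X := Finset.mem_powerset.1 hT
  have hTS : T ⊆ S0 := hTs.trans Finset.sdiff_subset
  have hTm : (T.card : ℝ) ≤ m := by rw [hm]; exact_mod_cast Finset.card_le_card hTS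
  have hmap : (univ : Finset {x // x ∈ T}).map (Function.Embedding.subtype (· ∈ T)) = T := by
    ext x; simp
  have hnb : ∀ x : {x // x ∈ T},
      (nb (G.comap (Function.Embedding.subtype (· ∈ T))) x).card = dg G T x := by
    intro x
    have h1 := rega_dg_comap G (Function.Embedding.subtype (· ∈ T)) univ x
    rw [hmap] at h1
    rw [← show _ = dg G T x from h1, nb, dg]
  have hTne : T.Nonempty := by
    rw [Finset.nonempty_iff_ne_empty]
    rintro rfl
    have h1 := hTmax (S0 \ X) (by simp)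
    have h2 : ((S0 \ X).card : ℝ) ≤ m := by
      rw [hm]; exact_mod_cast Finset.card_le_card Finset.sdiff_subset
    simp only [f, sg, Finset.sum_empty, Finset.card_empty] at h1
    simp only [sg] at hS1
    have h3 := mul_le_mul_of_nonneg_left h2 hDn
    have h4 : 0 < D * m := by positivity
    push_cast at h1 hS1
    linarith
  refine ⟨T, D / 8, ⟨hTne.to_subtype, fun v => ?_, fun v => ?_⟩, ?_⟩
  · obtain ⟨x, hx⟩ := v
    rw [hnb]
    have h1 := hTmax (T.erase x) (Finset.mem_powerset.2 ((Finset.erase_subset x T).trans hTs))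
    simp only [f] at h1
    have h2 : (sg G T : ℝ) ≤ sg G (T.erase x) + 2 * dg G T x := by exact_mod_cast sg_erase_le hx
    rw [← Finset.card_erase_add_one hx] at h1
    push_cast at h1
    show D / 8 ≤ (dg G T x : ℝ)
    linarith
  · obtain ⟨x, hx⟩ := v
    rw [hnb]
    have h1 := Finset.mem_sdiff.1 (hTs hx)
    have h2 : (dg G S0 x : ℝ) ≤ 3 * l * D := not_lt.1 fun h => h1.2 (Finset.mem_filter.2 ⟨h1.1, h⟩)
    have h3 : (dg G T x : ℝ) ≤ dg G S0 x := by exact_mod_cast dg_mono hTS x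
    show (dg G T x : ℝ) ≤ 24 * l * (D / 8)
    linarith
  · have h1 : (T.card : ℝ) ^ α ≤ m ^ α :=
      Real.rpow_le_rpow (Nat.cast_nonneg _) hTm (by linarith)
    have h2 : D₀ * (T.card : ℝ) ^ α ≤ γ * m ^ α :=
      mul_le_mul hγ0 h1 (Real.rpow_nonneg (Nat.cast_nonneg _) _) hγp.le
    rw [hD]
    linarith

theorem regAll {α : ℝ} (hα : 0 < α) : ∃ K : ℝ, 1 ≤ K ∧
    ∀ (V : Type) [Fintype V] [Nonempty V] (G : SimpleGraph V) (D₀ : ℝ), K ≤ D₀ →
      D₀ * (Fintype.card V : ℝ) ^ (1 + α) ≤ sg G univ → ∃ (T : Finset V) (d : ℝ),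
        Host (G.comap (Function.Embedding.subtype (· ∈ T))) d (K * d) ∧
        D₀ / 8 * (T.card : ℝ) ^ α ≤ d := by
  obtain ⟨l, hl⟩ : ∃ l : ℕ, (12 : ℝ) ^ α⁻¹ ≤ l := exists_nat_ge _
  have h0 : (0 : ℝ) < (12 : ℝ) ^ α⁻¹ := by positivity
  have hl0 : 0 < l := by exact_mod_cast h0.trans_le hl
  have hl1 : (1 : ℝ) ≤ l := by exact_mod_cast hl0
  have h12 : 12 ≤ (l : ℝ) ^ α := by
    have h1 := Real.rpow_le_rpow h0.le hl hα.le
    rwa [Real.rpow_inv_rpow (by norm_num) hα.ne'] at h1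
  exact ⟨24 * l, by linarith, fun V _ _ G D₀ h1 h2 =>
    regAll_aux G hα hl0 h12 (by linarith) h2⟩

end Pool.Agent.Lib.MP_befe0b_co.BC
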