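import Pool.Agent.Lib.MP_befe0b_co.RX.Light
import Pool.Agent.Lib.MP_befe0b_co.RX.Heavy
import Pool.Agent.Lib.MP_befe0b_co.RX.RegAll

/-! The exponent of the subdivision with two apexes. -/

open Finset SimpleGraph
open scoped Classical

noncomputable section

namespace Pool.Agent.Lib.MP_befe0b_co.RX

open Pool.Agent.Lib.MP_befe0b_co.BC

theorem step_heavy {W : Type} [Fintype W] (H : SimpleGraph W) (col : W → Bool) (hp : Prp H col)
    (k : ℕ) {K ε : ℝ} (hK : 1 ≤ K) (hε : 0 < ε) (B : ℕ) : ∃ (B' : ℕ) (d₀ : ℝ),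
    ∀ (M : ℕ → ℕ) (j : ℕ), 1 ≤ M 0 → 1 ≤ j → j ≤ k → (∀ l ≤ j, M l ≤ B) → B' ≤ M (j + 1) →
      ∀ (V : Type) [Fintype V] (G : SimpleGraph V) (d : ℝ), Host G d (K * d) → d₀ ≤ d →
        ε * Fintype.card V * d ^ (j + 1) ≤ (Hw G M j).card → plus H col k ⊑ G := by
  obtain ⟨T, hT⟩ := core_embed H col hp k
  obtain ⟨B', d₀, h⟩ := heavy_core k B T hK hε
  refine ⟨max B' (T * (k * (B * B))), d₀, fun M j h0 h1 hj hB hB' V _ G d hG hd hH => ?_⟩
  obtain ⟨z, Bs, X, Y, a1, a2, a3, a4, a5, a6⟩ :=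
    h M j h0 h1 hj hB (le_trans (le_max_left _ _) hB') V G d hG hd hH
  refine hT j hj V G z Bs X Y a1 a2 a3 a4 a5 fun x hx b hb => heavy_link h0 hB ?_ (a6 x hx b hb)
  exact (Nat.mul_le_mul_left T (Nat.mul_le_mul_right _ hj)).trans ((le_max_right _ _).trans hB')

theorem step_host {W : Type} [Fintype W] (H : SimpleGraph W) (col : W → Bool) (hp : Prp H col)
    (hc : H.Connected) (hiso : ∀ w, ∃ w', H.Adj w w') (k : ℕ) {α C₀ K : ℝ} (hα : 0 ≤ α)
    (hK : 1 ≤ K) (hex : ∀ m : ℕ, (extremalNumber m H : ℝ) ≤ C₀ * (m : ℝ) ^ (1 + α)) :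
    ∃ C₁ d₀ : ℝ, ∀ (V : Type) [Fintype V] (G : SimpleGraph V) (d : ℝ), Host G d (K * d) →
      d₀ ≤ d → C₁ * Fintype.card V * d ^ (1 + α) ≤ d ^ (k + 3) → plus H col k ⊑ G := by
  obtain ⟨ε, d₁, hε, hm⟩ := many_full k hK
  choose g dd hg using step_heavy H col hp k hK hε
  let M : ℕ → ℕ := fun l => Nat.rec 1 (fun _ m => max m (g m)) l
  have hM : ∀ l, M (l + 1) = max (M l) (g (M l)) := fun _ => rfl
  have hmono : Monotone M := monotone_nat_of_le_succ fun l => by rw [hM]; exact le_max_left _ _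
  have h0 : 1 ≤ M 0 := le_rfl
  obtain ⟨C₁, hC⟩ := light H col hp hc hiso k (M (k + 1)) hα hK hex
  refine ⟨2 * C₁, max 1 (max d₁ (∑ j ∈ range (k + 1), |dd (M j)|)), fun V _ G d hG hd hn => ?_⟩
  have hd1 : 1 ≤ d := (le_max_left _ _).trans hd
  have hd2 : d₁ ≤ d := (le_max_left _ _).trans ((le_max_right _ _).trans hd)
  have hd3 : ∑ j ∈ range (k + 1), |dd (M j)| ≤ d :=
    (le_max_right _ _).trans ((le_max_right _ _).trans hd)
  by_cases hh : ∃ j, 1 ≤ j ∧ j ≤ k ∧ ε * Fintype.card V * d ^ (j + 1) ≤ (Hw G M j).card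
  · obtain ⟨j, h1, h2, h3⟩ := hh
    refine hg (M j) M j h0 h1 h2 (fun l hl => hmono hl) (by rw [hM]; exact le_max_right _ _)
      V G d hG ?_ h3
    exact (le_abs_self _).trans ((single_le_sum (f := fun j => |dd (M j)|)
      (fun _ _ => abs_nonneg _) (mem_range.2 (by omega))).trans hd3)
  have h1 := hm M (fun l => h0.trans (hmono (Nat.zero_le l))) V G d hG hd2 fun j a b =>
    le_of_not_ge fun c => hh ⟨j, a, b, c⟩
  obtain ⟨F, hF⟩ : ∃ F, F = (Wk G (k + 3)).filter (Full G M k) := ⟨_, rfl⟩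
  rw [← hF] at h1
  have hn1 := hG.one_le
  have hne : F.Nonempty := by
    refine card_pos.1 (Nat.cast_pos.1 (lt_of_lt_of_le ?_ h1))
    positivity
  obtain ⟨x, -, hx⟩ := exists_fibre F (fun y => (y 0, y (k + 3))) hne
  have h2 : (F.image fun y => (y 0, y (k + 3))).card ≤ Fintype.card V * Fintype.card V := by
    rw [← Fintype.card_prod]
    exact card_le_univ _
  obtain ⟨E, hE⟩ : ∃ E, E = F.filter fun y => y 0 = x 0 ∧ y (k + 3) = x (k + 3) := ⟨_, rfl⟩
  have h3 : F.card ≤ Fintype.card V * Fintype.card V * E.card := by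
    refine hx.trans (Nat.mul_le_mul (le_trans (le_of_eq ?_) h2) (card_le_card fun y hy => ?_))
    · exact congrArg Finset.card (Finset.ext fun z => by simp only [mem_image])
    · simp only [mem_filter, Prod.mk.injEq] at hy
      rw [hE]
      exact mem_filter.2 hy
  refine hC M h0 (fun l hl => hmono hl) V G d hG hd1 (x 0) (x (k + 3)) E (fun y hy => ?_) ?_
  · rw [hE, mem_filter, hF, mem_filter] at hy
    exact ⟨hy.1.1, hy.1.2, hy.2⟩
  · have h4 : (F.card : ℝ) ≤ Fintype.card V * Fintype.card V * E.card := by exact_mod_cast h3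
    have h5 : (0 : ℝ) < Fintype.card V * Fintype.card V := by positivity
    refine le_of_mul_le_mul_left ?_ h5
    have h6 := mul_le_mul_of_nonneg_left hn (show (0 : ℝ) ≤ Fintype.card V by linarith)
    linarith

theorem step {W : Type} [Fintype W] (H : SimpleGraph W) (col : W → Bool) (hp : Prp H col)
    (hc : H.Connected) (hiso : ∀ w, ∃ w', H.Adj w w') (k : ℕ) {α C₀ : ℝ} (hα : 0 ≤ α)
    (hα1 : α < 1) (hex : ∀ m : ℕ, (extremalNumber m H : ℝ) ≤ C₀ * (m : ℝ) ^ (1 + α)) :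
    ∃ C : ℝ, ∀ n : ℕ,
      (extremalNumber n (plus H col k) : ℝ) ≤ C * (n : ℝ) ^ (1 + 1 / (k + 2 - α)) := by
  obtain ⟨β, hβ⟩ : ∃ β : ℝ, β = k + 2 - α := ⟨_, rfl⟩
  have hβ1 : 1 ≤ β := by
    have : (0 : ℝ) ≤ k := Nat.cast_nonneg k
    linarith
  rw [← hβ]
  obtain ⟨K, hK, hreg⟩ := regAll (α := 1 / β) (by positivity)
  obtain ⟨C₁, d₀, hh⟩ := step_host H col hp hc hiso k hα hK hex
  obtain ⟨C, hC⟩ : ∃ C : ℝ, C = K + |C₁| + |d₀| := ⟨_, rfl⟩
  have c1 := abs_nonneg C₁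
  have c2 := abs_nonneg d₀
  have c3 := le_abs_self C₁
  have c4 := le_abs_self d₀
  have hC1 : 1 ≤ C := by linarith
  refine ⟨4 * C, fun n => ?_⟩
  conv_lhs => rw [← Fintype.card_fin n]
  rw [SimpleGraph.extremalNumber_le_iff_of_nonneg _ (by positivity)]
  intro G _ hfree
  by_contra hlt
  rw [not_le] at hlt
  rcases Nat.eq_zero_or_pos n with rfl | hn
  · have h1 := G.card_edgeFinset_le_card_choose_two
    simp only [Fintype.card_fin, Nat.choose_zero_succ, nonpos_iff_eq_zero] at h1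
    rw [h1] at hlt
    exact absurd hlt (not_lt.2 (by push_cast; positivity))
  have : Nonempty (Fin n) := ⟨⟨0, hn⟩⟩
  have hsg : (sg G univ : ℝ) = 2 * G.edgeFinset.card := by
    have h1 : ∀ (i1 i2 : Fintype G.edgeSet),
        (@SimpleGraph.edgeFinset _ G i1).card = (@SimpleGraph.edgeFinset _ G i2).card := by
      intro i1 i2
      rw [Subsingleton.elim i1 i2]
    have : sg G univ = 2 * G.edgeFinset.card := (sg_univ G).trans (congrArg (2 * ·) (h1 _ _))
    exact_mod_cast this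
  have hG : 8 * C * (Fintype.card (Fin n) : ℝ) ^ (1 + 1 / β) ≤ sg G univ := by
    rw [Fintype.card_fin, hsg]
    linarith
  obtain ⟨T, d, hH, hd⟩ := hreg (Fin n) G (8 * C) (by linarith) hG
  have hn1 := hH.one_le
  rw [← Fintype.card_coe T] at hd
  obtain ⟨t, ht⟩ : ∃ t : ℝ, t = Fintype.card T := ⟨_, rfl⟩
  rw [← ht] at hd hn1
  have h1 : 1 ≤ t ^ (1 / β) := Real.one_le_rpow hn1 (by positivity)
  have hd' : C * t ^ (1 / β) ≤ d := by linarith
  have hdC : C ≤ d := (le_mul_of_one_le_right (by linarith) h1).trans hd'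
  have hd0 : 0 < d := by linarith
  have h2 : C * t ≤ d ^ β := by
    have h3 := Real.rpow_le_rpow (by positivity) hd' (show 0 ≤ β by linarith)
    rw [Real.mul_rpow (by linarith) (by positivity), ← Real.rpow_mul (by linarith),
      one_div_mul_cancel (by positivity), Real.rpow_one] at h3
    have h4 : C ≤ C ^ β := by
      have := Real.rpow_le_rpow_of_exponent_le hC1 hβ1
      rwa [Real.rpow_one] at this
    exact (mul_le_mul_of_nonneg_right h4 (by linarith)).trans h3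
  have h3 : d ^ (k + 3) = d ^ β * d ^ (1 + α) := by
    rw [← Real.rpow_add hd0, ← Real.rpow_natCast]
    congr 1
    rw [hβ]
    push_cast
    ring
  refine hfree ((hh _ _ d hH (by linarith) ?_).trans ⟨(SimpleGraph.Embedding.comap _ G).toCopy⟩)
  rw [h3, ← ht]
  refine mul_le_mul_of_nonneg_right (le_trans ?_ h2) (by positivity)
  exact mul_le_mul_of_nonneg_right (by linarith) (by linarith)

end Pool.Agent.Lib.MP_befe0b_co.RX
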