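import Pool.Agent.Lib.MP_befe0b_co.RX.Walk

/-! Thinning a family of full paths with common ends. -/

open Finset SimpleGraph
open scoped Classical

noncomputable section

namespace Pool.Agent.Lib.MP_befe0b_co.RX

open Pool.Agent.Lib.MP_befe0b_co.BC

variable {V : Type} [Fintype V] {G : SimpleGraph V}

theorem indep {α : Type} (F : Finset α) (c : α → α → Prop) (hc : ∀ x y, c x y → c y x) (Δ : ℕ)
    (h : ∀ x ∈ F, (F.filter (c x)).card ≤ Δ) :
    ∃ F' ⊆ F, F.card ≤ (Δ + 1) * F'.card ∧ ∀ x ∈ F', ∀ y ∈ F', x ≠ y → ¬ c x y := by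
  induction F using Finset.strongInduction with
  | H F ih =>
  rcases F.eq_empty_or_nonempty with rfl | ⟨x, hx⟩
  · exact ⟨∅, subset_rfl, by simp, by simp⟩
  have hs : (F.filter fun y => y ≠ x ∧ ¬ c x y) ⊂ F :=
    (ssubset_iff_of_subset (filter_subset _ _)).2 ⟨x, hx, by simp⟩
  obtain ⟨F', h1, h2, h3⟩ := ih _ hs fun y hy =>
    (card_le_card (filter_subset_filter _ hs.subset)).trans (h y (hs.subset hy))
  have hx' : x ∉ F' := fun k => (mem_filter.1 (h1 k)).2.1 rfl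
  refine ⟨insert x F', insert_subset hx (h1.trans hs.subset), ?_, ?_⟩
  · have h4 : F ⊆ insert x ((F.filter fun y => y ≠ x ∧ ¬ c x y) ∪ F.filter (c x)) := by
      intro y hy
      by_cases k1 : y = x
      · exact k1 ▸ mem_insert_self _ _
      · refine mem_insert_of_mem (mem_union.2 ?_)
        by_cases k2 : c x y
        · exact Or.inr (mem_filter.2 ⟨hy, k2⟩)
        · exact Or.inl (mem_filter.2 ⟨hy, k1, k2⟩)
    have h5 := (card_le_card h4).trans (card_insert_le _ _)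
    have h6 := card_union_le (F.filter fun y => y ≠ x ∧ ¬ c x y) (F.filter (c x))
    have h7 := h x hx
    rw [card_insert_of_notMem hx', Nat.mul_succ]
    omega
  · intro y hy z hz hyz
    rcases mem_insert.1 hy with rfl | hy'
    · rcases mem_insert.1 hz with rfl | hz'
      · exact absurd rfl hyz
      · exact (mem_filter.1 (h1 hz')).2.2
    · rcases mem_insert.1 hz with rfl | hz'
      · exact fun k => (mem_filter.1 (h1 hy')).2.2 (hc _ _ k)
      · exact h3 y hy' z hz' hyz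

theorem Thin_quarter {a b : V} (hab : a ≠ b) :
    (univ : Finset (Finset V)).card ≤
      4 * ((univ : Finset (Finset V)).filter fun Y => a ∈ Y ∧ b ∉ Y).card := by
  refine card_le_mul_card_image_of_maps_to (f := fun Y => (insert a Y).erase b) ?_ 4 ?_
  · intro Y _
    simp [hab]
  · intro Y _
    refine le_trans (card_le_card (t := {Y, Y.erase a, insert b Y, insert b (Y.erase a)}) ?_)
      card_le_four
    intro X hX
    have e : (insert a X).erase b = Y := (mem_filter.1 hX).2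
    subst e
    simp only [mem_insert, mem_singleton]
    by_cases ha : a ∈ X <;> by_cases hb : b ∈ X
    · refine Or.inr (Or.inr (Or.inl ?_))
      rw [insert_eq_of_mem ha, insert_erase hb]
    · refine Or.inl ?_
      rw [insert_eq_of_mem ha, erase_eq_of_notMem hb]
    · refine Or.inr (Or.inr (Or.inr ?_))
      rw [erase_right_comm, erase_insert ha, insert_erase hb]
    · refine Or.inr (Or.inl ?_)
      rw [erase_right_comm, erase_insert ha, erase_eq_of_notMem hb]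

theorem cut {α : Type} (F : Finset α) (f g : α → V) (h : ∀ x ∈ F, f x ≠ g x) :
    ∃ Y : Finset V, F.card ≤ 4 * (F.filter fun x => f x ∈ Y ∧ g x ∉ Y).card := by
  have key : ∑ _Y : Finset V, F.card ≤
      ∑ Y : Finset V, 4 * (F.filter fun x => f x ∈ Y ∧ g x ∉ Y).card := by
    calc ∑ _Y : Finset V, F.card = ∑ _x ∈ F, (univ : Finset (Finset V)).card := by
          simp [mul_comm]
      _ ≤ ∑ x ∈ F, 4 * ((univ : Finset (Finset V)).filter fun Y => f x ∈ Y ∧ g x ∉ Y).card :=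
          sum_le_sum fun x hx => Thin_quarter (h x hx)
      _ = ∑ Y : Finset V, 4 * (F.filter fun x => f x ∈ Y ∧ g x ∉ Y).card := by
          simp only [card_filter, mul_sum]
          exact sum_comm
  obtain ⟨Y, -, hY⟩ := exists_le_of_sum_le univ_nonempty key
  exact ⟨Y, hY⟩

theorem Thin_thru {M : ℕ → ℕ} (h0 : 1 ≤ M 0) {k B : ℕ} (hB : ∀ l ≤ k + 1, M l ≤ B) {r₁ r₂ : V}
    {F : Finset (ℕ → V)}
    (hF : ∀ x ∈ F, x ∈ Wk G (k + 3) ∧ Full G M k x ∧ x 0 = r₁ ∧ x (k + 3) = r₂)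
    {t : ℕ} (h2 : 2 ≤ t) (ht : t ≤ k + 1) (w : V) :
    (F.filter fun x => x t = w).card ≤ B * B := by
  refine (thru_card (G := G) h0 (N := k + 3) (i := t) (by omega) r₁ w r₂ _ ?_).trans
    (Nat.mul_le_mul (hB _ ht) (hB _ (by omega)))
  intro y hy
  obtain ⟨hy1, hy2⟩ := mem_filter.1 hy
  obtain ⟨a1, a2, a3, a4⟩ := hF y hy1
  refine ⟨a1, a3, hy2, a4, ?_, ?_⟩
  · exact ((a2.gd 0 (by omega)).win (i := 0) (l := t) (by omega)).congr fun s _ => by
      simp [sh]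
  · refine ((a2.gd 2 le_rfl).win (i := t - 2) (l := k + 3 - t) (by omega)).congr fun s _ => ?_
    simp only [sh]
    congr 1
    omega

theorem Thin_ends {M : ℕ → ℕ} (h0 : 1 ≤ M 0) {k B : ℕ} (hB : ∀ l ≤ k + 1, M l ≤ B) {r₁ r₂ : V}
    {F : Finset (ℕ → V)}
    (hF : ∀ x ∈ F, x ∈ Wk G (k + 3) ∧ Full G M k x ∧ x 0 = r₁ ∧ x (k + 3) = r₂) (a b : V) :
    (F.filter fun x => a = x 1 ∧ b = x (k + 2)).card ≤ B := by
  have hinj : Set.InjOn (fun y : ℕ → V => tr (k + 1) (sh y 1))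
      (F.filter fun x => a = x 1 ∧ b = x (k + 2) : Finset (ℕ → V)) := by
    intro x hx y hy e
    obtain ⟨a1, -, a3, a4⟩ := hF x (mem_filter.1 (mem_coe.1 hx)).1
    obtain ⟨b1, -, b3, b4⟩ := hF y (mem_filter.1 (mem_coe.1 hy)).1
    refine Wk_ext a1 b1 fun t ht => ?_
    rcases Nat.eq_zero_or_pos t with rfl | h1
    · rw [a3, b3]
    rcases eq_or_lt_of_le ht with rfl | h2
    · rw [a4, b4]
    have e1 := congrFun e (t - 1)
    simp only [tr, sh] at e1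
    rwa [show 1 + min (t - 1) (k + 1) = t by omega] at e1
  rw [← card_image_of_injOn hinj]
  refine (gd_card (G := G) h0 (k + 1) a b _ ?_).trans (hB _ le_rfl)
  intro z hz
  obtain ⟨y, hy, rfl⟩ := mem_image.1 hz
  obtain ⟨hy1, hy2, hy3⟩ := mem_filter.1 hy
  obtain ⟨a1, a2, -, -⟩ := hF y hy1
  refine ⟨win_mem a1 (by omega), (a2.gd 1 (by omega)).congr fun s hs => ?_, ?_, ?_⟩
  · simp only [tr, min_eq_left hs]
  · simp [tr, sh, hy2]
  · simp only [tr, sh, min_self, hy3]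
    congr 1
    omega

theorem thin {M : ℕ → ℕ} (h0 : 1 ≤ M 0) {k B : ℕ} (hB : ∀ l ≤ k + 1, M l ≤ B) (r₁ r₂ : V)
    (Z : Finset V) (F : Finset (ℕ → V))
    (hF : ∀ x ∈ F, x ∈ Wk G (k + 3) ∧ Full G M k x ∧ x 0 = r₁ ∧ x (k + 3) = r₂) :
    ∃ F' ⊆ F, ∃ Y : Finset V,
      F.card ≤ 4 * (k * k * (B * B) + B + 1) * F'.card + Z.card * (k * (B * B)) ∧
      (∀ x ∈ F', x 1 ∈ Y ∧ x (k + 2) ∉ Y ∧ ∀ t, 2 ≤ t → t ≤ k + 1 → x t ∉ Z) ∧
      ∀ x ∈ F', ∀ y ∈ F', x ≠ y → ¬ (x 1 = y 1 ∧ x (k + 2) = y (k + 2)) ∧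
        ∀ t t', 2 ≤ t → t ≤ k + 1 → 2 ≤ t' → t' ≤ k + 1 → x t ≠ y t' := by
  have hI : (Icc 2 (k + 1)).card = k := by simp
  obtain ⟨F₁, hF₁⟩ : ∃ F₁ : Finset (ℕ → V),
      ∀ x, x ∈ F₁ ↔ x ∈ F ∧ ∀ t, 2 ≤ t → t ≤ k + 1 → x t ∉ Z :=
    ⟨@Finset.filter _ _ (fun _ => Classical.propDecidable _) F,
      fun _ => @mem_filter _ _ (fun _ => Classical.propDecidable _) _ _⟩
  have c1 : F.card ≤ F₁.card + Z.card * (k * (B * B)) := by
    have s1 : F ⊆ F₁ ∪ Z.biUnion fun z => (Icc 2 (k + 1)).biUnion fun t =>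
        F.filter fun x => x t = z := by
      intro x hx
      by_cases h : ∀ t, 2 ≤ t → t ≤ k + 1 → x t ∉ Z
      · exact mem_union_left _ ((hF₁ x).2 ⟨hx, h⟩)
      · push Not at h
        obtain ⟨t, t1, t2, t3⟩ := h
        exact mem_union_right _ (mem_biUnion.2 ⟨_, t3, mem_biUnion.2
          ⟨t, mem_Icc.2 ⟨t1, t2⟩, mem_filter.2 ⟨hx, rfl⟩⟩⟩)
    refine (card_le_card s1).trans ((card_union_le _ _).trans (Nat.add_le_add_left ?_ _))
    refine card_biUnion_le_card_mul _ _ _ fun z _ => ?_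
    refine (card_biUnion_le_card_mul _ _ (B * B) fun t ht => ?_).trans (by rw [hI])
    exact Thin_thru h0 hB hF (mem_Icc.1 ht).1 (mem_Icc.1 ht).2 z
  have s₁ : F₁ ⊆ F := fun x hx => ((hF₁ x).1 hx).1
  obtain ⟨Y, c2⟩ := cut F₁ (fun x => x 1) (fun x => x (k + 2)) fun x hx e => by
    have := (hF x (s₁ hx)).2.1.inj (show (1 : ℕ) ∈ Set.Iic (k + 3) by simp)
      (show k + 2 ∈ Set.Iic (k + 3) by simp) e
    omega
  set F₂ := F₁.filter fun x => x 1 ∈ Y ∧ x (k + 2) ∉ Y with hF₂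
  have s₂ : F₂ ⊆ F₁ := filter_subset _ _
  have hF2 : ∀ x ∈ F₂, x ∈ Wk G (k + 3) ∧ Full G M k x ∧ x 0 = r₁ ∧ x (k + 3) = r₂ :=
    fun x hx => hF x (s₁ (s₂ hx))
  obtain ⟨F', s₃, c3, c4⟩ := indep F₂
    (fun x y => (x 1 = y 1 ∧ x (k + 2) = y (k + 2)) ∨
      ∃ t t', 2 ≤ t ∧ t ≤ k + 1 ∧ 2 ≤ t' ∧ t' ≤ k + 1 ∧ x t = y t')
    (by
      rintro x y (h | ⟨t, t', t1, t2, t3, t4, t5⟩)
      · exact Or.inl ⟨h.1.symm, h.2.symm⟩
      · exact Or.inr ⟨t', t, t3, t4, t1, t2, t5.symm⟩)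
    (k * k * (B * B) + B) (by
      intro x _
      refine le_trans (card_le_card (t := ((Icc 2 (k + 1)).biUnion fun t =>
        (Icc 2 (k + 1)).biUnion fun t' => F₂.filter fun y => y t' = x t) ∪
          F₂.filter fun y => x 1 = y 1 ∧ x (k + 2) = y (k + 2)) ?_) ?_
      · intro y hy
        obtain ⟨hy1, hy2⟩ := (@mem_filter _ _ (fun _ => Classical.propDecidable _) _ _).1 hy
        rcases hy2 with h | ⟨t, t', t1, t2, t3, t4, t5⟩
        · exact mem_union_right _ (mem_filter.2 ⟨hy1, h⟩)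
        · exact mem_union_left _ (mem_biUnion.2 ⟨t, mem_Icc.2 ⟨t1, t2⟩, mem_biUnion.2
            ⟨t', mem_Icc.2 ⟨t3, t4⟩, mem_filter.2 ⟨hy1, t5.symm⟩⟩⟩)
      · refine (card_union_le _ _).trans (Nat.add_le_add ?_ (Thin_ends h0 hB hF2 _ _))
        refine (card_biUnion_le_card_mul _ _ (k * (B * B)) fun t _ => ?_).trans
          (by rw [hI, mul_assoc])
        refine (card_biUnion_le_card_mul _ _ (B * B) fun t' ht' => ?_).trans (by rw [hI])
        exact Thin_thru h0 hB hF2 (mem_Icc.1 ht').1 (mem_Icc.1 ht').2 _)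
  refine ⟨F', s₃.trans (s₂.trans s₁), Y, ?_, ?_, ?_⟩
  · refine c1.trans (Nat.add_le_add_right (c2.trans ?_) _)
    rw [mul_assoc]
    exact Nat.mul_le_mul_left _ c3
  · intro x hx
    have a1 := mem_filter.1 (s₃ hx)
    exact ⟨a1.2.1, a1.2.2, ((hF₁ x).1 a1.1).2⟩
  · intro x hx y hy hxy
    have a1 := c4 x hx y hy hxy
    exact ⟨fun h => a1 (Or.inl h), fun t t' t1 t2 t3 t4 e =>
      a1 (Or.inr ⟨t, t', t1, t2, t3, t4, e⟩)⟩

end Pool.Agent.Lib.MP_befe0b_co.RX
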