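import Pool.Agent.Lib.MP_befe0b_co.RX.Defs

/-! Good walks: windows, counts between two ends, heavy pairs. -/

open Finset SimpleGraph
open scoped Classical

noncomputable section

namespace Pool.Agent.Lib.MP_befe0b_co.RX

open Pool.Agent.Lib.MP_befe0b_co.BC

variable {V : Type} [Fintype V] {G : SimpleGraph V}

theorem Gd.congr {M : ℕ → ℕ} {j : ℕ} {x y : ℕ → V} (h : Gd G M j x) (e : ∀ t ≤ j, x t = y t) :
    Gd G M j y := by
  induction j generalizing x y with
  | zero => trivial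
  | succ j ih =>
    obtain ⟨⟨h1, h2, h3⟩, h4⟩ := gd_succ.1 h
    have e0 := e 0 (Nat.zero_le _)
    have e1 := e (j + 1) le_rfl
    refine gd_succ.2 ⟨⟨ih h1 fun t ht => e t (by omega),
      ih h2 fun t ht => e (1 + t) (by omega), ?_⟩, ?_⟩
    · rw [← e0, ← e1]; exact h3
    · rw [← e0, ← e1]; exact h4

theorem Gd.win {M : ℕ → ℕ} {j i l : ℕ} {x : ℕ → V} (h : Gd G M j x) (hl : i + l ≤ j) :
    Gd G M l (sh x i) := by
  induction j generalizing x i with
  | zero =>
    obtain rfl : l = 0 := by omega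
    trivial
  | succ j ih =>
    obtain ⟨⟨h1, h2, -⟩, -⟩ := gd_succ.1 h
    rcases Nat.eq_zero_or_pos i with rfl | hi
    · rcases Nat.lt_or_ge l (j + 1) with h' | h'
      · exact ih h1 (by omega)
      · obtain rfl : l = j + 1 := by omega
        exact h.congr fun t _ => by simp only [sh, zero_add]
    · refine (ih (i := i - 1) h2 (by omega)).congr fun t _ => ?_
      simp only [sh]
      exact congrArg x (by omega)

theorem Gd.inj {M : ℕ → ℕ} {j : ℕ} {x : ℕ → V} (h : Gd G M j x) : Set.InjOn x (Set.Iic j) := by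
  have key : ∀ s t, s < t → t ≤ j → x s ≠ x t := fun s t hst ht => by
    obtain ⟨d, rfl⟩ : ∃ d, t = s + (d + 1) := ⟨t - s - 1, by omega⟩
    exact (gd_succ.1 (h.win (i := s) (l := d + 1) ht)).1.2.2
  intro s hs t ht e
  rcases lt_trichotomy s t with h' | h' | h'
  · exact absurd e (key s t h' ht)
  · exact h'
  · exact absurd e.symm (key t s h' hs)

theorem Ad.congr {M : ℕ → ℕ} {j : ℕ} {x y : ℕ → V} (h : Ad G M j x)
    (e : ∀ t ≤ j + 1, x t = y t) : Ad G M j y := by
  refine ⟨h.1.congr fun t ht => e t (by omega), h.2.1.congr fun t ht => e (1 + t) (by omega), ?_⟩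
  rw [← e 0 (Nat.zero_le _), ← e (j + 1) le_rfl]
  exact h.2.2

theorem Ad.win {M : ℕ → ℕ} {j i l : ℕ} {x : ℕ → V} (h : Ad G M j x) (hl : i + l ≤ j + 1)
    (hj : l ≤ j) : Gd G M l (sh x i) := by
  rcases Nat.eq_zero_or_pos i with rfl | hi
  · exact h.1.win (by omega)
  · refine (h.2.1.win (i := i - 1) (by omega)).congr fun t _ => ?_
    simp only [sh]
    exact congrArg x (by omega)

theorem Ad.inj {M : ℕ → ℕ} {j : ℕ} {x : ℕ → V} (h : Ad G M j x) :
    Set.InjOn x (Set.Iic (j + 1)) := by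
  have key : ∀ s t, s < t → t ≤ j + 1 → x s ≠ x t := fun s t hst ht => by
    obtain ⟨d, rfl⟩ : ∃ d, t = s + (d + 1) := ⟨t - s - 1, by omega⟩
    rcases Nat.lt_or_ge d j with h' | h'
    · exact (gd_succ.1 (h.win (i := s) (l := d + 1) ht h')).1.2.2
    · obtain rfl : s = 0 := by omega
      obtain rfl : d = j := by omega
      rw [zero_add]
      exact h.2.2
  intro s hs t ht e
  rcases lt_trichotomy s t with h' | h' | h'
  · exact absurd e (key s t h' ht)
  · exact h'
  · exact absurd e.symm (key t s h' hs)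

/-- Few good walks join two vertices. -/
theorem gd_card {M : ℕ → ℕ} (h0 : 1 ≤ M 0) (l : ℕ) (u v : V) (F : Finset (ℕ → V))
    (hF : ∀ y ∈ F, y ∈ Wk G l ∧ Gd G M l y ∧ y 0 = u ∧ y l = v) : F.card ≤ M l := by
  cases l with
  | zero =>
    refine le_trans (card_le_one.2 fun a ha b hb => ?_) h0
    refine Wk_ext (hF a ha).1 (hF b hb).1 fun t ht => ?_
    obtain rfl : t = 0 := by omega
    rw [(hF a ha).2.2.1, (hF b hb).2.2.1]
  | succ l =>
    rcases F.eq_empty_or_nonempty with rfl | ⟨x, hx⟩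
    · simp
    · obtain ⟨-, h1, h2, h3⟩ := hF x hx
      have h4 := (gd_succ.1 h1).2
      rw [h2, h3] at h4
      refine le_trans (card_le_card fun y hy => ?_) h4
      obtain ⟨a1, a2, a3, a4⟩ := hF y hy
      exact mem_Pa.2 ⟨a1, (gd_succ.1 a2).1, a3, a4⟩

/-- Few walks pass through three given vertices when both halves are good. -/
theorem thru_card {M : ℕ → ℕ} (h0 : 1 ≤ M 0) {N i : ℕ} (hi : i ≤ N) (u w v : V)
    (F : Finset (ℕ → V))
    (hF : ∀ y ∈ F, y ∈ Wk G N ∧ y 0 = u ∧ y i = w ∧ y N = v ∧ Gd G M i y ∧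
      Gd G M (N - i) (sh y i)) : F.card ≤ M i * M (N - i) := by
  have h1 : (F.image fun y => tr i (sh y 0)).card ≤ M i := by
    refine gd_card (G := G) h0 i u w _ fun z hz => ?_
    obtain ⟨y, hy, rfl⟩ := mem_image.1 hz
    obtain ⟨a1, a2, a3, -, a5, -⟩ := hF y hy
    refine ⟨win_mem a1 (by omega), a5.congr fun t ht => ?_, ?_, ?_⟩
    · simp only [tr, sh, zero_add, min_eq_left ht]
    · simpa only [tr, sh, zero_add, Nat.zero_min] using a2
    · simpa only [tr, sh, zero_add, min_self] using a3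
  have h2 : (F.image fun y => tr (N - i) (sh y i)).card ≤ M (N - i) := by
    refine gd_card (G := G) h0 (N - i) w v _ fun z hz => ?_
    obtain ⟨y, hy, rfl⟩ := mem_image.1 hz
    obtain ⟨a1, -, a3, a4, -, a6⟩ := hF y hy
    refine ⟨win_mem a1 (by omega), a6.congr fun t ht => ?_, ?_, ?_⟩
    · simp only [tr, min_eq_left ht]
    · simpa only [tr, sh, add_zero, Nat.zero_min] using a3
    · simpa only [tr, sh, min_self, Nat.add_sub_cancel' hi] using a4
  refine le_trans ?_ (Nat.mul_le_mul h1 h2)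
  rw [← card_product]
  refine card_le_card_of_injOn (fun y => (tr i (sh y 0), tr (N - i) (sh y i)))
    (fun y hy => mem_coe.2 (mem_product.2
      ⟨mem_image_of_mem _ (mem_coe.1 hy), mem_image_of_mem _ (mem_coe.1 hy)⟩))
    fun a ha b hb e => ?_
  obtain ⟨e1, e2⟩ := Prod.mk.inj e
  refine Wk_ext (hF a ha).1 (hF b hb).1 fun t ht => ?_
  rcases le_total t i with h' | h'
  · simpa only [tr, sh, zero_add, min_eq_left h'] using congrFun e1 t
  · have h3 : t - i ≤ N - i := by omega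
    simpa only [tr, sh, min_eq_left h3, Nat.add_sub_cancel' h'] using congrFun e2 (t - i)

/-- A heavy pair is linked. -/
theorem heavy_link {M : ℕ → ℕ} (h0 : 1 ≤ M 0) {j B q : ℕ} (hB : ∀ l ≤ j, M l ≤ B)
    (hq : q * (j * (B * B)) ≤ M (j + 1)) {u v : V} (h : M (j + 1) < (Pa G M j u v).card) :
    Lk G (j + 1) q u v := by
  intro Q hQ
  have hb : ((Q ×ˢ Icc 1 j).biUnion fun p =>
      (Pa G M j u v).filter fun y => y p.2 = p.1).card ≤ M (j + 1) := by
    refine le_trans (card_biUnion_le_card_mul _ _ (B * B) fun p hp => ?_) ?_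
    · have ht := mem_Icc.1 (mem_product.1 hp).2
      refine le_trans (thru_card (G := G) h0 (N := j + 1) (i := p.2) (by omega) u p.1 v _
        fun y hy => ?_)
        (Nat.mul_le_mul (hB _ ht.2) (hB _ (by omega)))
      obtain ⟨a, b⟩ := mem_filter.1 hy
      obtain ⟨a1, a2, a3, a4⟩ := mem_Pa.1 a
      refine ⟨a1, a3, b, a4, (a2.win (i := 0) (by omega) ht.2).congr fun t _ => ?_,
        a2.win (by omega) (by omega)⟩
      simp only [sh, zero_add]
    · rw [card_product, Nat.card_Icc, Nat.add_sub_cancel, mul_assoc]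
      exact le_trans (Nat.mul_le_mul_right _ hQ) hq
  obtain ⟨y, hy, hn⟩ := exists_mem_notMem_of_card_lt_card (lt_of_le_of_lt hb h)
  obtain ⟨a1, a2, a3, a4⟩ := mem_Pa.1 hy
  refine ⟨y, a3, a4, (mem_Wk.1 a1).2, a2.inj, fun t h1 h2 hQ' => hn ?_⟩
  exact mem_biUnion.2 ⟨(y t, t), mem_product.2 ⟨hQ', mem_Icc.2 ⟨h1, by omega⟩⟩,
    mem_filter.2 ⟨hy, rfl⟩⟩

/-- The first end of a heavy pair has many neighbours near the other end. -/
theorem heavy_nb {M : ℕ → ℕ} (h0 : 1 ≤ M 0) {j B : ℕ} (hB : M j ≤ B) (u v : V) :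
    (Pa G M j u v).card ≤ B * dg G (St G j v) u := by
  refine le_trans (card_le_mul_card_image (f := fun y : ℕ → V => y 1) _ B fun w _ => ?_)
    (Nat.mul_le_mul_left _ (card_le_card fun w hw => ?_))
  · refine le_trans ?_ hB
    have h1 : (((Pa G M j u v).filter fun y => y 1 = w).image
        fun y => tr j (sh y 1)).card ≤ M j := by
      refine gd_card (G := G) h0 j w v _ fun z hz => ?_
      obtain ⟨y, hy, rfl⟩ := mem_image.1 hz
      obtain ⟨a, b⟩ := mem_filter.1 hy
      obtain ⟨a1, a2, -, a4⟩ := mem_Pa.1 a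
      refine ⟨win_mem a1 (by omega), a2.2.1.congr fun t ht => ?_, ?_, ?_⟩
      · simp only [tr, min_eq_left ht]
      · simpa only [tr, sh, add_zero, Nat.zero_min] using b
      · simpa only [tr, sh, min_self, add_comm 1 j] using a4
    refine le_trans (le_of_eq (card_image_of_injOn fun a ha b hb e => ?_).symm) h1
    obtain ⟨a1, -, a3, -⟩ := mem_Pa.1 (mem_filter.1 ha).1
    obtain ⟨b1, -, b3, -⟩ := mem_Pa.1 (mem_filter.1 hb).1
    refine Wk_ext a1 b1 fun t ht => ?_
    cases t with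
    | zero => rw [a3, b3]
    | succ t =>
      have h3 : t ≤ j := by omega
      simpa only [tr, sh, min_eq_left h3, add_comm 1 t] using congrFun e t
  · obtain ⟨y, hy, rfl⟩ := mem_image.1 hw
    obtain ⟨a1, -, a3, a4⟩ := mem_Pa.1 hy
    refine mem_filter.2 ⟨mem_image.2 ⟨tr j (sh y 1), mem_filter.2
      ⟨win_mem a1 (by omega), ?_⟩, ?_⟩, ?_⟩
    · simpa only [tr, sh, min_self, add_comm 1 j] using a4
    · simp only [tr, sh, add_zero, Nat.zero_min]
    · rw [← a3]
      exact (mem_Wk.1 a1).2 0 (by omega)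

end Pool.Agent.Lib.MP_befe0b_co.RX
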